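import Mathlib

/-!
# Peak sets for analytic Lipschitz classes and zero sets of Gevrey classes: definitions

`ball 0 1` is the open unit disc, `closedBall 0 1` the closed one and `sphere 0 1` the unit circle
in `ℂ`. Functions are total functions `ℂ → ℂ`; only their values on the closed disc (for `A_α`)
and in the open disc (for `G_α`) matter.
-/

open Filter Topology Metric Set

namespace PeakGevrey

/-- The class `A_α`: functions analytic in the open unit disc, continuous on the closed disc and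
satisfying a Lipschitz condition of order `α` on the unit circle. -/
def InLipClass (α : ℝ) (f : ℂ → ℂ) : Prop :=
  DifferentiableOn ℂ f (ball 0 1) ∧ ContinuousOn f (closedBall 0 1) ∧
    ∃ C : ℝ, ∀ x ∈ sphere (0 : ℂ) 1, ∀ y ∈ sphere (0 : ℂ) 1, ‖f x - f y‖ ≤ C * ‖x - y‖ ^ α

/-- `E` is a peak set for `A_α`: a closed subset of the unit circle such that some `f` in `A_α`
equals `1` on `E` and satisfies `|f| < 1` on the rest of the circle. -/
def IsPeakSet (α : ℝ) (E : Set ℂ) : Prop :=
  IsClosed E ∧ E ⊆ sphere 0 1 ∧ ∃ f : ℂ → ℂ, InLipClass α f ∧ (∀ ζ ∈ E, f ζ = 1) ∧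
    ∀ ζ ∈ sphere (0 : ℂ) 1, ζ ∉ E → ‖f ζ‖ < 1

/-- The Gevrey class `G_α`: functions analytic in the open unit disc whose `n`-th derivative is
bounded there by `C^(n+1) (n!)^(1+1/α)` for every `n`, with a constant `C`. -/
def InGevrey (α : ℝ) (f : ℂ → ℂ) : Prop :=
  DifferentiableOn ℂ f (ball 0 1) ∧ ∃ C : ℝ, ∀ n : ℕ, ∀ z ∈ ball (0 : ℂ) 1,
    ‖iteratedDeriv n f z‖ ≤ C ^ (n + 1) * (n.factorial : ℝ) ^ (1 + 1 / α)

/-- `E` is a zero set for `G_α`: a subset of the unit circle such that some `f` in `G_α`, not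
identically zero in the disc, has all its derivatives vanishing on `E` (the value at `ζ` of the
continuous extension of `f^(n)` to the closed disc is its limit at `ζ` from inside the disc). -/
def IsZeroSet (α : ℝ) (E : Set ℂ) : Prop :=
  E ⊆ sphere 0 1 ∧ ∃ f : ℂ → ℂ, InGevrey α f ∧ (∃ z ∈ ball (0 : ℂ) 1, f z ≠ 0) ∧
    ∀ n : ℕ, ∀ ζ ∈ E, Tendsto (iteratedDeriv n f) (𝓝[ball 0 1] ζ) (𝓝 0)

end PeakGevrey
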