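import Mathlib
import Pool.Agent.H33.Peak.Defs

open MeasureTheory Filter Topology Complex Metric Set

namespace PeakGevrey

/-! ## Poisson representation and maximum principle -/

/-- Poisson kernel -/
lemma kernel_nonneg {z ζ : ℂ} (hz : ‖z‖ < 1) (hζ : ‖ζ‖ = 1) :
    0 ≤ ((ζ + z) / (ζ - z)).re := by
  have h := congrFun (poissonKernel_eq_re_herglotzRieszKernel (c := 0) (w := z)) ζ
  simp only [Function.comp_apply, herglotzRieszKernel, poissonKernel, sub_zero] at h
  rw [← h, hζ]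
  apply div_nonneg
  · nlinarith [norm_nonneg z]
  · positivity

lemma kernel_continuous {z : ℂ} (hz : ‖z‖ < 1) :
    Continuous (fun t : ℝ => (circleMap 0 1 t + z) / (circleMap 0 1 t - z)) := by
  have hc : Continuous (circleMap 0 1) := continuous_circleMap 0 1
  apply Continuous.div (by fun_prop) (by fun_prop)
  intro t h
  rw [sub_eq_zero] at h
  rw [← h] at hz
  simp [circleMap] at hz

/-- Poisson representation of a bounded analytic function -/
lemma poisson_rep {B : ℂ → ℂ} {b : ℝ → ℂ} {M : ℝ} (hB : DifferentiableOn ℂ B (ball 0 1))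
    (hM : ∀ z ∈ ball (0:ℂ) 1, ‖B z‖ ≤ M)
    (hb : ∀ᵐ t ∂(volume.restrict (Ioc 0 (2 * Real.pi))),
      Tendsto (fun r : ℝ => B (r * circleMap 0 1 t)) (𝓝[<] 1) (𝓝 (b t)))
    {z : ℂ} (hz : z ∈ ball (0:ℂ) 1) :
    B z = ((2 * Real.pi)⁻¹ : ℝ) • ∫ t in Ioc 0 (2 * Real.pi),
      (((circleMap 0 1 t + z) / (circleMap 0 1 t - z)).re • b t) := by
  have hpi := Real.pi_pos
  have hz1 : ‖z‖ < 1 := by simpa using hz
  have hBc : ContinuousOn B (ball 0 1) := hB.continuousOn
  -- radii
  set r : ℕ → ℝ := fun n => 1 - 1 / ((n:ℝ) + 2) with hr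
  have hr0 : ∀ n, 0 < r n := by
    intro n
    have : (1:ℝ) / ((n:ℝ) + 2) ≤ 1 / 2 := by
      apply one_div_le_one_div_of_le (by norm_num)
      have : (0:ℝ) ≤ n := Nat.cast_nonneg n
      linarith
    simp only [hr]; linarith
  have hr1 : ∀ n, r n < 1 := by
    intro n
    have : 0 < (1:ℝ) / ((n:ℝ) + 2) := by positivity
    simp only [hr]; linarith
  have hrt : Tendsto r atTop (𝓝[<] 1) := by
    rw [tendsto_nhdsWithin_iff]
    refine ⟨?_, Eventually.of_forall hr1⟩
    have h1 : Tendsto (fun n : ℕ => 1 / ((n:ℝ) + 2)) atTop (𝓝 0) := by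
      have h2 := tendsto_one_div_add_atTop_nhds_zero_nat (𝕜 := ℝ)
      have h3 := h2.comp (tendsto_add_atTop_nat 1)
      refine h3.congr ?_
      intro n
      simp only [Function.comp_apply, Nat.cast_add, Nat.cast_one]
      ring_nf
    have h2 := h1.const_sub (1:ℝ)
    rw [sub_zero] at h2
    exact h2
  -- Poisson formula for each n
  have hpf : ∀ n, B (r n * z) = ((2 * Real.pi)⁻¹ : ℝ) • ∫ t in Ioc 0 (2 * Real.pi),
      (((circleMap 0 1 t + z) / (circleMap 0 1 t - z)).re • B (r n * circleMap 0 1 t)) := by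
    intro n
    have hd : DiffContOnCl ℂ (fun w => B (r n * w)) (ball 0 1) := by
      have h1 : DifferentiableOn ℂ (fun w => B (r n * w)) (closure (ball 0 1)) := by
        apply hB.comp (by fun_prop)
        intro w hw
        have hw1 : ‖w‖ ≤ 1 := by
          have := closure_ball_subset_closedBall hw
          simpa using this
        simp only [mem_ball, dist_zero_right, norm_mul, norm_real, Real.norm_eq_abs,
          abs_of_pos (hr0 n)]
        nlinarith [hr1 n, hr0 n, norm_nonneg w]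
      exact h1.diffContOnCl
    have h2 := hd.circleAverage_re_herglotzRieszKernel_smul' hz
    rw [Real.circleAverage, intervalIntegral.integral_of_le (by positivity)] at h2
    simp only [sub_zero] at h2
    rw [← h2]
  -- limits
  have hlim1 : Tendsto (fun n => B (r n * z)) atTop (𝓝 (B z)) := by
    have h1 : ContinuousAt B z := hBc.continuousAt (isOpen_ball.mem_nhds hz)
    have h2 : Tendsto (fun n => ((r n : ℝ) : ℂ) * z) atTop (𝓝 (1 * z)) := by
      apply Tendsto.mul_const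
      have : Tendsto r atTop (𝓝 1) := hrt.mono_right nhdsWithin_le_nhds
      exact_mod_cast (continuous_ofReal.tendsto 1).comp this
    rw [one_mul] at h2
    exact h1.tendsto.comp h2
  obtain ⟨K, hK⟩ : ∃ K, ∀ t ∈ Icc 0 (2 * Real.pi),
      ‖(circleMap 0 1 t + z) / (circleMap 0 1 t - z)‖ ≤ K :=
    isCompact_Icc.exists_bound_of_continuousOn (kernel_continuous hz1).continuousOn
  have hlim2 : Tendsto (fun n => ∫ t in Ioc 0 (2 * Real.pi),
      (((circleMap 0 1 t + z) / (circleMap 0 1 t - z)).re • B (r n * circleMap 0 1 t))) atTop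
      (𝓝 (∫ t in Ioc 0 (2 * Real.pi),
      (((circleMap 0 1 t + z) / (circleMap 0 1 t - z)).re • b t))) := by
    apply tendsto_integral_of_dominated_convergence (bound := fun _ => K * M)
    · intro n
      apply Continuous.aestronglyMeasurable
      refine Continuous.smul (f := fun a => ((circleMap 0 1 a + z) / (circleMap 0 1 a - z)).re)
        (g := fun a => B (↑(r n) * circleMap 0 1 a)) ?_ ?_
      · exact continuous_re.comp (kernel_continuous hz1)
      · have hc : Continuous (circleMap 0 1) := continuous_circleMap 0 1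
        have h1 : ContinuousOn (fun t : ℝ => B (r n * circleMap 0 1 t)) univ := by
          apply hBc.comp (by fun_prop)
          intro t _
          simp only [mem_ball, dist_zero_right, norm_mul, norm_real, Real.norm_eq_abs,
            abs_of_pos (hr0 n), norm_circleMap_zero, abs_one, mul_one]
          exact hr1 n
        exact continuousOn_univ.mp h1
    · exact integrable_const _
    · intro n
      rw [ae_restrict_iff' measurableSet_Ioc]
      apply Eventually.of_forall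
      intro t ht
      rw [norm_smul]
      have h1 := hK t ⟨ht.1.le, ht.2⟩
      have h2 : ‖((circleMap 0 1 t + z) / (circleMap 0 1 t - z)).re‖ ≤ K :=
        (abs_re_le_norm _).trans h1
      have h3 : ‖B (r n * circleMap 0 1 t)‖ ≤ M := by
        apply hM
        simp only [mem_ball, dist_zero_right, norm_mul, norm_real, Real.norm_eq_abs,
            abs_of_pos (hr0 n), norm_circleMap_zero, abs_one, mul_one]
        exact hr1 n
      exact mul_le_mul h2 h3 (norm_nonneg _) ((norm_nonneg _).trans h2)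
    · filter_upwards [hb] with t ht
      apply Tendsto.const_smul
      exact ht.comp hrt
  have hlim3 := hlim2.const_smul ((2 * Real.pi)⁻¹ : ℝ)
  exact tendsto_nhds_unique hlim1 (hlim3.congr (fun n => (hpf n).symm))

/-- Maximum principle for bounded analytic functions with radial limits. -/
lemma max_principle {B : ℂ → ℂ} {b : ℝ → ℂ} {M C : ℝ} (hB : DifferentiableOn ℂ B (ball 0 1))
    (hM : ∀ z ∈ ball (0:ℂ) 1, ‖B z‖ ≤ M)
    (hb : ∀ᵐ t ∂(volume.restrict (Ioc 0 (2 * Real.pi))),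
      Tendsto (fun r : ℝ => B (r * circleMap 0 1 t)) (𝓝[<] 1) (𝓝 (b t)))
    (hC : ∀ᵐ t ∂(volume.restrict (Ioc 0 (2 * Real.pi))), ‖b t‖ ≤ C)
    {z : ℂ} (hz : z ∈ ball (0:ℂ) 1) :
    ‖B z‖ ≤ C := by
  have hpi := Real.pi_pos
  have hz1 : ‖z‖ < 1 := by simpa using hz
  rw [poisson_rep hB hM hb hz, norm_smul, Real.norm_eq_abs, abs_of_pos (by positivity)]
  have hone : (1 : ℂ) = ((2 * Real.pi)⁻¹ : ℝ) • ∫ t in Ioc 0 (2 * Real.pi),
      (((circleMap 0 1 t + z) / (circleMap 0 1 t - z)).re • (1:ℂ)) := by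
    exact poisson_rep (B := fun _ => 1) (b := fun _ => 1) (M := 1) (by fun_prop) (by simp)
      (by simp) hz
  have hre : Integrable (fun t => ((circleMap 0 1 t + z) / (circleMap 0 1 t - z)).re)
      (volume.restrict (Ioc 0 (2 * Real.pi))) := by
    have h1 : Continuous (fun t : ℝ => ((circleMap 0 1 t + z) / (circleMap 0 1 t - z)).re) :=
      continuous_re.comp (kernel_continuous hz1)
    exact (h1.continuousOn.integrableOn_compact isCompact_Icc).mono_set Ioc_subset_Icc_self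
  have hone' : (1 : ℝ) = ((2 * Real.pi)⁻¹ : ℝ) * ∫ t in Ioc 0 (2 * Real.pi),
      ((circleMap 0 1 t + z) / (circleMap 0 1 t - z)).re := by
    have h1 := congrArg Complex.re hone
    rw [Complex.real_smul, Complex.re_ofReal_mul] at h1
    have h2 : (∫ t in Ioc 0 (2 * Real.pi),
      (((circleMap 0 1 t + z) / (circleMap 0 1 t - z)).re • (1:ℂ))) =
      ((∫ t in Ioc 0 (2 * Real.pi),
      ((circleMap 0 1 t + z) / (circleMap 0 1 t - z)).re : ℝ) : ℂ) := by
      rw [← integral_complex_ofReal]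
      congr 1
      ext t
      simp
    rw [h2] at h1
    simpa using h1
  have h3 : ‖∫ t in Ioc 0 (2 * Real.pi),
      (((circleMap 0 1 t + z) / (circleMap 0 1 t - z)).re • b t)‖ ≤
      ∫ t in Ioc 0 (2 * Real.pi), ((circleMap 0 1 t + z) / (circleMap 0 1 t - z)).re * C := by
    apply norm_integral_le_of_norm_le (hre.mul_const C)
    filter_upwards [hC] with t ht
    rw [norm_smul, Real.norm_eq_abs, abs_of_nonneg (kernel_nonneg hz1 (by simp [circleMap]))]
    exact mul_le_mul_of_nonneg_left ht (kernel_nonneg hz1 (by simp [circleMap]))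
  rw [integral_mul_const] at h3
  calc (2 * Real.pi)⁻¹ * ‖∫ t in Ioc 0 (2 * Real.pi),
      (((circleMap 0 1 t + z) / (circleMap 0 1 t - z)).re • b t)‖
      ≤ (2 * Real.pi)⁻¹ * ((∫ t in Ioc 0 (2 * Real.pi),
        ((circleMap 0 1 t + z) / (circleMap 0 1 t - z)).re) * C) := by
        apply mul_le_mul_of_nonneg_left h3 (by positivity)
    _ = ((2 * Real.pi)⁻¹ * (∫ t in Ioc 0 (2 * Real.pi),
        ((circleMap 0 1 t + z) / (circleMap 0 1 t - z)).re)) * C := by ring
    _ = C := by rw [← hone', one_mul]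


/-! ## Flatness of Gevrey functions -/

lemma step_flat {g : ℂ → ℂ} {ζ₀ : ℂ} {M : ℝ} {j : ℕ} (hζ : ‖ζ₀‖ = 1)
    (hg : DifferentiableOn ℂ g (ball 0 1))
    (hlim : Tendsto g (𝓝[ball 0 1] ζ₀) (𝓝 0))
    (hM : ∀ w ∈ ball (0:ℂ) 1, ‖deriv g w‖ ≤ M * ‖w - ζ₀‖ ^ j) :
    ∀ z ∈ ball (0:ℂ) 1, ‖g z‖ ≤ M * ‖z - ζ₀‖ ^ (j + 1) / (j + 1) := by
  intro z hz
  have hz1 : ‖z‖ < 1 := by simpa using hz
  -- the path
  have hpath : ∀ s : ℝ, 0 < s → s ≤ 1 → ζ₀ + s * (z - ζ₀) ∈ ball (0:ℂ) 1 := by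
    intro s hs0 hs1
    have h1 : ζ₀ + s * (z - ζ₀) = ((1 - s : ℝ) : ℂ) * ζ₀ + (s : ℂ) * z := by push_cast; ring
    rw [mem_ball_zero_iff, h1]
    calc ‖((1 - s : ℝ) : ℂ) * ζ₀ + (s : ℂ) * z‖
        ≤ ‖((1 - s : ℝ) : ℂ) * ζ₀‖ + ‖(s : ℂ) * z‖ := norm_add_le _ _
      _ = (1 - s) + s * ‖z‖ := by
          rw [norm_mul, norm_mul, norm_real, norm_real, hζ, Real.norm_eq_abs, Real.norm_eq_abs,
            abs_of_nonneg (by linarith), abs_of_pos hs0, mul_one]
      _ < 1 := by nlinarith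
  have hM0 : 0 ≤ M * ‖z - ζ₀‖ ^ j := (norm_nonneg _).trans (hM z hz)
  -- estimate for positive ε
  have key : ∀ ε : ℝ, 0 < ε → ε < 1 →
      ‖g z‖ ≤ ‖g (ζ₀ + ε * (z - ζ₀))‖ + M * ‖z - ζ₀‖ ^ (j + 1) / (j + 1) := by
    intro ε hε0 hε1
    have hderiv : ∀ s : ℝ, 0 < s → s ≤ 1 →
        HasDerivAt (fun s : ℝ => g (ζ₀ + s * (z - ζ₀)))
          (deriv g (ζ₀ + s * (z - ζ₀)) * (z - ζ₀)) s := by
      intro s hs0 hs1
      have hd := (hg.differentiableAt (isOpen_ball.mem_nhds (hpath s hs0 hs1))).hasDerivAt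
      have h1 : HasDerivAt (fun s : ℝ => ζ₀ + (s : ℂ) * (z - ζ₀)) (z - ζ₀) s := by
        have h2 : HasDerivAt (fun s : ℝ => (s : ℂ)) 1 s := hasDerivAt_id s |>.ofReal_comp
        have h3 := (h2.mul_const (z - ζ₀)).const_add ζ₀
        simpa using h3
      exact hd.comp_of_eq s h1 rfl
    have hmain := image_norm_le_of_norm_deriv_right_le_deriv_boundary'
      (f := fun s : ℝ => g (ζ₀ + s * (z - ζ₀)))
      (f' := fun s : ℝ => deriv g (ζ₀ + s * (z - ζ₀)) * (z - ζ₀))
      (a := ε) (b := 1)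
      (B := fun s => ‖g (ζ₀ + ε * (z - ζ₀))‖ + M * ‖z - ζ₀‖ ^ (j + 1) / (j + 1) *
        (s ^ (j + 1) - ε ^ (j + 1)))
      (B' := fun s => M * ‖z - ζ₀‖ ^ (j + 1) / (j + 1) * ((j + 1) * s ^ j))
      ?_ ?_ ?_ ?_ ?_ ?_
    · have h1 := hmain (x := 1) ⟨hε1.le, le_refl 1⟩
      simp only [ofReal_one, one_mul, add_sub_cancel, one_pow] at h1
      have h2 : 0 ≤ M * ‖z - ζ₀‖ ^ (j + 1) / (j + 1) := by
        rw [pow_succ, ← mul_assoc]
        positivity
      have h3 : 1 - ε ^ (j + 1) ≤ 1 := by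
        have : 0 ≤ ε ^ (j + 1) := by positivity
        linarith
      nlinarith
    · intro s hs
      exact (hderiv s (hε0.trans_le hs.1) hs.2).continuousAt.continuousWithinAt
    · intro s hs
      exact (hderiv s (hε0.trans_le hs.1) hs.2.le).hasDerivWithinAt
    · simp
    · fun_prop
    · intro s _
      apply HasDerivAt.hasDerivWithinAt
      have h1 : HasDerivAt (fun s : ℝ => s ^ (j + 1)) (((j + 1 : ℕ) : ℝ) * s ^ j) s := by
        simpa using hasDerivAt_pow (j + 1) s
      have h2 := ((h1.sub_const (ε ^ (j + 1))).const_mul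
        (M * ‖z - ζ₀‖ ^ (j + 1) / (j + 1))).const_add (‖g (ζ₀ + ε * (z - ζ₀))‖)
      simpa using h2
    · intro s hs
      have hs0 : 0 < s := hε0.trans_le hs.1
      rw [norm_mul]
      have h1 := hM _ (hpath s hs0 hs.2.le)
      have h2 : ‖ζ₀ + s * (z - ζ₀) - ζ₀‖ = s * ‖z - ζ₀‖ := by
        rw [add_sub_cancel_left, norm_mul, norm_real, Real.norm_eq_abs, abs_of_pos hs0]
      rw [h2] at h1
      calc ‖deriv g (ζ₀ + s * (z - ζ₀))‖ * ‖z - ζ₀‖
          ≤ (M * (s * ‖z - ζ₀‖) ^ j) * ‖z - ζ₀‖ := by gcongr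
        _ = M * ‖z - ζ₀‖ ^ (j + 1) / (j + 1) * ((j + 1) * s ^ j) := by
            have : (j + 1 : ℝ) ≠ 0 := by positivity
            rw [mul_pow]
            field_simp
            ring
  -- ε → 0
  have h0 : Tendsto (fun ε : ℝ => ζ₀ + ε * (z - ζ₀)) (𝓝[>] 0) (𝓝[ball 0 1] ζ₀) := by
    rw [tendsto_nhdsWithin_iff]
    constructor
    · have hc : Continuous (fun ε : ℝ => ζ₀ + ε * (z - ζ₀)) := by fun_prop
      have h1 := hc.tendsto 0
      simp only [ofReal_zero, zero_mul, add_zero] at h1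
      exact h1.mono_left nhdsWithin_le_nhds
    · have : Ioo (0:ℝ) 1 ∈ 𝓝[>] (0:ℝ) := Ioo_mem_nhdsGT (by norm_num)
      filter_upwards [this] with ε hε
      exact hpath ε hε.1 hε.2.le
  have h1 := ((hlim.comp h0).norm).add_const (M * ‖z - ζ₀‖ ^ (j + 1) / (j + 1))
  simp only [norm_zero, zero_add] at h1
  apply ge_of_tendsto h1
  have : Ioo (0:ℝ) 1 ∈ 𝓝[>] (0:ℝ) := Ioo_mem_nhdsGT (by norm_num)
  filter_upwards [this] with ε hε
  exact key ε hε.1 hε.2

lemma differentiableOn_iteratedDeriv {f : ℂ → ℂ} (hf : DifferentiableOn ℂ f (ball 0 1)) (n : ℕ) :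
    DifferentiableOn ℂ (iteratedDeriv n f) (ball 0 1) := by
  induction n with
  | zero => simpa [iteratedDeriv_zero] using hf
  | succ n ih =>
    rw [iteratedDeriv_succ]
    exact ih.deriv isOpen_ball

lemma flat_aux {f : ℂ → ℂ} {ζ₀ : ℂ} (hζ : ‖ζ₀‖ = 1) (hf : DifferentiableOn ℂ f (ball 0 1))
    (hlim : ∀ n, Tendsto (iteratedDeriv n f) (𝓝[ball 0 1] ζ₀) (𝓝 0)) {n : ℕ} {M : ℝ}
    (hM : ∀ z ∈ ball (0:ℂ) 1, ‖iteratedDeriv n f z‖ ≤ M) :
    ∀ j m : ℕ, m + j = n → ∀ z ∈ ball (0:ℂ) 1,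
      ‖iteratedDeriv m f z‖ ≤ M / (j.factorial : ℝ) * ‖z - ζ₀‖ ^ j := by
  intro j
  induction j with
  | zero =>
    intro m hm z hz
    have : m = n := by omega
    subst this
    simpa using hM z hz
  | succ j ih =>
    intro m hm z hz
    have h1 := step_flat (g := iteratedDeriv m f) (M := M / (j.factorial : ℝ)) (j := j) hζ
      (differentiableOn_iteratedDeriv hf m) (hlim m) ?_ z hz
    · have h2 : M / (((j + 1).factorial : ℕ) : ℝ) * ‖z - ζ₀‖ ^ (j + 1) =
          M / (j.factorial : ℝ) * ‖z - ζ₀‖ ^ (j + 1) / (j + 1) := by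
        rw [Nat.factorial_succ]
        push_cast
        have h3 : (j.factorial : ℝ) ≠ 0 := by positivity
        have h4 : (j + 1 : ℝ) ≠ 0 := by positivity
        field_simp
      rw [h2]
      exact h1
    · intro w hw
      rw [← iteratedDeriv_succ]
      exact ih (m + 1) (by omega) w hw

/-- Exponential flatness. -/
lemma flat_exp {α C : ℝ} (hα : 0 < α) (hC : 0 < C) {f : ℂ → ℂ} {ζ₀ : ℂ} (hζ : ‖ζ₀‖ = 1)
    (hf : DifferentiableOn ℂ f (ball 0 1))
    (hb : ∀ n : ℕ, ∀ z ∈ ball (0:ℂ) 1,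
      ‖iteratedDeriv n f z‖ ≤ C ^ (n + 1) * (n.factorial : ℝ) ^ (1 + 1 / α))
    (hlim : ∀ n, Tendsto (iteratedDeriv n f) (𝓝[ball 0 1] ζ₀) (𝓝 0)) :
    ∀ z ∈ ball (0:ℂ) 1, ‖f z‖ ≤ C * Real.exp (1 - (Real.exp 1 * C * ‖z - ζ₀‖) ^ (-α)) := by
  intro z hz
  have hz1 : ‖z‖ < 1 := by simpa using hz
  have hne : z ≠ ζ₀ := by
    rintro rfl
    linarith
  set x := ‖z - ζ₀‖ with hx
  have hx0 : 0 < x := norm_pos_iff.mpr (sub_ne_zero.mpr hne)
  set y : ℝ := (Real.exp 1 * C * x) ^ (-α) with hy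
  have hbase : 0 < Real.exp 1 * C * x := by positivity
  have hy0 : 0 < y := Real.rpow_pos_of_pos hbase _
  set n : ℕ := ⌊y⌋₊ with hn
  have hn1 : (n : ℝ) ≤ y := Nat.floor_le hy0.le
  have hn2 : y - 1 ≤ n := by
    have := (Nat.lt_floor_add_one y).le
    linarith
  have h1 := flat_aux hζ hf hlim (hb n) n 0 (by omega) z hz
  rw [iteratedDeriv_zero] at h1
  have hfac : (0:ℝ) < (n.factorial : ℝ) := by positivity
  -- (n!)^{1/α} ≤ (n^{1/α})^n
  have h2 : C ^ (n + 1) * (n.factorial : ℝ) ^ (1 + 1 / α) / (n.factorial : ℝ) * x ^ n =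
      C * ((C * x) ^ n * (n.factorial : ℝ) ^ (1 / α)) := by
    rw [Real.rpow_add hfac, Real.rpow_one]
    field_simp
    ring
  rw [h2] at h1
  have h3 : (n.factorial : ℝ) ^ (1 / α) ≤ ((n : ℝ) ^ (1 / α)) ^ n := by
    rw [← Real.rpow_natCast ((n:ℝ) ^ (1/α)) n, ← Real.rpow_mul (Nat.cast_nonneg n), mul_comm (1/α),
      Real.rpow_mul (Nat.cast_nonneg n), Real.rpow_natCast]
    apply Real.rpow_le_rpow hfac.le _ (by positivity)
    exact_mod_cast Nat.factorial_le_pow n
  have h4 : C * x * (n : ℝ) ^ (1 / α) ≤ Real.exp (-1) := by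
    have h5 : (n : ℝ) ^ (1 / α) ≤ y ^ (1 / α) :=
      Real.rpow_le_rpow (Nat.cast_nonneg n) hn1 (by positivity)
    have h6 : y ^ (1 / α) = (Real.exp 1 * C * x)⁻¹ := by
      rw [hy, ← Real.rpow_mul hbase.le]
      have : -α * (1 / α) = -1 := by field_simp
      rw [this, Real.rpow_neg_one]
    calc C * x * (n : ℝ) ^ (1 / α) ≤ C * x * (Real.exp 1 * C * x)⁻¹ := by
          rw [← h6]; gcongr
      _ = Real.exp (-1) := by
          rw [Real.exp_neg]
          field_simp
  have h7 : (C * x) ^ n * (n.factorial : ℝ) ^ (1 / α) ≤ Real.exp (1 - y) := by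
    calc (C * x) ^ n * (n.factorial : ℝ) ^ (1 / α)
        ≤ (C * x) ^ n * ((n : ℝ) ^ (1 / α)) ^ n := by gcongr
      _ = (C * x * (n : ℝ) ^ (1 / α)) ^ n := by rw [← mul_pow]
      _ ≤ (Real.exp (-1)) ^ n := by gcongr
      _ = Real.exp (-n) := by rw [← Real.exp_nat_mul]; ring_nf
      _ ≤ Real.exp (1 - y) := Real.exp_le_exp.mpr (by linarith)
  calc ‖f z‖ ≤ C * ((C * x) ^ n * (n.factorial : ℝ) ^ (1 / α)) := h1
    _ ≤ C * Real.exp (1 - y) := by gcongr

/-- Jensen lower bound, uniform in the radius. -/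
lemma jensen_lower {f : ℂ → ℂ} (hf : DifferentiableOn ℂ f (ball 0 1)) :
    ∃ B : ℝ, ∀ R : ℝ, 1 / 2 ≤ R → R < 1 →
      B ≤ Real.circleAverage (Real.log ‖f ·‖) 0 R := by
  refine ⟨(((ENat.map Nat.cast (analyticOrderAt f 0)).untop₀ : ℤ) : ℝ) * Real.log (1 / 2) +
    Real.log ‖meromorphicTrailingCoeffAt f 0‖, ?_⟩
  intro R hR hR1
  have hRpos : 0 < R := by linarith
  have habs : |R| = R := abs_of_pos hRpos
  have han : AnalyticOnNhd ℂ f (closedBall 0 |R|) := by
    intro z hz
    apply (hf.analyticOnNhd isOpen_ball) z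
    rw [habs, mem_closedBall_zero_iff] at hz
    rw [mem_ball_zero_iff]
    linarith
  rw [han.meromorphicOn.circleAverage_log_norm hRpos.ne']
  have h1 : 0 ≤ ∑ᶠ u, (MeromorphicOn.divisor f (closedBall 0 |R|) u : ℝ) *
      Real.log (R * ‖0 - u‖⁻¹) := by
    apply finsum_nonneg
    intro u
    by_cases hu : u ∈ closedBall (0:ℂ) |R|
    · have hd : (0:ℤ) ≤ MeromorphicOn.divisor f (closedBall 0 |R|) u :=
        MeromorphicOn.AnalyticOnNhd.divisor_nonneg han u
      apply mul_nonneg (by exact_mod_cast hd)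
      by_cases hu0 : u = 0
      · subst hu0; simp
      · apply Real.log_nonneg
        have hupos : 0 < ‖u‖ := norm_pos_iff.mpr hu0
        rw [habs, mem_closedBall_zero_iff] at hu
        rw [zero_sub, norm_neg, ← div_eq_mul_inv, le_div_iff₀ hupos]
        linarith
    · have : MeromorphicOn.divisor f (closedBall 0 |R|) u = 0 :=
        Function.locallyFinsuppWithin.apply_eq_zero_of_notMem _ hu
      rw [this]; simp
  have h2 : MeromorphicOn.divisor f (closedBall 0 |R|) 0 =
      (ENat.map Nat.cast (analyticOrderAt f 0)).untop₀ :=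
    MeromorphicOn.AnalyticOnNhd.divisor_apply han (by simp)
  have h5 : (0:ℤ) ≤ (ENat.map Nat.cast (analyticOrderAt f 0)).untop₀ := by
    rw [← h2]
    exact MeromorphicOn.AnalyticOnNhd.divisor_nonneg han 0
  rw [h2]
  have h3 : Real.log (1 / 2) ≤ Real.log R := Real.log_le_log (by norm_num) hR
  have h4 : (((ENat.map Nat.cast (analyticOrderAt f 0)).untop₀ : ℤ) : ℝ) * Real.log (1 / 2) ≤
      (((ENat.map Nat.cast (analyticOrderAt f 0)).untop₀ : ℤ) : ℝ) * Real.log R :=
    mul_le_mul_of_nonneg_left h3 (by exact_mod_cast h5)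
  linarith

/-- almost everywhere nonvanishing on circles -/
lemma ae_ne_zero {f : ℂ → ℂ} (hf : DifferentiableOn ℂ f (ball 0 1))
    (hne : ∃ z ∈ ball (0:ℂ) 1, f z ≠ 0) {R : ℝ} (hR0 : 0 < R) (hR1 : R < 1) :
    ∀ᵐ t ∂(volume.restrict (Ioc 0 (2 * Real.pi))), f (circleMap 0 R t) ≠ 0 := by
  obtain ⟨x, hx, hfx⟩ := hne
  have hco : {z | f z ≠ 0} ∈ codiscreteWithin (ball (0:ℂ) 1) := by
    have h1 := (hf.analyticOnNhd isOpen_ball).preimage_zero_mem_codiscreteWithin hfx hx
      ((convex_ball (0:ℂ) 1).isConnected ⟨0, by simp⟩)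
    filter_upwards [h1] with z hz
    simpa using hz
  have hco2 : {z | f z ≠ 0} ∈ codiscreteWithin (sphere (0:ℂ) |R|) := by
    apply codiscreteWithin_mono _ hco
    intro z hz
    rw [mem_sphere_zero_iff_norm, abs_of_pos hR0] at hz
    rw [mem_ball_zero_iff]
    linarith
  have h3 := circleMap_preimage_codiscrete hR0.ne' hco2
  have h4 : {t : ℝ | f (circleMap 0 R t) ≠ 0} ∈ codiscreteWithin (Ioc 0 (2 * Real.pi)) := by
    apply codiscreteWithin_mono (by tauto) h3
  exact ae_restrict_le_codiscreteWithin measurableSet_Ioc h4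

lemma not_isZeroSet {α : ℝ} (hα : 0 < α) {E : Set ℂ} (l u d : ℕ → ℝ)
    (hlu : ∀ k, l k ≤ u k) (hl : ∀ k, 0 ≤ l k) (hu : ∀ k, u k ≤ 2 * Real.pi)
    (hdisj : ∀ i j, i ≠ j → Disjoint (Ioc (l i) (u i)) (Ioc (l j) (u j)))
    (hd : ∀ k, 0 < d k)
    (hdist : ∀ k, ∀ t ∈ Ioc (l k) (u k), ∃ ζ₀ ∈ E, ‖circleMap 0 1 t - ζ₀‖ ≤ d k)
    (hdiv : Tendsto (fun K => ∑ k ∈ Finset.range K, (u k - l k) * (d k) ^ (-α)) atTop atTop) :
    ¬ IsZeroSet α E := by
  rintro ⟨hE, f, ⟨hf, C, hC⟩, hne, hflat⟩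
  have hpi := Real.pi_pos
  obtain ⟨z₁, hz₁, hfz₁⟩ := hne
  have hf0 : ∀ z ∈ ball (0:ℂ) 1, ‖f z‖ ≤ C := by
    intro z hz
    have := hC 0 z hz
    simpa using this
  have hCpos : 0 < C := (norm_pos_iff.mpr hfz₁).trans_le (hf0 z₁ hz₁)
  obtain ⟨B, hB⟩ := jensen_lower hf
  set c : ℝ := (2 * (Real.exp 1 * C)) ^ (-α) with hc
  have hc0 : 0 < c := Real.rpow_pos_of_pos (by positivity) _
  set A : ℝ := Real.log C + 1 with hA
  -- the main inequality for each K
  have key : ∀ K : ℕ, B ≤ A - (2 * Real.pi)⁻¹ *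
      (c * ∑ k ∈ Finset.range K, (u k - l k) * (d k) ^ (-α)) := by
    intro K
    -- choose the radius
    obtain ⟨R, hR1, hR2, hR3⟩ : ∃ R : ℝ, 1 / 2 ≤ R ∧ R < 1 ∧ ∀ k < K, 1 - R ≤ d k := by
      have h1 : ∀ k ∈ Finset.range K, ∀ᶠ R in 𝓝[<] (1:ℝ), 1 - R ≤ d k := by
        intro k _
        have h2 : Tendsto (fun R : ℝ => 1 - R) (𝓝[<] 1) (𝓝 0) := by
          have : Tendsto (fun R : ℝ => 1 - R) (𝓝 1) (𝓝 (1 - 1)) :=
            (continuous_const.sub continuous_id).tendsto 1
          rw [sub_self] at this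
          exact this.mono_left nhdsWithin_le_nhds
        filter_upwards [h2.eventually_lt_const (hd k)] with R hR
        exact hR.le
      have h2 := (Filter.eventually_all_finset (Finset.range K)).mpr h1
      have h3 : Ioo (1/2 : ℝ) 1 ∈ 𝓝[<] (1:ℝ) := Ioo_mem_nhdsLT (by norm_num)
      obtain ⟨R, hRa, hRb⟩ := (h2.and h3).exists
      exact ⟨R, hRb.1.le, hRb.2, fun k hk => hRa k (Finset.mem_range.mpr hk)⟩
    have hR0 : 0 < R := by linarith
    have hmem : ∀ t : ℝ, circleMap 0 R t ∈ ball (0:ℂ) 1 := by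
      intro t
      rw [mem_ball_zero_iff, norm_circleMap_zero, abs_of_pos hR0]
      exact hR2
    have hae := ae_ne_zero hf ⟨z₁, hz₁, hfz₁⟩ hR0 hR2
    -- pointwise bound
    have hpt : ∀ᵐ t ∂(volume.restrict (Ioc 0 (2 * Real.pi))),
        Real.log ‖f (circleMap 0 R t)‖ ≤ A - ∑ k ∈ Finset.range K,
          (Ioc (l k) (u k)).indicator (fun _ => c * (d k) ^ (-α)) t := by
      filter_upwards [hae] with t ht
      have hpos : 0 < ‖f (circleMap 0 R t)‖ := norm_pos_iff.mpr ht
      by_cases hex : ∃ k ∈ Finset.range K, t ∈ Ioc (l k) (u k)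
      · obtain ⟨k, hkK, hk⟩ := hex
        have hsum : ∑ k ∈ Finset.range K,
            (Ioc (l k) (u k)).indicator (fun _ => c * (d k) ^ (-α)) t = c * (d k) ^ (-α) := by
          rw [Finset.sum_eq_single k]
          · rw [indicator_of_mem hk]
          · intro j _ hj
            apply indicator_of_notMem
            intro hjt
            exact (Set.disjoint_left.mp (hdisj j k hj)) hjt hk
          · intro h; exact absurd hkK h
        rw [hsum]
        obtain ⟨ζ₀, hζ₀, hdk⟩ := hdist k t hk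
        have hζn : ‖ζ₀‖ = 1 := by simpa using hE hζ₀
        have h1 := flat_exp hα hCpos hζn hf hC (fun n => hflat n ζ₀ hζ₀) _ (hmem t)
        have hx : ‖circleMap 0 R t - ζ₀‖ ≤ 2 * d k := by
          have h2 : circleMap 0 R t - circleMap 0 1 t = ((R - 1 : ℝ) : ℂ) * circleMap 0 1 t := by
            simp only [circleMap]; push_cast; ring
          have h3 : ‖circleMap 0 R t - circleMap 0 1 t‖ = 1 - R := by
            rw [h2, norm_mul, norm_real, norm_circleMap_zero, abs_one, mul_one, Real.norm_eq_abs,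
              abs_of_neg (by linarith)]
            ring
          calc ‖circleMap 0 R t - ζ₀‖ = ‖(circleMap 0 R t - circleMap 0 1 t) +
                (circleMap 0 1 t - ζ₀)‖ := by ring_nf
            _ ≤ ‖circleMap 0 R t - circleMap 0 1 t‖ + ‖circleMap 0 1 t - ζ₀‖ := norm_add_le _ _
            _ ≤ d k + d k := by
                rw [h3]
                exact add_le_add (hR3 k (Finset.mem_range.mp hkK)) hdk
            _ = 2 * d k := by ring
        have hx0 : 0 < ‖circleMap 0 R t - ζ₀‖ := by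
          apply norm_pos_iff.mpr
          intro h0
          have h2 := hmem t
          rw [sub_eq_zero.mp h0, mem_ball_zero_iff, hζn] at h2
          exact lt_irrefl _ h2
        have h2 : c * (d k) ^ (-α) ≤ (Real.exp 1 * C * ‖circleMap 0 R t - ζ₀‖) ^ (-α) := by
          rw [hc, ← Real.mul_rpow (by positivity) (hd k).le]
          apply Real.rpow_le_rpow_of_nonpos (by positivity) _ (by linarith)
          have h4 : 0 < Real.exp 1 * C := by positivity
          nlinarith
        have h3 : Real.log ‖f (circleMap 0 R t)‖ ≤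
            Real.log (C * Real.exp (1 - (Real.exp 1 * C * ‖circleMap 0 R t - ζ₀‖) ^ (-α))) :=
          Real.log_le_log hpos h1
        rw [Real.log_mul hCpos.ne' (Real.exp_pos _).ne', Real.log_exp] at h3
        linarith
      · push Not at hex
        have hsum : ∑ k ∈ Finset.range K,
            (Ioc (l k) (u k)).indicator (fun _ => c * (d k) ^ (-α)) t = 0 := by
          apply Finset.sum_eq_zero
          intro k hk
          exact indicator_of_notMem (hex k hk) _
        rw [hsum, sub_zero]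
        have h1 := Real.log_le_log hpos (hf0 _ (hmem t))
        linarith
    have hBR := hB R hR1 hR2
    rw [Real.circleAverage, intervalIntegral.integral_of_le (by positivity)] at hBR
    have hint1 : Integrable (fun t => Real.log ‖f (circleMap 0 R t)‖)
        (volume.restrict (Ioc 0 (2 * Real.pi))) := by
      have han : AnalyticOnNhd ℂ f (sphere 0 |R|) := by
        intro z hz
        apply (hf.analyticOnNhd isOpen_ball) z
        rw [abs_of_pos hR0, mem_sphere_zero_iff_norm] at hz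
        rw [mem_ball_zero_iff]
        linarith
      have h1 := han.meromorphicOn.circleIntegrable_log_norm
      exact (intervalIntegrable_iff_integrableOn_Ioc_of_le (by positivity)).mp h1
    have hint2 : ∀ k ∈ Finset.range K, Integrable
        (fun t => (Ioc (l k) (u k)).indicator (fun _ => c * (d k) ^ (-α)) t)
        (volume.restrict (Ioc 0 (2 * Real.pi))) := by
      intro k _
      exact (integrable_const _).indicator measurableSet_Ioc
    have hint3 : Integrable (fun t => A - ∑ k ∈ Finset.range K,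
          (Ioc (l k) (u k)).indicator (fun _ => c * (d k) ^ (-α)) t)
        (volume.restrict (Ioc 0 (2 * Real.pi))) :=
      (integrable_const A).sub (integrable_finsetSum _ hint2)
    have h1 := integral_mono_ae hint1 hint3 hpt
    have h2 : ∫ t in Ioc 0 (2 * Real.pi), (A - ∑ k ∈ Finset.range K,
          (Ioc (l k) (u k)).indicator (fun _ => c * (d k) ^ (-α)) t) =
        2 * Real.pi * A - c * ∑ k ∈ Finset.range K, (u k - l k) * (d k) ^ (-α) := by
      rw [integral_sub (integrable_const A) (integrable_finsetSum _ hint2),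
        integral_finsetSum _ hint2]
      congr 1
      · simp [hpi.le]
      · rw [Finset.mul_sum]
        apply Finset.sum_congr rfl
        intro k _
        rw [integral_indicator measurableSet_Ioc, Measure.restrict_restrict measurableSet_Ioc,
          inter_eq_left.mpr (Ioc_subset_Ioc (hl k) (hu k))]
        simp only [integral_const, MeasurableSet.univ, measureReal_restrict_apply, univ_inter,
          Real.volume_real_Ioc_of_le (hlu k), smul_eq_mul]
        ring
    rw [h2] at h1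
    have h3 : (2 * Real.pi)⁻¹ * (∫ t in Ioc 0 (2 * Real.pi), Real.log ‖f (circleMap 0 R t)‖) ≤
        (2 * Real.pi)⁻¹ * (2 * Real.pi * A -
          c * ∑ k ∈ Finset.range K, (u k - l k) * (d k) ^ (-α)) :=
      mul_le_mul_of_nonneg_left h1 (by positivity)
    have h4 : (2 * Real.pi)⁻¹ * (2 * Real.pi * A -
          c * ∑ k ∈ Finset.range K, (u k - l k) * (d k) ^ (-α)) =
        A - (2 * Real.pi)⁻¹ * (c * ∑ k ∈ Finset.range K, (u k - l k) * (d k) ^ (-α)) := by
      field_simp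
    rw [smul_eq_mul] at hBR
    linarith
  -- contradiction
  obtain ⟨K, hK⟩ := (hdiv.eventually_gt_atTop ((A - B) * (2 * Real.pi) / c)).exists
  have h1 := key K
  rw [div_lt_iff₀ hc0] at hK
  have h2 : (A - B) < (2 * Real.pi)⁻¹ *
      (c * ∑ k ∈ Finset.range K, (u k - l k) * (d k) ^ (-α)) := by
    rw [inv_mul_eq_div, lt_div_iff₀ (by positivity)]
    linarith
  linarith

end PeakGevrey
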