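import Mathlib
import Pool.Agent.H33.Peak.PartA

open MeasureTheory Filter Topology Complex Metric Set

namespace PeakGevrey

/-! ## Kernels -/

/-- `q c z = 1/(1 - c z)` -/
noncomputable def q (c z : ℂ) : ℂ := 1 / (1 - c * z)

lemma re_q_eq (c z : ℂ) : (q c z).re = (1 - (c * z).re) / ‖1 - c * z‖ ^ 2 := by
  unfold q
  rw [one_div, inv_re, normSq_eq_norm_sq]
  simp

/-- kernel attached to a point `ζ` of the circle and a radius `ρ` -/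
noncomputable def ker (ρ : ℝ) (ζ z : ℂ) : ℂ :=
  q (starRingEnd ℂ ζ) z + q ((1 - ρ : ℝ) * starRingEnd ℂ ζ) z

lemma conj_mul_self_of {ζ : ℂ} (hζ : ‖ζ‖ = 1) : starRingEnd ℂ ζ * ζ = 1 := by
  rw [mul_comm, mul_conj, normSq_eq_norm_sq, hζ]; simp

lemma norm_one_sub_conj {ζ z : ℂ} (hζ : ‖ζ‖ = 1) : ‖1 - starRingEnd ℂ ζ * z‖ = ‖ζ - z‖ := by
  have h1 : 1 - starRingEnd ℂ ζ * z = starRingEnd ℂ ζ * (ζ - z) := by
    rw [mul_sub, conj_mul_self_of hζ]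
  rw [h1, norm_mul, RCLike.norm_conj, hζ, one_mul]

lemma norm_q1 {ζ z : ℂ} (hζ : ‖ζ‖ = 1) : ‖q (starRingEnd ℂ ζ) z‖ = 1 / ‖ζ - z‖ := by
  unfold q
  rw [norm_div, norm_one, norm_one_sub_conj hζ]

/-- lower bound for the second denominator, in terms of the distance -/
lemma den_ge_half {ρ : ℝ} {ζ z : ℂ} (hζ : ‖ζ‖ = 1) (hz : ‖z‖ ≤ 1) (hρ : 0 ≤ ρ) (hρ1 : ρ ≤ 1) :
    ‖ζ - z‖ / 2 ≤ ‖1 - ((1 - ρ : ℝ) * starRingEnd ℂ ζ) * z‖ := by
  have hcz : ‖starRingEnd ℂ ζ * z‖ ≤ 1 := by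
    rw [norm_mul, RCLike.norm_conj, hζ, one_mul]; exact hz
  have h1 : ‖1 - starRingEnd ℂ ζ * z‖ ≤
      ‖1 - ((1 - ρ : ℝ) * starRingEnd ℂ ζ) * z‖ + ρ := by
    have h2 : 1 - starRingEnd ℂ ζ * z = (1 - ((1 - ρ : ℝ) * starRingEnd ℂ ζ) * z) +
        (-(ρ : ℂ) * (starRingEnd ℂ ζ * z)) := by push_cast; ring
    rw [h2]
    refine (norm_add_le _ _).trans ?_
    gcongr
    rw [norm_mul, norm_neg, norm_real, Real.norm_eq_abs, abs_of_nonneg hρ]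
    nlinarith
  have h3 : ρ ≤ ‖1 - ((1 - ρ : ℝ) * starRingEnd ℂ ζ) * z‖ := by
    have h4 : ‖(1:ℂ)‖ - ‖((1 - ρ : ℝ) * starRingEnd ℂ ζ) * z‖ ≤
        ‖1 - ((1 - ρ : ℝ) * starRingEnd ℂ ζ) * z‖ := norm_sub_norm_le _ _
    have h5 : ‖((1 - ρ : ℝ) * starRingEnd ℂ ζ) * z‖ ≤ 1 - ρ := by
      rw [mul_assoc, norm_mul, norm_real, Real.norm_eq_abs, abs_of_nonneg (by linarith)]
      nlinarith
    rw [norm_one] at h4
    linarith
  rw [norm_one_sub_conj hζ] at h1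
  linarith

lemma den_ge {ρ : ℝ} {ζ z : ℂ} (hζ : ‖ζ‖ = 1) (hz : ‖z‖ ≤ 1) (hρ : 0 ≤ ρ) (hρ1 : ρ ≤ 1) :
    ρ ≤ ‖1 - ((1 - ρ : ℝ) * starRingEnd ℂ ζ) * z‖ := by
  have hcz : ‖starRingEnd ℂ ζ * z‖ ≤ 1 := by
    rw [norm_mul, RCLike.norm_conj, hζ, one_mul]; exact hz
  have h4 : ‖(1:ℂ)‖ - ‖((1 - ρ : ℝ) * starRingEnd ℂ ζ) * z‖ ≤
      ‖1 - ((1 - ρ : ℝ) * starRingEnd ℂ ζ) * z‖ := norm_sub_norm_le _ _
  have h5 : ‖((1 - ρ : ℝ) * starRingEnd ℂ ζ) * z‖ ≤ 1 - ρ := by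
    rw [mul_assoc, norm_mul, norm_real, Real.norm_eq_abs, abs_of_nonneg (by linarith)]
    nlinarith
  rw [norm_one] at h4
  linarith

lemma den_le {ρ : ℝ} {ζ z : ℂ} (hζ : ‖ζ‖ = 1) (hz : ‖z‖ ≤ 1) (hρ : 0 ≤ ρ) :
    ‖1 - ((1 - ρ : ℝ) * starRingEnd ℂ ζ) * z‖ ≤ ‖ζ - z‖ + ρ := by
  have hcz : ‖starRingEnd ℂ ζ * z‖ ≤ 1 := by
    rw [norm_mul, RCLike.norm_conj, hζ, one_mul]; exact hz
  have h2 : 1 - ((1 - ρ : ℝ) * starRingEnd ℂ ζ) * z = (1 - starRingEnd ℂ ζ * z) +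
      ((ρ : ℂ) * (starRingEnd ℂ ζ * z)) := by push_cast; ring
  rw [h2]
  refine (norm_add_le _ _).trans ?_
  rw [norm_one_sub_conj hζ]
  gcongr
  rw [norm_mul, norm_real, Real.norm_eq_abs, abs_of_nonneg hρ]
  nlinarith

lemma norm_q2_le {ρ : ℝ} {ζ z : ℂ} (hζ : ‖ζ‖ = 1) (hz : ‖z‖ ≤ 1) (hρ : 0 < ρ) (hρ1 : ρ ≤ 1) :
    ‖q ((1 - ρ : ℝ) * starRingEnd ℂ ζ) z‖ ≤ 1 / ρ := by
  unfold q
  rw [norm_div, norm_one]
  exact one_div_le_one_div_of_le hρ (den_ge hζ hz hρ.le hρ1)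

lemma norm_ker_le {ρ : ℝ} {ζ z : ℂ} (hζ : ‖ζ‖ = 1) (hz : ‖z‖ ≤ 1) (hρ : 0 ≤ ρ) (hρ1 : ρ ≤ 1)
    (hne : z ≠ ζ) : ‖ker ρ ζ z‖ ≤ 3 / ‖ζ - z‖ := by
  have hpos : 0 < ‖ζ - z‖ := norm_pos_iff.mpr (sub_ne_zero.mpr hne.symm)
  unfold ker
  refine (norm_add_le _ _).trans ?_
  rw [norm_q1 hζ]
  have h1 : ‖q ((1 - ρ : ℝ) * starRingEnd ℂ ζ) z‖ ≤ 2 / ‖ζ - z‖ := by
    unfold q
    rw [norm_div, norm_one]
    calc 1 / ‖1 - ((1 - ρ : ℝ) * starRingEnd ℂ ζ) * z‖ ≤ 1 / (‖ζ - z‖ / 2) :=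
          one_div_le_one_div_of_le (by positivity) (den_ge_half hζ hz hρ hρ1)
      _ = 2 / ‖ζ - z‖ := by field_simp
  calc 1 / ‖ζ - z‖ + ‖q ((1 - ρ : ℝ) * starRingEnd ℂ ζ) z‖ ≤ 1 / ‖ζ - z‖ + 2 / ‖ζ - z‖ := by
        gcongr
    _ = 3 / ‖ζ - z‖ := by ring

/-- `Re 1/(1-w) ≥ 1/2` for `|w| ≤ 1`, `w ≠ 1`. -/
lemma re_q_ge_half {c z : ℂ} (h : ‖c * z‖ ≤ 1) (hne : c * z ≠ 1) : 1 / 2 ≤ (q c z).re := by
  rw [re_q_eq]
  have hpos : 0 < ‖1 - c * z‖ := norm_pos_iff.mpr (sub_ne_zero.mpr hne.symm)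
  rw [le_div_iff₀ (by positivity)]
  have h1 : ‖1 - c * z‖ ^ 2 = 1 - 2 * (c * z).re + ‖c * z‖ ^ 2 := by
    rw [← normSq_eq_norm_sq, ← normSq_eq_norm_sq, normSq_apply, normSq_apply]
    simp only [sub_re, one_re, sub_im, one_im]
    ring
  have h2 : ‖c * z‖ ^ 2 ≤ 1 := by
    have := norm_nonneg (c * z)
    nlinarith
  rw [h1]
  linarith

lemma re_q2_ge {ρ : ℝ} {ζ z : ℂ} (hζ : ‖ζ‖ = 1) (hz : ‖z‖ ≤ 1) (hρ : 0 < ρ) (hρ1 : ρ ≤ 1) :
    ρ / (‖ζ - z‖ + ρ) ^ 2 ≤ (q ((1 - ρ : ℝ) * starRingEnd ℂ ζ) z).re := by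
  rw [re_q_eq]
  have hcz : ‖starRingEnd ℂ ζ * z‖ ≤ 1 := by
    rw [norm_mul, RCLike.norm_conj, hζ, one_mul]; exact hz
  have h1 : (((1 - ρ : ℝ) * starRingEnd ℂ ζ) * z).re ≤ 1 - ρ := by
    rw [mul_assoc, re_ofReal_mul]
    have := (re_le_norm (starRingEnd ℂ ζ * z)).trans hcz
    nlinarith
  have h2 := den_ge hζ hz hρ.le hρ1
  have h3 := den_le (ρ := ρ) hζ hz hρ.le
  have h4 : 0 < ‖1 - ((1 - ρ : ℝ) * starRingEnd ℂ ζ) * z‖ := hρ.trans_le h2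
  calc ρ / (‖ζ - z‖ + ρ) ^ 2 ≤ ρ / ‖1 - ((1 - ρ : ℝ) * starRingEnd ℂ ζ) * z‖ ^ 2 := by
        gcongr
    _ ≤ _ := by
        gcongr
        linarith

lemma conj_mul_ne_one {ζ z : ℂ} (hζ : ‖ζ‖ = 1) (hne : z ≠ ζ) : starRingEnd ℂ ζ * z ≠ 1 := by
  intro h
  apply hne
  have h1 : ‖1 - starRingEnd ℂ ζ * z‖ = 0 := by rw [h]; simp
  rw [norm_one_sub_conj hζ, norm_eq_zero, sub_eq_zero] at h1
  exact h1.symm

lemma re_ker_ge {ρ : ℝ} {ζ z : ℂ} (hζ : ‖ζ‖ = 1) (hz : ‖z‖ ≤ 1) (hρ : 0 < ρ) (hρ1 : ρ ≤ 1)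
    (hne : z ≠ ζ) : ρ / (‖ζ - z‖ + ρ) ^ 2 ≤ (ker ρ ζ z).re := by
  unfold ker
  rw [add_re]
  have h1 := re_q2_ge hζ hz hρ hρ1
  have h2 : 1 / 2 ≤ (q (starRingEnd ℂ ζ) z).re := by
    apply re_q_ge_half _ (conj_mul_ne_one hζ hne)
    rw [norm_mul, RCLike.norm_conj, hζ, one_mul]; exact hz
  linarith

lemma re_ker_pos {ρ : ℝ} {ζ z : ℂ} (hζ : ‖ζ‖ = 1) (hz : ‖z‖ ≤ 1) (hρ : 0 < ρ) (hρ1 : ρ ≤ 1)
    (hne : z ≠ ζ) : 0 < (ker ρ ζ z).re := by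
  refine lt_of_lt_of_le ?_ (re_ker_ge hζ hz hρ hρ1 hne)
  positivity

/-- difference of kernels -/
lemma norm_ker_sub_le {ρ : ℝ} {ζ x y : ℂ} (hζ : ‖ζ‖ = 1) (hx : ‖x‖ ≤ 1) (hy : ‖y‖ ≤ 1)
    (hρ : 0 < ρ) (hρ1 : ρ ≤ 1) (hxne : x ≠ ζ) (hyne : y ≠ ζ) :
    ‖ker ρ ζ x - ker ρ ζ y‖ ≤ 5 * ‖x - y‖ / (‖ζ - x‖ * ‖ζ - y‖) := by
  have hxpos : 0 < ‖ζ - x‖ := norm_pos_iff.mpr (sub_ne_zero.mpr hxne.symm)
  have hypos : 0 < ‖ζ - y‖ := norm_pos_iff.mpr (sub_ne_zero.mpr hyne.symm)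
  have hgen : ∀ c : ℂ, ‖c‖ ≤ 1 → 0 < ‖1 - c * x‖ → 0 < ‖1 - c * y‖ →
      ‖q c x - q c y‖ ≤ ‖x - y‖ / (‖1 - c * x‖ * ‖1 - c * y‖) := by
    intro c hc h1 h2
    have h1' : (1 - c * x) ≠ 0 := norm_pos_iff.mp h1
    have h2' : (1 - c * y) ≠ 0 := norm_pos_iff.mp h2
    have h3 : q c x - q c y = c * (x - y) / ((1 - c * x) * (1 - c * y)) := by
      unfold q
      field_simp
      ring
    rw [h3, norm_div, norm_mul, norm_mul]
    gcongr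
    calc ‖c‖ * ‖x - y‖ ≤ 1 * ‖x - y‖ := by gcongr
      _ = ‖x - y‖ := one_mul _
  have hc1 : ‖starRingEnd ℂ ζ‖ ≤ 1 := by rw [RCLike.norm_conj, hζ]
  have hc2 : ‖((1 - ρ : ℝ) : ℂ) * starRingEnd ℂ ζ‖ ≤ 1 := by
    rw [norm_mul, norm_real, Real.norm_eq_abs, abs_of_nonneg (by linarith), RCLike.norm_conj, hζ]
    linarith
  have e1 := hgen _ hc1 (by rw [norm_one_sub_conj hζ]; exact hxpos)
    (by rw [norm_one_sub_conj hζ]; exact hypos)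
  rw [norm_one_sub_conj hζ, norm_one_sub_conj hζ] at e1
  have hdx := den_ge_half hζ hx hρ.le hρ1
  have hdy := den_ge_half hζ hy hρ.le hρ1
  have e2 := hgen _ hc2 (lt_of_lt_of_le (by positivity) hdx) (lt_of_lt_of_le (by positivity) hdy)
  have e3 : ‖x - y‖ / (‖1 - (((1 - ρ : ℝ) : ℂ) * starRingEnd ℂ ζ) * x‖ *
      ‖1 - (((1 - ρ : ℝ) : ℂ) * starRingEnd ℂ ζ) * y‖) ≤
      ‖x - y‖ / ((‖ζ - x‖ / 2) * (‖ζ - y‖ / 2)) := by
    gcongr
  unfold ker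
  have h4 : q (starRingEnd ℂ ζ) x + q ((1 - ρ : ℝ) * starRingEnd ℂ ζ) x -
      (q (starRingEnd ℂ ζ) y + q ((1 - ρ : ℝ) * starRingEnd ℂ ζ) y) =
      (q (starRingEnd ℂ ζ) x - q (starRingEnd ℂ ζ) y) +
      (q ((1 - ρ : ℝ) * starRingEnd ℂ ζ) x - q ((1 - ρ : ℝ) * starRingEnd ℂ ζ) y) := by ring
  rw [h4]
  refine (norm_add_le _ _).trans ?_
  calc _ ≤ ‖x - y‖ / (‖ζ - x‖ * ‖ζ - y‖) + ‖x - y‖ / ((‖ζ - x‖ / 2) * (‖ζ - y‖ / 2)) :=
        add_le_add e1 (e2.trans e3)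
    _ = 5 * ‖x - y‖ / (‖ζ - x‖ * ‖ζ - y‖) := by field_simp; ring

lemma diff_q {c z : ℂ} (h : c * z ≠ 1) : DifferentiableAt ℂ (q c) z := by
  unfold q
  apply DifferentiableAt.div (by fun_prop) (by fun_prop)
  exact sub_ne_zero.mpr h.symm

lemma mul_ne_one_of {ρ : ℝ} {ζ z : ℂ} (hζ : ‖ζ‖ = 1) (hz : ‖z‖ ≤ 1) (hρ : 0 < ρ) (hρ1 : ρ ≤ 1) :
    ((1 - ρ : ℝ) * starRingEnd ℂ ζ) * z ≠ 1 := by
  intro h
  have := den_ge hζ hz hρ.le hρ1
  rw [h] at this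
  simp at this
  linarith

lemma diff_ker {ρ : ℝ} {ζ z : ℂ} (hζ : ‖ζ‖ = 1) (hz : ‖z‖ ≤ 1) (hρ : 0 < ρ) (hρ1 : ρ ≤ 1)
    (hne : z ≠ ζ) : DifferentiableAt ℂ (ker ρ ζ) z := by
  unfold ker
  exact (diff_q (conj_mul_ne_one hζ hne)).add (diff_q (mul_ne_one_of hζ hz hρ hρ1))

/-! ## The function `W` -/

/-- data of the construction -/
structure Config (ι : Type) where
  ζ : ι → ℂ
  a : ι → ℝ
  ρ : ι → ℝ
  hζ : ∀ i, ‖ζ i‖ = 1
  hζ1 : ∀ i, ζ i ≠ 1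
  ha : ∀ i, 0 < a i
  hρ : ∀ i, 0 < ρ i
  hρ1 : ∀ i, ρ i ≤ 1
  hsum : Summable a
  hlim : Tendsto ζ cofinite (𝓝 1)
  hsep : ∀ i, ∃ c > 0, ∀ j, j ≠ i → c ≤ ‖ζ i - ζ j‖

namespace Config

variable {ι : Type} (D : Config ι)

/-- the exceptional set -/
def E : Set ℂ := insert 1 (range D.ζ)

/-- the terms of the series -/
noncomputable def term (i : ι) (z : ℂ) : ℂ := D.a i * ker (D.ρ i) (D.ζ i) z

/-- the function `W` -/
noncomputable def W (z : ℂ) : ℂ := q 1 z + ∑' i, D.term i z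

lemma isClosed_E : IsClosed D.E :=
  (D.hlim.isCompact_insert_range_of_cofinite).isClosed

lemma E_subset : D.E ⊆ sphere 0 1 := by
  intro z hz
  rcases hz with rfl | ⟨i, rfl⟩
  · simp
  · simp [D.hζ i]

lemma dist_E {z : ℂ} (hz : z ∉ D.E) : ∃ η > 0, η ≤ ‖1 - z‖ ∧ ∀ i, η ≤ ‖D.ζ i - z‖ := by
  have h1 : D.Eᶜ ∈ 𝓝 z := D.isClosed_E.isOpen_compl.mem_nhds hz
  obtain ⟨η, hη, hball⟩ := Metric.mem_nhds_iff.mp h1
  refine ⟨η, hη, ?_, ?_⟩
  · by_contra hcon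
    push Not at hcon
    have : (1:ℂ) ∈ ball z η := by rw [mem_ball_iff_norm]; exact hcon
    exact hball this (mem_insert _ _)
  · intro i
    by_contra hcon
    push Not at hcon
    have : D.ζ i ∈ ball z η := by rw [mem_ball_iff_norm]; exact hcon
    exact hball this (mem_insert_of_mem _ ⟨i, rfl⟩)

lemma ne_of_notMem {z : ℂ} (hz : z ∉ D.E) : z ≠ 1 ∧ ∀ i, z ≠ D.ζ i := by
  constructor
  · rintro rfl; exact hz (mem_insert _ _)
  · rintro i rfl; exact hz (mem_insert_of_mem _ ⟨i, rfl⟩)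

lemma norm_term_le {i : ι} {z : ℂ} (hz : ‖z‖ ≤ 1) (hne : z ≠ D.ζ i) :
    ‖D.term i z‖ ≤ D.a i * (3 / ‖D.ζ i - z‖) := by
  unfold term
  rw [norm_mul, norm_real, Real.norm_eq_abs, abs_of_pos (D.ha i)]
  exact mul_le_mul_of_nonneg_left (norm_ker_le (D.hζ i) hz (D.hρ i).le (D.hρ1 i) hne) (D.ha i).le

lemma summable_div {z : ℂ} (hz : z ∉ D.E) : Summable (fun i => D.a i / ‖D.ζ i - z‖) := by
  obtain ⟨η, hη, -, h⟩ := D.dist_E hz
  apply Summable.of_nonneg_of_le (fun i => div_nonneg (D.ha i).le (norm_nonneg _)) _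
    (D.hsum.mul_right (1 / η))
  intro i
  rw [div_eq_mul_one_div]
  exact mul_le_mul_of_nonneg_left (one_div_le_one_div_of_le hη (h i)) (D.ha i).le

lemma summable_div_sq {z : ℂ} (hz : z ∉ D.E) :
    Summable (fun i => D.a i / ‖D.ζ i - z‖ ^ 2) := by
  obtain ⟨η, hη, -, h⟩ := D.dist_E hz
  apply Summable.of_nonneg_of_le (fun i => div_nonneg (D.ha i).le (by positivity)) _
    (D.hsum.mul_right (1 / η ^ 2))
  intro i
  rw [div_eq_mul_one_div]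
  apply mul_le_mul_of_nonneg_left _ (D.ha i).le
  apply one_div_le_one_div_of_le (by positivity)
  have := h i
  gcongr

lemma summable_term {z : ℂ} (hz : ‖z‖ ≤ 1) (hE : z ∉ D.E) : Summable (fun i => D.term i z) := by
  apply Summable.of_norm_bounded ((D.summable_div hE).mul_left 3)
  intro i
  refine (D.norm_term_le hz ((D.ne_of_notMem hE).2 i)).trans (le_of_eq ?_)
  ring

lemma re_term_pos {i : ι} {z : ℂ} (hz : ‖z‖ ≤ 1) (hne : z ≠ D.ζ i) : 0 < (D.term i z).re := by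
  unfold term
  rw [re_ofReal_mul]
  exact mul_pos (D.ha i) (re_ker_pos (D.hζ i) hz (D.hρ i) (D.hρ1 i) hne)

lemma re_q_one {z : ℂ} (hz : ‖z‖ ≤ 1) (h1 : z ≠ 1) : 1 / 2 ≤ (q 1 z).re :=
  re_q_ge_half (by rwa [one_mul]) (by rwa [one_mul])

lemma re_W_ge {z : ℂ} (hz : ‖z‖ ≤ 1) (hE : z ∉ D.E) (i : ι) :
    1 / 2 + (D.term i z).re ≤ (D.W z).re := by
  unfold W
  have hs := D.summable_term hz hE
  rw [add_re, Complex.re_tsum hs]
  have h1 := re_q_one hz (D.ne_of_notMem hE).1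
  have h2 : (D.term i z).re ≤ ∑' j, (D.term j z).re := by
    have hsr : Summable (fun j => (D.term j z).re) := (Complex.hasSum_re hs.hasSum).summable
    exact hsr.le_tsum i (fun j _ => (D.re_term_pos hz ((D.ne_of_notMem hE).2 j)).le)
  linarith

lemma half_le_re_W {z : ℂ} (hz : ‖z‖ ≤ 1) (hE : z ∉ D.E) : 1 / 2 ≤ (D.W z).re := by
  unfold W
  have hs := D.summable_term hz hE
  rw [add_re, Complex.re_tsum hs]
  have h1 := re_q_one hz (D.ne_of_notMem hE).1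
  have h2 : 0 ≤ ∑' j, (D.term j z).re :=
    tsum_nonneg (fun j => (D.re_term_pos hz ((D.ne_of_notMem hE).2 j)).le)
  linarith

lemma half_le_norm_W {z : ℂ} (hz : ‖z‖ ≤ 1) (hE : z ∉ D.E) : 1 / 2 ≤ ‖D.W z‖ :=
  (D.half_le_re_W hz hE).trans (re_le_norm _)

lemma W_ne_zero {z : ℂ} (hz : ‖z‖ ≤ 1) (hE : z ∉ D.E) : D.W z ≠ 0 := by
  intro h
  have := D.half_le_norm_W hz hE
  rw [h, norm_zero] at this
  linarith

lemma ball_notMem {z : ℂ} (hz : z ∈ ball (0:ℂ) 1) : z ∉ D.E := by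
  intro h
  have := D.E_subset h
  rw [mem_sphere_zero_iff_norm] at this
  rw [mem_ball_zero_iff] at hz
  linarith

lemma diff_term {i : ι} {z : ℂ} (hz : ‖z‖ ≤ 1) (hne : z ≠ D.ζ i) :
    DifferentiableAt ℂ (D.term i) z := by
  unfold term
  exact (diff_ker (D.hζ i) hz (D.hρ i) (D.hρ1 i) hne).const_mul _

lemma cont_W {z : ℂ} (hz : ‖z‖ ≤ 1) (hE : z ∉ D.E) :
    ContinuousWithinAt D.W (closedBall 0 1) z := by
  obtain ⟨η, hη, h1, h⟩ := D.dist_E hE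
  have hs : ContinuousOn (fun w => ∑' i, D.term i w) (closedBall 0 1 ∩ ball z (η / 2)) := by
    apply continuousOn_tsum (u := fun i => D.a i * (3 / (η / 2))) _ (D.hsum.mul_right _)
    · intro i w hw
      have hw1 : ‖w‖ ≤ 1 := by simpa using hw.1
      have hw2 : ‖w - z‖ < η / 2 := by simpa [dist_eq_norm] using hw.2
      have h3 : η / 2 ≤ ‖D.ζ i - w‖ := by
        have h4 := h i
        have h5 : ‖D.ζ i - z‖ ≤ ‖D.ζ i - w‖ + ‖w - z‖ := norm_sub_le_norm_sub_add_norm_sub _ _ _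
        linarith
      refine (D.norm_term_le hw1 ?_).trans ?_
      · rintro rfl
        simp at h3
        linarith
      · apply mul_le_mul_of_nonneg_left _ (D.ha i).le
        gcongr
    · intro i w hw
      have hw1 : ‖w‖ ≤ 1 := by simpa using hw.1
      have hw2 : ‖w - z‖ < η / 2 := by simpa [dist_eq_norm] using hw.2
      apply (D.diff_term hw1 ?_).continuousAt.continuousWithinAt
      rintro rfl
      have := h i
      rw [← norm_neg, neg_sub] at hw2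
      rw [norm_sub_rev] at this
      rw [← norm_neg, neg_sub] at this
      rw [norm_sub_rev] at hw2
      linarith
  have hmem : z ∈ closedBall (0:ℂ) 1 ∩ ball z (η / 2) := ⟨by simpa using hz, by simp [hη]⟩
  have h2 : ContinuousWithinAt (fun w => ∑' i, D.term i w) (closedBall 0 1) z := by
    apply (hs z hmem).mono_of_mem_nhdsWithin
    exact inter_mem self_mem_nhdsWithin (mem_nhdsWithin_of_mem_nhds (ball_mem_nhds z (by positivity)))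
  unfold W
  apply ContinuousWithinAt.add _ h2
  apply (diff_q _).continuousAt.continuousWithinAt
  rw [one_mul]
  exact (D.ne_of_notMem hE).1

lemma diff_W : DifferentiableOn ℂ D.W (ball 0 1) := by
  intro z hz
  have hz1 : ‖z‖ < 1 := by simpa using hz
  have hE := D.ball_notMem hz
  obtain ⟨η, hη, h1, h⟩ := D.dist_E hE
  have hU : IsOpen (ball (0:ℂ) 1 ∩ ball z (η / 2)) := isOpen_ball.inter isOpen_ball
  have hs : DifferentiableOn ℂ (fun w => ∑' i, D.term i w) (ball 0 1 ∩ ball z (η / 2)) := by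
    apply differentiableOn_tsum_of_summable_norm (u := fun i => D.a i * (3 / (η / 2)))
      (D.hsum.mul_right _) _ hU
    · intro i w hw
      have hw1 : ‖w‖ < 1 := by simpa using hw.1
      have hw2 : ‖w - z‖ < η / 2 := by simpa [dist_eq_norm] using hw.2
      have h3 : η / 2 ≤ ‖D.ζ i - w‖ := by
        have h4 := h i
        have h5 : ‖D.ζ i - z‖ ≤ ‖D.ζ i - w‖ + ‖w - z‖ := norm_sub_le_norm_sub_add_norm_sub _ _ _
        linarith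
      refine (D.norm_term_le hw1.le ?_).trans ?_
      · rintro rfl
        simp at h3
        linarith
      · apply mul_le_mul_of_nonneg_left _ (D.ha i).le
        gcongr
    · intro i w hw
      have hw1 : ‖w‖ < 1 := by simpa using hw.1
      apply (D.diff_term hw1.le ?_).differentiableWithinAt
      rintro rfl
      rw [D.hζ i] at hw1
      exact lt_irrefl _ hw1
  have hmem : z ∈ ball (0:ℂ) 1 ∩ ball z (η / 2) := ⟨hz, by simp [hη]⟩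
  have h2 : DifferentiableAt ℂ (fun w => ∑' i, D.term i w) z :=
    hs.differentiableAt (hU.mem_nhds hmem)
  unfold W
  apply DifferentiableAt.differentiableWithinAt
  apply DifferentiableAt.add _ h2
  apply diff_q
  rw [one_mul]
  exact (D.ne_of_notMem hE).1

end Config

namespace Config

variable {ι : Type} (D : Config ι)

/-- the quantity `A(x)` -/
noncomputable def AA (x : ℂ) : ℝ := 1 / ‖1 - x‖ ^ 2 + 5 * ∑' i, D.a i / ‖D.ζ i - x‖ ^ 2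

lemma amgm {u v X Y : ℝ} (hu : 0 < u) (hv : 0 < v) (hX : 0 < X) (hY : 0 < Y) :
    1 / (u * v) / (X * Y) ≤ (1 / u ^ 2 / X ^ 2 + 1 / v ^ 2 / Y ^ 2) / 2 := by
  have h1 : 1 / (u * v) / (X * Y) = (1 / (u * X)) * (1 / (v * Y)) := by field_simp
  have h2 : 1 / u ^ 2 / X ^ 2 = (1 / (u * X)) ^ 2 := by field_simp
  have h3 : 1 / v ^ 2 / Y ^ 2 = (1 / (v * Y)) ^ 2 := by field_simp
  rw [h1, h2, h3]
  nlinarith [sq_nonneg (1 / (u * X) - 1 / (v * Y))]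

lemma norm_W_sub_le {x y : ℂ} (hx : ‖x‖ ≤ 1) (hy : ‖y‖ ≤ 1) (hxE : x ∉ D.E) (hyE : y ∉ D.E) :
    ‖D.W x - D.W y‖ ≤ ‖x - y‖ * (1 / (‖1 - x‖ * ‖1 - y‖) +
      5 * ∑' i, D.a i * (1 / (‖D.ζ i - x‖ * ‖D.ζ i - y‖))) ∧
      Summable (fun i => D.a i * (1 / (‖D.ζ i - x‖ * ‖D.ζ i - y‖))) := by
  have hx1 := (D.ne_of_notMem hxE).1
  have hy1 := (D.ne_of_notMem hyE).1
  have hxpos : 0 < ‖1 - x‖ := norm_pos_iff.mpr (sub_ne_zero.mpr hx1.symm)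
  have hypos : 0 < ‖1 - y‖ := norm_pos_iff.mpr (sub_ne_zero.mpr hy1.symm)
  have hsx := D.summable_term hx hxE
  have hsy := D.summable_term hy hyE
  have hsum : Summable (fun i => D.a i * (1 / (‖D.ζ i - x‖ * ‖D.ζ i - y‖))) := by
    obtain ⟨η, hη, -, h⟩ := D.dist_E hxE
    obtain ⟨η', hη', -, h'⟩ := D.dist_E hyE
    apply Summable.of_nonneg_of_le _ _ (D.hsum.mul_right (1 / (η * η')))
    · intro i; exact mul_nonneg (D.ha i).le (by positivity)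
    · intro i
      apply mul_le_mul_of_nonneg_left _ (D.ha i).le
      apply one_div_le_one_div_of_le (by positivity)
      exact mul_le_mul (h i) (h' i) hη'.le (norm_nonneg _)
  refine ⟨?_, hsum⟩
  have e1 : D.W x - D.W y = (q 1 x - q 1 y) + ∑' i, (D.term i x - D.term i y) := by
    unfold W
    rw [hsx.tsum_sub hsy]
    ring
  have e2 : ‖q 1 x - q 1 y‖ = ‖x - y‖ * (1 / (‖1 - x‖ * ‖1 - y‖)) := by
    have h1 : (1 - x) ≠ 0 := sub_ne_zero.mpr hx1.symm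
    have h2 : (1 - y) ≠ 0 := sub_ne_zero.mpr hy1.symm
    have h3 : q 1 x - q 1 y = (x - y) / ((1 - x) * (1 - y)) := by
      unfold q
      rw [one_mul, one_mul]
      field_simp
      ring
    rw [h3, norm_div, norm_mul]
    field_simp
  have e3 : ∀ i, ‖D.term i x - D.term i y‖ ≤
      5 * ‖x - y‖ * (D.a i * (1 / (‖D.ζ i - x‖ * ‖D.ζ i - y‖))) := by
    intro i
    unfold term
    rw [← mul_sub, norm_mul, norm_real, Real.norm_eq_abs, abs_of_pos (D.ha i)]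
    have h1 := norm_ker_sub_le (D.hζ i) hx hy (D.hρ i) (D.hρ1 i) ((D.ne_of_notMem hxE).2 i)
      ((D.ne_of_notMem hyE).2 i)
    calc D.a i * ‖ker (D.ρ i) (D.ζ i) x - ker (D.ρ i) (D.ζ i) y‖
        ≤ D.a i * (5 * ‖x - y‖ / (‖D.ζ i - x‖ * ‖D.ζ i - y‖)) :=
          mul_le_mul_of_nonneg_left h1 (D.ha i).le
      _ = 5 * ‖x - y‖ * (D.a i * (1 / (‖D.ζ i - x‖ * ‖D.ζ i - y‖))) := by ring
  have e4 : ‖∑' i, (D.term i x - D.term i y)‖ ≤
      5 * ‖x - y‖ * ∑' i, (D.a i * (1 / (‖D.ζ i - x‖ * ‖D.ζ i - y‖))) := by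
    rw [← tsum_mul_left]
    exact tsum_of_norm_bounded (hsum.mul_left _).hasSum e3
  rw [e1]
  calc ‖q 1 x - q 1 y + ∑' i, (D.term i x - D.term i y)‖
      ≤ ‖q 1 x - q 1 y‖ + ‖∑' i, (D.term i x - D.term i y)‖ := norm_add_le _ _
    _ ≤ ‖x - y‖ * (1 / (‖1 - x‖ * ‖1 - y‖)) +
        5 * ‖x - y‖ * ∑' i, (D.a i * (1 / (‖D.ζ i - x‖ * ‖D.ζ i - y‖))) := by
          rw [e2]; gcongr
    _ = _ := by ring

lemma inv_sub_le {x y : ℂ} (hx : ‖x‖ ≤ 1) (hy : ‖y‖ ≤ 1) (hxE : x ∉ D.E) (hyE : y ∉ D.E) :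
    ‖1 / D.W x - 1 / D.W y‖ ≤ ‖x - y‖ * ((D.AA x / ‖D.W x‖ ^ 2 + D.AA y / ‖D.W y‖ ^ 2) / 2) := by
  have hWx := D.W_ne_zero hx hxE
  have hWy := D.W_ne_zero hy hyE
  have hX : 0 < ‖D.W x‖ := norm_pos_iff.mpr hWx
  have hY : 0 < ‖D.W y‖ := norm_pos_iff.mpr hWy
  have hx1 := (D.ne_of_notMem hxE).1
  have hy1 := (D.ne_of_notMem hyE).1
  have hxpos : 0 < ‖1 - x‖ := norm_pos_iff.mpr (sub_ne_zero.mpr hx1.symm)
  have hypos : 0 < ‖1 - y‖ := norm_pos_iff.mpr (sub_ne_zero.mpr hy1.symm)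
  obtain ⟨h1, hsum⟩ := D.norm_W_sub_le hx hy hxE hyE
  have h2 : ‖1 / D.W x - 1 / D.W y‖ = ‖D.W x - D.W y‖ / (‖D.W x‖ * ‖D.W y‖) := by
    have : 1 / D.W x - 1 / D.W y = -(D.W x - D.W y) / (D.W x * D.W y) := by
      field_simp; ring
    rw [this, norm_div, norm_neg, norm_mul]
  rw [h2]
  have hS : (1 / (‖1 - x‖ * ‖1 - y‖) +
      5 * ∑' i, D.a i * (1 / (‖D.ζ i - x‖ * ‖D.ζ i - y‖))) / (‖D.W x‖ * ‖D.W y‖) ≤
      (D.AA x / ‖D.W x‖ ^ 2 + D.AA y / ‖D.W y‖ ^ 2) / 2 := by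
    have h3 := amgm hxpos hypos hX hY
    have h4 : (∑' i, D.a i * (1 / (‖D.ζ i - x‖ * ‖D.ζ i - y‖))) / (‖D.W x‖ * ‖D.W y‖) ≤
        ((∑' i, D.a i / ‖D.ζ i - x‖ ^ 2) / ‖D.W x‖ ^ 2 +
          (∑' i, D.a i / ‖D.ζ i - y‖ ^ 2) / ‖D.W y‖ ^ 2) / 2 := by
      have hsx := (D.summable_div_sq hxE).div_const (‖D.W x‖ ^ 2)
      have hsy := (D.summable_div_sq hyE).div_const (‖D.W y‖ ^ 2)
      rw [← tsum_div_const, ← tsum_div_const, ← tsum_div_const, ← hsx.tsum_add hsy,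
        ← tsum_div_const]
      apply Summable.tsum_le_tsum _ (hsum.div_const _) ((hsx.add hsy).div_const _)
      intro i
      have hu : 0 < ‖D.ζ i - x‖ :=
        norm_pos_iff.mpr (sub_ne_zero.mpr ((D.ne_of_notMem hxE).2 i).symm)
      have hv : 0 < ‖D.ζ i - y‖ :=
        norm_pos_iff.mpr (sub_ne_zero.mpr ((D.ne_of_notMem hyE).2 i).symm)
      have h5 := mul_le_mul_of_nonneg_left (amgm hu hv hX hY) (D.ha i).le
      calc D.a i * (1 / (‖D.ζ i - x‖ * ‖D.ζ i - y‖)) / (‖D.W x‖ * ‖D.W y‖)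
          = D.a i * (1 / (‖D.ζ i - x‖ * ‖D.ζ i - y‖) / (‖D.W x‖ * ‖D.W y‖)) := by ring
        _ ≤ D.a i * ((1 / ‖D.ζ i - x‖ ^ 2 / ‖D.W x‖ ^ 2 +
            1 / ‖D.ζ i - y‖ ^ 2 / ‖D.W y‖ ^ 2) / 2) := h5
        _ = _ := by ring
    unfold AA
    calc _ = 1 / (‖1 - x‖ * ‖1 - y‖) / (‖D.W x‖ * ‖D.W y‖) +
        5 * ((∑' i, D.a i * (1 / (‖D.ζ i - x‖ * ‖D.ζ i - y‖))) / (‖D.W x‖ * ‖D.W y‖)) := by ring
      _ ≤ (1 / ‖1 - x‖ ^ 2 / ‖D.W x‖ ^ 2 + 1 / ‖1 - y‖ ^ 2 / ‖D.W y‖ ^ 2) / 2 +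
        5 * (((∑' i, D.a i / ‖D.ζ i - x‖ ^ 2) / ‖D.W x‖ ^ 2 +
          (∑' i, D.a i / ‖D.ζ i - y‖ ^ 2) / ‖D.W y‖ ^ 2) / 2) := by
            linarith
      _ = _ := by ring
  calc ‖D.W x - D.W y‖ / (‖D.W x‖ * ‖D.W y‖)
      ≤ (‖x - y‖ * (1 / (‖1 - x‖ * ‖1 - y‖) +
      5 * ∑' i, D.a i * (1 / (‖D.ζ i - x‖ * ‖D.ζ i - y‖)))) / (‖D.W x‖ * ‖D.W y‖) := by gcongr
    _ = ‖x - y‖ * ((1 / (‖1 - x‖ * ‖1 - y‖) +
      5 * ∑' i, D.a i * (1 / (‖D.ζ i - x‖ * ‖D.ζ i - y‖))) / (‖D.W x‖ * ‖D.W y‖)) := by ring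
    _ ≤ _ := by gcongr

/-- The two pointwise bounds. -/
def Good (α c C : ℝ) : Prop :=
  ∀ x : ℂ, ‖x‖ = 1 → x ∉ D.E → c / ‖1 - x‖ ≤ ‖D.W x‖ ∧
    D.AA x / ‖D.W x‖ ^ 2 ≤ C * ‖1 - x‖ ^ (1 - 1 / α)

/-- Lipschitz bound away from `E`, ordered case. -/
lemma lip_aux {α c C : ℝ} (hα0 : 0 < α) (hα1 : α < 1) (hc : 0 < c) (hC : 0 ≤ C)
    (hG : D.Good α c C) {x y : ℂ} (hx : ‖x‖ = 1) (hy : ‖y‖ = 1) (hxE : x ∉ D.E) (hyE : y ∉ D.E)
    (hxy : ‖1 - x‖ ≤ ‖1 - y‖) :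
    ‖1 / D.W x - 1 / D.W y‖ ≤ (4 / c + C) * ‖x - y‖ ^ α := by
  obtain ⟨hP1x, hP2x⟩ := hG x hx hxE
  obtain ⟨hP1y, hP2y⟩ := hG y hy hyE
  have hx1 := (D.ne_of_notMem hxE).1
  have hy1 := (D.ne_of_notMem hyE).1
  have hxpos : 0 < ‖1 - x‖ := norm_pos_iff.mpr (sub_ne_zero.mpr hx1.symm)
  have hypos : 0 < ‖1 - y‖ := norm_pos_iff.mpr (sub_ne_zero.mpr hy1.symm)
  set X := ‖1 - x‖ with hX
  set Y := ‖1 - y‖ with hY
  set δ := ‖x - y‖ with hδ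
  have hδ0 : 0 ≤ δ := norm_nonneg _
  have hδ2 : δ ≤ 2 := by
    calc δ ≤ ‖x‖ + ‖y‖ := norm_sub_le _ _
      _ = 2 := by rw [hx, hy]; norm_num
  have hYX : Y ≤ X + δ := by
    have : (1:ℂ) - y = (1 - x) + (x - y) := by ring
    rw [hY, this]
    exact norm_add_le _ _
  rcases le_or_gt (X ^ (1 / α)) δ with hcase | hcase
  · -- far case
    have hδpos : 0 < δ := lt_of_lt_of_le (Real.rpow_pos_of_pos hxpos _) hcase
    have h1 : X ≤ δ ^ α := by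
      have h2 := Real.rpow_le_rpow (by positivity) hcase hα0.le
      rw [← Real.rpow_mul hxpos.le] at h2
      have : 1 / α * α = 1 := by field_simp
      rw [this, Real.rpow_one] at h2
      exact h2
    have h3 : δ ≤ 2 * δ ^ α := by
      have h4 : δ = δ ^ α * δ ^ (1 - α) := by
        rw [← Real.rpow_add hδpos]; simp
      have h5 : δ ^ (1 - α) ≤ 2 := by
        calc δ ^ (1 - α) ≤ 2 ^ (1 - α) := Real.rpow_le_rpow hδ0 hδ2 (by linarith)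
          _ ≤ 2 ^ (1:ℝ) := Real.rpow_le_rpow_of_exponent_le (by norm_num) (by linarith)
          _ = 2 := Real.rpow_one 2
      have h6 : 0 < δ ^ α := Real.rpow_pos_of_pos hδpos _
      nlinarith
    have hWx : ‖1 / D.W x‖ ≤ X / c := by
      rw [norm_div, norm_one, div_le_div_iff₀ (norm_pos_iff.mpr (D.W_ne_zero hx.le hxE)) hc]
      rw [div_le_iff₀ hxpos] at hP1x
      linarith
    have hWy : ‖1 / D.W y‖ ≤ Y / c := by
      rw [norm_div, norm_one, div_le_div_iff₀ (norm_pos_iff.mpr (D.W_ne_zero hy.le hyE)) hc]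
      rw [div_le_iff₀ hypos] at hP1y
      linarith
    have h7 : ‖1 / D.W x - 1 / D.W y‖ ≤ (4 * δ ^ α) / c := by
      calc ‖1 / D.W x - 1 / D.W y‖ ≤ ‖1 / D.W x‖ + ‖1 / D.W y‖ := norm_sub_le _ _
        _ ≤ X / c + Y / c := add_le_add hWx hWy
        _ = (X + Y) / c := by ring
        _ ≤ (4 * δ ^ α) / c := by
            gcongr
            linarith
    have h8 : 0 ≤ C * δ ^ α := by positivity
    calc ‖1 / D.W x - 1 / D.W y‖ ≤ (4 * δ ^ α) / c := h7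
      _ ≤ (4 * δ ^ α) / c + C * δ ^ α := by linarith
      _ = (4 / c + C) * δ ^ α := by ring
  · -- near case
    have h1 := D.inv_sub_le hx.le hy.le hxE hyE
    have hexp : 1 - 1 / α ≤ 0 := by
      have : 1 ≤ 1 / α := by rw [le_div_iff₀ hα0]; linarith
      linarith
    have h2 : Y ^ (1 - 1 / α) ≤ X ^ (1 - 1 / α) :=
      Real.rpow_le_rpow_of_nonpos hxpos hxy hexp
    have h3 : (D.AA x / ‖D.W x‖ ^ 2 + D.AA y / ‖D.W y‖ ^ 2) / 2 ≤ C * X ^ (1 - 1 / α) := by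
      have : C * Y ^ (1 - 1 / α) ≤ C * X ^ (1 - 1 / α) := by gcongr
      linarith
    rcases eq_or_lt_of_le hδ0 with h0 | hδpos
    · rw [← hδ, ← h0, zero_mul] at h1
      rw [← h0, Real.zero_rpow hα0.ne', mul_zero]
      exact h1
    have h4 : δ * X ^ (1 - 1 / α) ≤ δ ^ α := by
      have h5 : δ = δ ^ α * δ ^ (1 - α) := by
        rw [← Real.rpow_add hδpos]; simp
      have h6 : δ ^ (1 - α) ≤ (X ^ (1 / α)) ^ (1 - α) :=
        Real.rpow_le_rpow hδ0 hcase.le (by linarith)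
      have h7 : (X ^ (1 / α)) ^ (1 - α) * X ^ (1 - 1 / α) = 1 := by
        rw [← Real.rpow_mul hxpos.le, ← Real.rpow_add hxpos]
        have : 1 / α * (1 - α) + (1 - 1 / α) = 0 := by field_simp; ring
        rw [this, Real.rpow_zero]
      have h8 : 0 < X ^ (1 - 1 / α) := Real.rpow_pos_of_pos hxpos _
      have h9 : 0 < δ ^ α := Real.rpow_pos_of_pos hδpos _
      calc δ * X ^ (1 - 1 / α) = δ ^ α * (δ ^ (1 - α) * X ^ (1 - 1 / α)) := by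
            rw [← mul_assoc, ← h5]
        _ ≤ δ ^ α * ((X ^ (1 / α)) ^ (1 - α) * X ^ (1 - 1 / α)) := by gcongr
        _ = δ ^ α := by rw [h7, mul_one]
    calc ‖1 / D.W x - 1 / D.W y‖ ≤ δ * ((D.AA x / ‖D.W x‖ ^ 2 + D.AA y / ‖D.W y‖ ^ 2) / 2) := h1
      _ ≤ δ * (C * X ^ (1 - 1 / α)) := by gcongr
      _ = C * (δ * X ^ (1 - 1 / α)) := by ring
      _ ≤ C * δ ^ α := by gcongr
      _ ≤ (4 / c + C) * δ ^ α := by
          gcongr
          have : 0 < 4 / c := by positivity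
          linarith

lemma lip {α c C : ℝ} (hα0 : 0 < α) (hα1 : α < 1) (hc : 0 < c) (hC : 0 ≤ C)
    (hG : D.Good α c C) {x y : ℂ} (hx : ‖x‖ = 1) (hy : ‖y‖ = 1) (hxE : x ∉ D.E)
    (hyE : y ∉ D.E) :
    ‖1 / D.W x - 1 / D.W y‖ ≤ (4 / c + C) * ‖x - y‖ ^ α := by
  rcases le_total ‖1 - x‖ ‖1 - y‖ with h | h
  · exact D.lip_aux hα0 hα1 hc hC hG hx hy hxE hyE h
  · rw [norm_sub_rev, norm_sub_rev x y]
    exact D.lip_aux hα0 hα1 hc hC hG hy hx hyE hxE h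

end Config

namespace Config

variable {ι : Type} (D : Config ι)

lemma countable_E [Countable ι] : D.E.Countable := (countable_range D.ζ).insert 1

lemma ae_notMem [Countable ι] :
    ∀ᵐ t ∂(volume.restrict (Ioc 0 (2 * Real.pi))), circleMap 0 1 t ∉ D.E := by
  have h1 : (circleMap 0 1 ⁻¹' D.E).Countable :=
    D.countable_E.preimage_circleMap 0 one_ne_zero
  have h2 : volume (circleMap 0 1 ⁻¹' D.E) = 0 := h1.measure_zero volume
  exact ae_restrict_of_ae (measure_eq_zero_iff_ae_notMem.mp h2)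

lemma radial_W {x : ℂ} (hx : ‖x‖ = 1) (hE : x ∉ D.E) :
    Tendsto (fun r : ℝ => D.W (r * x)) (𝓝[<] 1) (𝓝 (D.W x)) := by
  have h1 := D.cont_W hx.le hE
  have h2 : Tendsto (fun r : ℝ => (r : ℂ) * x) (𝓝[<] 1) (𝓝[closedBall 0 1] x) := by
    rw [tendsto_nhdsWithin_iff]
    constructor
    · have h3 : Continuous (fun r : ℝ => (r : ℂ) * x) := by fun_prop
      have h4 := h3.tendsto 1
      simp only [ofReal_one, one_mul] at h4
      exact h4.mono_left nhdsWithin_le_nhds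
    · have h4 : Ioo (0:ℝ) 1 ∈ 𝓝[<] (1:ℝ) := Ioo_mem_nhdsLT (by norm_num)
      filter_upwards [h4] with r hr
      rw [mem_closedBall_zero_iff, norm_mul, norm_real, hx, mul_one, Real.norm_eq_abs,
        abs_of_pos hr.1]
      exact hr.2.le
  exact h1.tendsto.comp h2

/-- Inside the disc, `|1/W(z)| ≤ |1-z|/c`. -/
lemma inv_le_ball [Countable ι] {α c C : ℝ} (hc : 0 < c) (hG : D.Good α c C) {z : ℂ}
    (hz : z ∈ ball (0:ℂ) 1) : ‖1 / D.W z‖ ≤ ‖1 - z‖ / c := by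
  have hz1 : ‖z‖ < 1 := by simpa using hz
  have key : ∀ η : ℝ, 0 < η → ‖1 / D.W z‖ ≤ (1 / c) * ‖(1 + η - z : ℂ)‖ := by
    intro η hη
    have hden : ∀ w : ℂ, ‖w‖ ≤ 1 → (1 + η - w : ℂ) ≠ 0 := by
      intro w hw h
      have h1 : ((1 + η - w : ℂ)).re = 0 := by rw [h]; simp
      have h2 : w.re ≤ 1 := (re_le_norm w).trans hw
      simp at h1
      linarith
    have hden_eta : ∀ w : ℂ, ‖w‖ ≤ 1 → η ≤ ‖(1 + η - w : ℂ)‖ := by
      intro w hw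
      have h2 : w.re ≤ 1 := (re_le_norm w).trans hw
      have h3 : ((1 + η - w : ℂ)).re ≤ ‖(1 + η - w : ℂ)‖ := re_le_norm _
      simp at h3
      linarith
    have hden_ge : ∀ w : ℂ, ‖w‖ ≤ 1 → ‖1 - w‖ ≤ ‖(1 + η - w : ℂ)‖ := by
      intro w hw
      have h2 : w.re ≤ 1 := (re_le_norm w).trans hw
      rw [← sq_le_sq₀ (norm_nonneg _) (norm_nonneg _), ← normSq_eq_norm_sq, ← normSq_eq_norm_sq,
        normSq_apply, normSq_apply]
      simp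
      nlinarith
    set B : ℂ → ℂ := fun w => 1 / D.W w / (1 + η - w) with hBdef
    have hB : DifferentiableOn ℂ B (ball 0 1) := by
      intro w hw
      have hw1 : ‖w‖ < 1 := by simpa using hw
      have hWw := D.diff_W.differentiableAt (isOpen_ball.mem_nhds hw)
      apply DifferentiableAt.differentiableWithinAt
      apply DifferentiableAt.div _ (by fun_prop) (hden w hw1.le)
      exact DifferentiableAt.div (by fun_prop) hWw (D.W_ne_zero hw1.le (D.ball_notMem hw))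
    have hBM : ∀ w ∈ ball (0:ℂ) 1, ‖B w‖ ≤ 2 / η := by
      intro w hw
      have hw1 : ‖w‖ < 1 := by simpa using hw
      have hW := D.half_le_norm_W hw1.le (D.ball_notMem hw)
      simp only [hBdef, norm_div, norm_one]
      calc 1 / ‖D.W w‖ / ‖(1 + η - w : ℂ)‖ ≤ 1 / (1 / 2) / η := by
            gcongr
            exact hden_eta w hw1.le
        _ = 2 / η := by norm_num
    have hBlim : ∀ᵐ t ∂(volume.restrict (Ioc 0 (2 * Real.pi))),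
        Tendsto (fun r : ℝ => B (r * circleMap 0 1 t)) (𝓝[<] 1)
          (𝓝 (B (circleMap 0 1 t))) := by
      filter_upwards [D.ae_notMem] with t ht
      have hn : ‖circleMap 0 1 t‖ = 1 := by simp
      have h1 := D.radial_W hn ht
      have h2 : Tendsto (fun r : ℝ => (1 + η - r * circleMap 0 1 t : ℂ)) (𝓝[<] 1)
          (𝓝 (1 + η - circleMap 0 1 t)) := by
        have h3 : Continuous (fun r : ℝ => (1 + η - r * circleMap 0 1 t : ℂ)) := by fun_prop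
        have h4 := h3.tendsto 1
        simp only [ofReal_one, one_mul] at h4
        exact h4.mono_left nhdsWithin_le_nhds
      exact (tendsto_const_nhds.div h1 (D.W_ne_zero hn.le ht)).div h2 (hden _ hn.le)
    have hBC : ∀ᵐ t ∂(volume.restrict (Ioc 0 (2 * Real.pi))), ‖B (circleMap 0 1 t)‖ ≤ 1 / c := by
      filter_upwards [D.ae_notMem] with t ht
      have hn : ‖circleMap 0 1 t‖ = 1 := by simp
      obtain ⟨hP1, -⟩ := hG _ hn ht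
      have hne := (D.ne_of_notMem ht).1
      have hpos : 0 < ‖1 - circleMap 0 1 t‖ := norm_pos_iff.mpr (sub_ne_zero.mpr hne.symm)
      have hWpos : 0 < ‖D.W (circleMap 0 1 t)‖ := norm_pos_iff.mpr (D.W_ne_zero hn.le ht)
      have hd := hden_ge _ hn.le
      have hdpos : 0 < ‖(1 + η - circleMap 0 1 t : ℂ)‖ := hpos.trans_le hd
      simp only [hBdef, norm_div, norm_one]
      rw [div_div, div_le_div_iff₀ (by positivity) hc, one_mul, one_mul]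
      rw [div_le_iff₀ hpos] at hP1
      calc c ≤ ‖D.W (circleMap 0 1 t)‖ * ‖1 - circleMap 0 1 t‖ := hP1
        _ ≤ ‖D.W (circleMap 0 1 t)‖ * ‖(1 + η - circleMap 0 1 t : ℂ)‖ := by gcongr
    have hBz := max_principle hB hBM hBlim hBC hz
    simp only [hBdef, norm_div] at hBz
    rw [div_le_iff₀ (norm_pos_iff.mpr (hden z hz1.le))] at hBz
    rw [norm_div]
    exact hBz
  have hlim : Tendsto (fun η : ℝ => (1 / c) * ‖(1 + η - z : ℂ)‖) (𝓝[>] 0)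
      (𝓝 ((1 / c) * ‖(1 + (0:ℝ) - z : ℂ)‖)) := by
    have hcont : Continuous (fun η : ℝ => (1 / c) * ‖(1 + η - z : ℂ)‖) := by fun_prop
    exact (hcont.tendsto 0).mono_left nhdsWithin_le_nhds
  have hle : ‖1 / D.W z‖ ≤ (1 / c) * ‖(1 + (0:ℝ) - z : ℂ)‖ := by
    apply ge_of_tendsto hlim
    filter_upwards [self_mem_nhdsWithin] with η hη
    exact key η hη
  simp only [ofReal_zero, add_zero] at hle
  calc ‖1 / D.W z‖ ≤ 1 / c * ‖1 - z‖ := hle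
    _ = ‖1 - z‖ / c := by ring

/-- Near a point `ζ i`, the function `1/W` is small. -/
lemma inv_le_near (i : ι) : ∃ δ > 0, ∀ z : ℂ, ‖z‖ ≤ 1 → z ∉ D.E → ‖z - D.ζ i‖ < δ →
    ‖1 / D.W z‖ ≤ 2 / D.a i * ‖z - D.ζ i‖ := by
  classical
  obtain ⟨c, hc, hsep⟩ := D.hsep i
  have h1pos : 0 < ‖1 - D.ζ i‖ := norm_pos_iff.mpr (sub_ne_zero.mpr (D.hζ1 i).symm)
  set M : ℝ := 2 / ‖1 - D.ζ i‖ + D.a i / D.ρ i + (∑' j, D.a j) * (3 / (c / 2)) + 1 with hM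
  have hsum0 : 0 ≤ ∑' j, D.a j := tsum_nonneg (fun j => (D.ha j).le)
  have hρ := D.hρ i
  have ha := D.ha i
  have hMpos : 0 < M := by positivity
  refine ⟨min (min (‖1 - D.ζ i‖ / 2) (c / 2)) (D.a i / (2 * M)), by positivity, ?_⟩
  intro z hz hzE hdist
  obtain ⟨⟨hd1, hd2⟩, hd3⟩ : (‖z - D.ζ i‖ < ‖1 - D.ζ i‖ / 2 ∧ ‖z - D.ζ i‖ < c / 2) ∧
      ‖z - D.ζ i‖ < D.a i / (2 * M) := by
    simpa [lt_min_iff] using hdist
  have hzne := (D.ne_of_notMem hzE).2 i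
  have hr : 0 < ‖z - D.ζ i‖ := norm_pos_iff.mpr (sub_ne_zero.mpr hzne)
  have hs := D.summable_term hz hzE
  have e1 : D.W z = q 1 z + (D.term i z + ∑' j, ite (j = i) 0 (D.term j z)) := by
    unfold W
    rw [hs.tsum_eq_add_tsum_ite i]
  have e2 : D.term i z = D.a i * q (starRingEnd ℂ (D.ζ i)) z +
      D.a i * q ((1 - D.ρ i : ℝ) * starRingEnd ℂ (D.ζ i)) z := by
    unfold term ker
    ring
  have b1 : ‖q 1 z‖ ≤ 2 / ‖1 - D.ζ i‖ := by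
    unfold q
    rw [one_mul, norm_div, norm_one]
    have h2 : ‖1 - D.ζ i‖ / 2 ≤ ‖1 - z‖ := by
      have h3 : ‖1 - D.ζ i‖ ≤ ‖1 - z‖ + ‖z - D.ζ i‖ := norm_sub_le_norm_sub_add_norm_sub _ _ _
      linarith
    calc 1 / ‖1 - z‖ ≤ 1 / (‖1 - D.ζ i‖ / 2) := one_div_le_one_div_of_le (by positivity) h2
      _ = 2 / ‖1 - D.ζ i‖ := by field_simp
  have b2 : ‖(D.a i : ℂ) * q ((1 - D.ρ i : ℝ) * starRingEnd ℂ (D.ζ i)) z‖ ≤ D.a i / D.ρ i := by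
    rw [norm_mul, norm_real, Real.norm_eq_abs, abs_of_pos ha, div_eq_mul_one_div]
    exact mul_le_mul_of_nonneg_left (norm_q2_le (D.hζ i) hz hρ (D.hρ1 i)) ha.le
  have b3 : ‖∑' j, ite (j = i) 0 (D.term j z)‖ ≤ (∑' j, D.a j) * (3 / (c / 2)) := by
    rw [← tsum_mul_right]
    apply tsum_of_norm_bounded (D.hsum.mul_right _).hasSum
    intro j
    by_cases hji : j = i
    · rw [if_pos hji, norm_zero]
      exact mul_nonneg (D.ha j).le (by positivity)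
    · rw [if_neg hji]
      refine (D.norm_term_le hz ((D.ne_of_notMem hzE).2 j)).trans ?_
      apply mul_le_mul_of_nonneg_left _ (D.ha j).le
      apply div_le_div_of_nonneg_left (by norm_num) (by positivity)
      have h3 := hsep j hji
      have h4 : ‖D.ζ i - D.ζ j‖ ≤ ‖D.ζ i - z‖ + ‖z - D.ζ j‖ :=
        norm_sub_le_norm_sub_add_norm_sub _ _ _
      rw [norm_sub_rev (D.ζ i) z, norm_sub_rev z (D.ζ j)] at h4
      linarith
  have b4 : ‖(D.a i : ℂ) * q (starRingEnd ℂ (D.ζ i)) z‖ = D.a i / ‖z - D.ζ i‖ := by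
    rw [norm_mul, norm_real, Real.norm_eq_abs, abs_of_pos ha, norm_q1 (D.hζ i), norm_sub_rev]
    ring
  have hW : D.a i / ‖z - D.ζ i‖ - M ≤ ‖D.W z‖ := by
    have e3 : (D.a i : ℂ) * q (starRingEnd ℂ (D.ζ i)) z = D.W z -
        (q 1 z + D.a i * q ((1 - D.ρ i : ℝ) * starRingEnd ℂ (D.ζ i)) z +
          ∑' j, ite (j = i) 0 (D.term j z)) := by
      rw [e1, e2]; ring
    have h5 : ‖(D.a i : ℂ) * q (starRingEnd ℂ (D.ζ i)) z‖ ≤ ‖D.W z‖ +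
        (‖q 1 z‖ + ‖(D.a i : ℂ) * q ((1 - D.ρ i : ℝ) * starRingEnd ℂ (D.ζ i)) z‖ +
          ‖∑' j, ite (j = i) 0 (D.term j z)‖) := by
      rw [e3]
      refine (norm_sub_le _ _).trans ?_
      gcongr
      exact norm_add₃_le
    rw [b4] at h5
    linarith
  have hM2 : 2 * M ≤ D.a i / ‖z - D.ζ i‖ := by
    rw [le_div_iff₀ hr]
    rw [lt_div_iff₀ (by positivity)] at hd3
    linarith
  have hW2 : D.a i / (2 * ‖z - D.ζ i‖) ≤ ‖D.W z‖ := by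
    have : D.a i / (2 * ‖z - D.ζ i‖) = (D.a i / ‖z - D.ζ i‖) / 2 := by field_simp
    rw [this]
    linarith
  rw [norm_div, norm_one]
  calc 1 / ‖D.W z‖ ≤ 1 / (D.a i / (2 * ‖z - D.ζ i‖)) :=
        one_div_le_one_div_of_le (by positivity) hW2
    _ = 2 / D.a i * ‖z - D.ζ i‖ := by field_simp

open Classical in
/-- the peak function -/
noncomputable def f (z : ℂ) : ℂ := if z ∈ D.E then 1 else 1 - 1 / D.W z

lemma f_of_mem {z : ℂ} (hz : z ∈ D.E) : D.f z = 1 := by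
  unfold f; rw [if_pos hz]

lemma f_of_notMem {z : ℂ} (hz : z ∉ D.E) : D.f z = 1 - 1 / D.W z := by
  unfold f; rw [if_neg hz]

lemma cont_f [Countable ι] {α c C : ℝ} (hc : 0 < c) (hG : D.Good α c C) :
    ContinuousOn D.f (closedBall 0 1) := by
  intro z₀ hz₀
  have hz₀1 : ‖z₀‖ ≤ 1 := by simpa using hz₀
  by_cases hE : z₀ ∈ D.E
  · -- Lipschitz-type bound near `z₀`
    obtain ⟨K, hK⟩ : ∃ K : ℝ, ∀ᶠ z in 𝓝[closedBall 0 1] z₀, ‖D.f z - 1‖ ≤ K * ‖z - z₀‖ := by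
      rcases hE with rfl | ⟨i, rfl⟩
      · refine ⟨1 / c, ?_⟩
        filter_upwards [self_mem_nhdsWithin] with z hz
        have hz1 : ‖z‖ ≤ 1 := by simpa using hz
        by_cases hzE : z ∈ D.E
        · rw [D.f_of_mem hzE, sub_self, norm_zero]; positivity
        · rw [D.f_of_notMem hzE]
          have h1 : (1 : ℂ) - 1 / D.W z - 1 = -(1 / D.W z) := by ring
          rw [h1, norm_neg]
          rcases lt_or_eq_of_le hz1 with hlt | heq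
          · refine (D.inv_le_ball hc hG (by simpa using hlt)).trans (le_of_eq ?_)
            rw [norm_sub_rev]; ring
          · obtain ⟨hP1, -⟩ := hG z heq hzE
            have hne := (D.ne_of_notMem hzE).1
            have hpos : 0 < ‖1 - z‖ := norm_pos_iff.mpr (sub_ne_zero.mpr hne.symm)
            have hWpos : 0 < ‖D.W z‖ := norm_pos_iff.mpr (D.W_ne_zero hz1 hzE)
            rw [norm_div, norm_one, norm_sub_rev z 1, one_div_mul_eq_div,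
              div_le_div_iff₀ hWpos hc]
            rw [div_le_iff₀ hpos] at hP1
            linarith
      · obtain ⟨δ, hδ, hnear⟩ := D.inv_le_near i
        refine ⟨2 / D.a i, ?_⟩
        have hb : ball (D.ζ i) δ ∈ 𝓝[closedBall 0 1] (D.ζ i) :=
          mem_nhdsWithin_of_mem_nhds (ball_mem_nhds _ hδ)
        filter_upwards [self_mem_nhdsWithin, hb] with z hz hzb
        have hz1 : ‖z‖ ≤ 1 := by simpa using hz
        have hzb' : ‖z - D.ζ i‖ < δ := by simpa [dist_eq_norm] using hzb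
        by_cases hzE : z ∈ D.E
        · rw [D.f_of_mem hzE, sub_self, norm_zero]
          have := D.ha i
          positivity
        · rw [D.f_of_notMem hzE]
          have h1 : (1 : ℂ) - 1 / D.W z - 1 = -(1 / D.W z) := by ring
          rw [h1, norm_neg]
          exact hnear z hz1 hzE hzb'
    rw [ContinuousWithinAt, D.f_of_mem hE, tendsto_iff_norm_sub_tendsto_zero]
    apply squeeze_zero' (Eventually.of_forall fun _ => norm_nonneg _) hK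
    have h2 : Tendsto (fun z : ℂ => K * ‖z - z₀‖) (𝓝 z₀) (𝓝 (K * ‖z₀ - z₀‖)) := by
      have h3 : Continuous (fun z : ℂ => K * ‖z - z₀‖) := by fun_prop
      exact h3.tendsto z₀
    rw [sub_self, norm_zero, mul_zero] at h2
    exact h2.mono_left nhdsWithin_le_nhds
  · have h1 : ContinuousWithinAt (fun z => 1 - 1 / D.W z) (closedBall 0 1) z₀ :=
      continuousWithinAt_const.sub
        (continuousWithinAt_const.div (D.cont_W hz₀1 hE) (D.W_ne_zero hz₀1 hE))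
    apply h1.congr_of_eventuallyEq _ (D.f_of_notMem hE)
    have h2 : D.Eᶜ ∈ 𝓝[closedBall 0 1] z₀ :=
      mem_nhdsWithin_of_mem_nhds (D.isClosed_E.isOpen_compl.mem_nhds hE)
    filter_upwards [h2] with z hz
    exact D.f_of_notMem hz

lemma diff_f : DifferentiableOn ℂ D.f (ball 0 1) := by
  have h1 : DifferentiableOn ℂ (fun z => 1 - 1 / D.W z) (ball 0 1) := by
    intro z hz
    have hz1 : ‖z‖ < 1 := by simpa using hz
    have hWz := D.diff_W.differentiableAt (isOpen_ball.mem_nhds hz)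
    apply DifferentiableAt.differentiableWithinAt
    exact (differentiableAt_const _).sub
      ((differentiableAt_const _).div hWz (D.W_ne_zero hz1.le (D.ball_notMem hz)))
  exact h1.congr (fun z hz => D.f_of_notMem (D.ball_notMem hz))

lemma lip_f [Countable ι] {α c C : ℝ} (hα0 : 0 < α) (hα1 : α < 1) (hc : 0 < c) (hC : 0 ≤ C)
    (hG : D.Good α c C) : ∀ x ∈ sphere (0:ℂ) 1, ∀ y ∈ sphere (0:ℂ) 1,
      ‖D.f x - D.f y‖ ≤ (4 / c + C) * ‖x - y‖ ^ α := by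
  have hcirc : Continuous (circleMap 0 1) := continuous_circleMap 0 1
  have hF : Continuous (fun t : ℝ => D.f (circleMap 0 1 t)) := by
    have h1 := (D.cont_f hc hG).comp_continuous hcirc (fun t => by simp)
    exact h1
  have hdense : Dense {t : ℝ | circleMap 0 1 t ∉ D.E} := by
    have h1 : (circleMap 0 1 ⁻¹' D.E).Countable :=
      D.countable_E.preimage_circleMap 0 one_ne_zero
    exact h1.dense_compl ℝ
  have hclosed : IsClosed {p : ℝ × ℝ | ‖D.f (circleMap 0 1 p.1) - D.f (circleMap 0 1 p.2)‖ ≤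
      (4 / c + C) * ‖circleMap 0 1 p.1 - circleMap 0 1 p.2‖ ^ α} := by
    apply isClosed_le
    · exact ((hF.comp continuous_fst).sub (hF.comp continuous_snd)).norm
    · apply Continuous.mul continuous_const
      apply Continuous.rpow_const
      · exact ((hcirc.comp continuous_fst).sub (hcirc.comp continuous_snd)).norm
      · intro p; right; exact hα0.le
  have hsub : {t : ℝ | circleMap 0 1 t ∉ D.E} ×ˢ {t : ℝ | circleMap 0 1 t ∉ D.E} ⊆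
      {p : ℝ × ℝ | ‖D.f (circleMap 0 1 p.1) - D.f (circleMap 0 1 p.2)‖ ≤
      (4 / c + C) * ‖circleMap 0 1 p.1 - circleMap 0 1 p.2‖ ^ α} := by
    rintro ⟨t, t'⟩ ⟨ht, ht'⟩
    simp only [mem_ofPred_eq] at ht ht' ⊢
    rw [D.f_of_notMem ht, D.f_of_notMem ht']
    have h1 : (1 : ℂ) - 1 / D.W (circleMap 0 1 t) - (1 - 1 / D.W (circleMap 0 1 t')) =
        -(1 / D.W (circleMap 0 1 t) - 1 / D.W (circleMap 0 1 t')) := by ring
    rw [h1, norm_neg]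
    exact D.lip hα0 hα1 hc hC hG (by simp) (by simp) ht ht'
  have huniv := (hdense.prod hdense).closure_eq ▸ (hclosed.closure_subset_iff.mpr hsub)
  intro x hx y hy
  have hx1 : ‖x‖ = 1 := by simpa using hx
  have hy1 : ‖y‖ = 1 := by simpa using hy
  have hxc : circleMap 0 1 (arg x) = x := by
    have := norm_mul_exp_arg_mul_I x
    rw [hx1] at this
    simpa [circleMap] using this
  have hyc : circleMap 0 1 (arg y) = y := by
    have := norm_mul_exp_arg_mul_I y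
    rw [hy1] at this
    simpa [circleMap] using this
  have h2 := huniv (mem_univ (arg x, arg y))
  simp only [mem_ofPred_eq, hxc, hyc] at h2
  exact h2

theorem isPeakSet [Countable ι] [Nonempty ι] {α c C : ℝ} (hα0 : 0 < α) (hα1 : α < 1)
    (hc : 0 < c) (hC : 0 ≤ C) (hG : D.Good α c C) : IsPeakSet α D.E := by
  refine ⟨D.isClosed_E, D.E_subset, D.f, ⟨D.diff_f, D.cont_f hc hG, _,
    D.lip_f hα0 hα1 hc hC hG⟩, fun ζ hζ => D.f_of_mem hζ, ?_⟩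
  intro ζ hζ hζE
  have hn : ‖ζ‖ = 1 := by simpa using hζ
  rw [D.f_of_notMem hζE]
  have hW0 := D.W_ne_zero hn.le hζE
  obtain ⟨i⟩ := (inferInstance : Nonempty ι)
  have hre : 1 / 2 < (D.W ζ).re := by
    have h1 := D.re_W_ge hn.le hζE i
    have h2 := D.re_term_pos hn.le ((D.ne_of_notMem hζE).2 i)
    linarith
  have h1 : (1 : ℂ) - 1 / D.W ζ = (D.W ζ - 1) / D.W ζ := by field_simp
  rw [h1, norm_div, div_lt_one (norm_pos_iff.mpr hW0)]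
  rw [← sq_lt_sq₀ (norm_nonneg _) (norm_nonneg _), ← normSq_eq_norm_sq, ← normSq_eq_norm_sq,
    normSq_apply, normSq_apply]
  simp only [sub_re, one_re, sub_im, one_im, sub_zero]
  nlinarith

end Config

namespace Config

variable {ι : Type} (D : Config ι)

lemma norm_q_one {x : ℂ} : ‖q 1 x‖ = 1 / ‖1 - x‖ := by
  unfold q
  rw [one_mul, norm_div, norm_one]

lemma chord_le_two {x : ℂ} (hx : ‖x‖ = 1) : ‖1 - x‖ ≤ 2 := by
  calc ‖1 - x‖ ≤ ‖(1:ℂ)‖ + ‖x‖ := norm_sub_le _ _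
    _ = 2 := by rw [hx, norm_one]; norm_num

/-- comparison of powers of the chord distance: `1 ≤ 2^(β-1) τ^(1-β)` for `τ ≤ 2`. -/
lemma one_le_rpow {β τ : ℝ} (hβ : 1 < β) (hτ : 0 < τ) (hτ2 : τ ≤ 2) :
    1 ≤ 2 ^ (β - 1) * τ ^ (1 - β) := by
  have h1 : (2:ℝ) ^ (1 - β) ≤ τ ^ (1 - β) :=
    Real.rpow_le_rpow_of_nonpos hτ hτ2 (by linarith)
  have h2 : (2:ℝ) ^ (β - 1) * 2 ^ (1 - β) = 1 := by
    rw [← Real.rpow_add (by norm_num)]; simp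
  calc (1:ℝ) = 2 ^ (β - 1) * 2 ^ (1 - β) := h2.symm
    _ ≤ 2 ^ (β - 1) * τ ^ (1 - β) := by gcongr

/-- estimates at points far from all the `ζ i` -/
lemma far_bound {β C' : ℝ} (hβ : 1 < β) (hC' : 0 ≤ C') {x : ℂ} (hx : ‖x‖ = 1) (hE : x ∉ D.E)
    (hS1 : ∑' i, D.a i / ‖D.ζ i - x‖ ≤ (1 / 6) / ‖1 - x‖)
    (hS2 : ∑' i, D.a i / ‖D.ζ i - x‖ ^ 2 ≤ C' * ‖1 - x‖ ^ (-(1 + β))) :
    (1 / 2) / ‖1 - x‖ ≤ ‖D.W x‖ ∧
      D.AA x / ‖D.W x‖ ^ 2 ≤ (4 * 2 ^ (β - 1) + 20 * C') * ‖1 - x‖ ^ (1 - β) := by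
  have hx1 := (D.ne_of_notMem hE).1
  have hτ : 0 < ‖1 - x‖ := norm_pos_iff.mpr (sub_ne_zero.mpr hx1.symm)
  have hτ2 := chord_le_two hx
  set τ := ‖1 - x‖ with hτdef
  have hW : (1 / 2) / τ ≤ ‖D.W x‖ := by
    have h1 : ‖∑' i, D.term i x‖ ≤ 3 * ∑' i, D.a i / ‖D.ζ i - x‖ := by
      rw [← tsum_mul_left]
      apply tsum_of_norm_bounded ((D.summable_div hE).mul_left 3).hasSum
      intro i
      refine (D.norm_term_le hx.le ((D.ne_of_notMem hE).2 i)).trans (le_of_eq ?_)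
      ring
    have h2 : ‖q 1 x‖ ≤ ‖D.W x‖ + ‖∑' i, D.term i x‖ := by
      have : q 1 x = D.W x - ∑' i, D.term i x := by unfold W; ring
      rw [this]
      exact norm_sub_le _ _
    rw [norm_q_one, ← hτdef] at h2
    have h3 : (1:ℝ) / τ - 3 * ((1 / 6) / τ) = (1 / 2) / τ := by ring
    linarith
  refine ⟨hW, ?_⟩
  have hWpos : 0 < (1 / 2) / τ := by positivity
  have hA0 : D.AA x ≤ 1 / τ ^ 2 + 5 * (C' * τ ^ (-(1 + β))) := by
    unfold AA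
    gcongr
  have h4 : D.AA x / ‖D.W x‖ ^ 2 ≤ (1 / τ ^ 2 + 5 * (C' * τ ^ (-(1 + β)))) / ((1 / 2) / τ) ^ 2 := by
    have h5 : 0 ≤ 1 / τ ^ 2 + 5 * (C' * τ ^ (-(1 + β))) := by positivity
    calc D.AA x / ‖D.W x‖ ^ 2 ≤ (1 / τ ^ 2 + 5 * (C' * τ ^ (-(1 + β)))) / ‖D.W x‖ ^ 2 := by gcongr
      _ ≤ _ := by gcongr
  have h6 : (1 / τ ^ 2 + 5 * (C' * τ ^ (-(1 + β)))) / ((1 / 2) / τ) ^ 2 =
      4 + 20 * C' * τ ^ (1 - β) := by
    have h7 : τ ^ (1 - β) = τ ^ (-(1 + β)) * τ ^ 2 := by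
      rw [← Real.rpow_natCast τ 2, ← Real.rpow_add hτ]
      congr 1
      push_cast; ring
    rw [h7]
    field_simp
    ring
  rw [h6] at h4
  have h8 := one_le_rpow hβ hτ hτ2
  have h9 : 4 + 20 * C' * τ ^ (1 - β) ≤ (4 * 2 ^ (β - 1) + 20 * C') * τ ^ (1 - β) := by
    nlinarith
  exact h4.trans h9

/-- estimates at points close to one of the `ζ i` -/
lemma near_bound {β C' L T : ℝ} (hβ : 1 < β) (hC' : 0 ≤ C') (hL : 0 < L) (hT : 0 < T)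
    {x : ℂ} (hx : ‖x‖ = 1) (hE : x ∉ D.E) [DecidableEq ι] (i₀ : ι)
    (ha : D.a i₀ = T ^ (β - 1)) (hρ : D.ρ i₀ = T ^ β)
    (hT1 : T / 2 < ‖1 - x‖) (hT2 : ‖1 - x‖ < 4 * T)
    (hr : ‖D.ζ i₀ - x‖ ≤ L * D.ρ i₀)
    (hS1 : ∑' i, ite (i = i₀) 0 (D.a i / ‖D.ζ i - x‖) ≤ (1 / 6) / ‖1 - x‖)
    (hS2 : ∑' i, ite (i = i₀) 0 (D.a i / ‖D.ζ i - x‖ ^ 2) ≤ C' * ‖1 - x‖ ^ (-(1 + β))) :
    (1 / (2 * (L + 1) ^ 2)) / ‖1 - x‖ ≤ ‖D.W x‖ ∧
      D.AA x / ‖D.W x‖ ^ 2 ≤ ((2 * (L + 1) ^ 2) ^ 2 * (2 ^ (β - 1) + 5 * C') +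
        5 * (1 + 6 * (2 * (L + 1) ^ 2)) ^ 2 * 4 ^ (β - 1)) * ‖1 - x‖ ^ (1 - β) := by
  have hx1 := (D.ne_of_notMem hE).1
  have hτ : 0 < ‖1 - x‖ := norm_pos_iff.mpr (sub_ne_zero.mpr hx1.symm)
  have hτ2 := chord_le_two hx
  set τ := ‖1 - x‖ with hτdef
  have hne := (D.ne_of_notMem hE).2 i₀
  have hr0 : 0 < ‖D.ζ i₀ - x‖ := norm_pos_iff.mpr (sub_ne_zero.mpr hne.symm)
  set r := ‖D.ζ i₀ - x‖ with hrdef
  have hρ0 := D.hρ i₀
  have ha0 := D.ha i₀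
  have haρ : D.a i₀ / D.ρ i₀ = 1 / T := by
    rw [ha, hρ, ← Real.rpow_sub hT]
    have : β - 1 - β = -1 := by ring
    rw [this, Real.rpow_neg_one, one_div]
  set K : ℝ := 2 * (L + 1) ^ 2 with hK
  have hKpos : 0 < K := by positivity
  -- lower bound from the real part
  have hW1 : (1 / K) / τ ≤ ‖D.W x‖ := by
    have h1 := D.re_W_ge hx.le hE i₀
    have h2 : D.a i₀ * (D.ρ i₀ / (r + D.ρ i₀) ^ 2) ≤ (D.term i₀ x).re := by
      unfold term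
      rw [re_ofReal_mul]
      exact mul_le_mul_of_nonneg_left (re_ker_ge (D.hζ i₀) hx.le hρ0 (D.hρ1 i₀) hne) ha0.le
    have h3 : (r + D.ρ i₀) ^ 2 ≤ ((L + 1) * D.ρ i₀) ^ 2 := by
      gcongr
      linarith
    have h4 : D.a i₀ * (D.ρ i₀ / ((L + 1) * D.ρ i₀) ^ 2) ≤
        D.a i₀ * (D.ρ i₀ / (r + D.ρ i₀) ^ 2) := by gcongr
    have h5 : D.a i₀ * (D.ρ i₀ / ((L + 1) * D.ρ i₀) ^ 2) = (1 / T) / (L + 1) ^ 2 := by
      rw [← haρ]; field_simp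
    have h6 : (1 / K) / τ ≤ (1 / T) / (L + 1) ^ 2 := by
      rw [hK, div_div, div_div, div_le_div_iff₀ (by positivity) (by positivity)]
      have : T < 2 * τ := by linarith
      nlinarith [sq_nonneg (L + 1), sq_nonneg L]
    have h7 := re_le_norm (D.W x)
    linarith
  refine ⟨hW1, ?_⟩
  have hWpos : 0 < ‖D.W x‖ := lt_of_lt_of_le (by positivity) hW1
  have hinvτ : 1 / τ ≤ K * ‖D.W x‖ := by
    have : (1 / K) / τ = (1 / τ) / K := by field_simp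
    rw [this, div_le_iff₀ hKpos] at hW1
    linarith
  -- lower bound from the pole
  have hpole : D.a i₀ / r ≤ (1 + 6 * K) * ‖D.W x‖ := by
    have hs := D.summable_term hx.le hE
    have e1 : D.W x = q 1 x + (D.term i₀ x + ∑' j, ite (j = i₀) 0 (D.term j x)) := by
      unfold W
      rw [hs.tsum_eq_add_tsum_ite i₀]
    have e2 : D.term i₀ x = D.a i₀ * q (starRingEnd ℂ (D.ζ i₀)) x +
        D.a i₀ * q ((1 - D.ρ i₀ : ℝ) * starRingEnd ℂ (D.ζ i₀)) x := by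
      unfold term ker
      ring
    have b2 : ‖(D.a i₀ : ℂ) * q ((1 - D.ρ i₀ : ℝ) * starRingEnd ℂ (D.ζ i₀)) x‖ ≤ 4 / τ := by
      rw [norm_mul, norm_real, Real.norm_eq_abs, abs_of_pos ha0]
      calc D.a i₀ * ‖q ((1 - D.ρ i₀ : ℝ) * starRingEnd ℂ (D.ζ i₀)) x‖
          ≤ D.a i₀ * (1 / D.ρ i₀) :=
            mul_le_mul_of_nonneg_left (norm_q2_le (D.hζ i₀) hx.le hρ0 (D.hρ1 i₀)) ha0.le
        _ = 1 / T := by rw [← haρ]; ring
        _ ≤ 4 / τ := by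
            rw [div_le_div_iff₀ hT hτ]; linarith
    have hsum3 : Summable (fun i => ite (i = i₀) 0 (D.a i / ‖D.ζ i - x‖)) := by
      apply Summable.of_nonneg_of_le _ _ (D.summable_div hE)
      · intro i; split_ifs
        · exact le_refl 0
        · exact div_nonneg (D.ha i).le (norm_nonneg _)
      · intro i; split_ifs
        · exact div_nonneg (D.ha i).le (norm_nonneg _)
        · exact le_refl _
    have b3 : ‖∑' j, ite (j = i₀) 0 (D.term j x)‖ ≤ (1 / 2) / τ := by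
      have h1 : ‖∑' j, ite (j = i₀) 0 (D.term j x)‖ ≤
          3 * ∑' i, ite (i = i₀) 0 (D.a i / ‖D.ζ i - x‖) := by
        rw [← tsum_mul_left]
        apply tsum_of_norm_bounded (hsum3.mul_left 3).hasSum
        intro j
        by_cases hji : j = i₀
        · rw [if_pos hji, if_pos hji, norm_zero, mul_zero]
        · rw [if_neg hji, if_neg hji]
          refine (D.norm_term_le hx.le ((D.ne_of_notMem hE).2 j)).trans (le_of_eq ?_)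
          ring
      calc _ ≤ 3 * ∑' i, ite (i = i₀) 0 (D.a i / ‖D.ζ i - x‖) := h1
        _ ≤ 3 * ((1 / 6) / τ) := by gcongr
        _ = (1 / 2) / τ := by ring
    have b4 : ‖(D.a i₀ : ℂ) * q (starRingEnd ℂ (D.ζ i₀)) x‖ = D.a i₀ / r := by
      rw [norm_mul, norm_real, Real.norm_eq_abs, abs_of_pos ha0, norm_q1 (D.hζ i₀)]
      ring
    have e3 : (D.a i₀ : ℂ) * q (starRingEnd ℂ (D.ζ i₀)) x = D.W x -
        (q 1 x + D.a i₀ * q ((1 - D.ρ i₀ : ℝ) * starRingEnd ℂ (D.ζ i₀)) x +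
          ∑' j, ite (j = i₀) 0 (D.term j x)) := by
      rw [e1, e2]; ring
    have h5 : ‖(D.a i₀ : ℂ) * q (starRingEnd ℂ (D.ζ i₀)) x‖ ≤ ‖D.W x‖ +
        (‖q 1 x‖ + ‖(D.a i₀ : ℂ) * q ((1 - D.ρ i₀ : ℝ) * starRingEnd ℂ (D.ζ i₀)) x‖ +
          ‖∑' j, ite (j = i₀) 0 (D.term j x)‖) := by
      rw [e3]
      refine (norm_sub_le _ _).trans ?_
      gcongr
      exact norm_add₃_le
    rw [b4, norm_q_one, ← hτdef] at h5
    have h6 : (4:ℝ) / τ = 4 * (1 / τ) := by ring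
    have h7 : (1 / 2 : ℝ) / τ = (1 / 2) * (1 / τ) := by ring
    rw [h6] at b2
    rw [h7] at b3
    have h8 : 0 < 1 / τ := by positivity
    nlinarith
  -- the second estimate
  have hsum4 := D.summable_div_sq hE
  have hsplit : D.AA x = 1 / τ ^ 2 + 5 * (D.a i₀ / r ^ 2) +
      5 * ∑' i, ite (i = i₀) 0 (D.a i / ‖D.ζ i - x‖ ^ 2) := by
    unfold AA
    rw [hsum4.tsum_eq_add_tsum_ite i₀]
    ring
  have t1 : (1 / τ ^ 2) / ‖D.W x‖ ^ 2 ≤ K ^ 2 := by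
    have : (1 / τ ^ 2) / ‖D.W x‖ ^ 2 = ((1 / τ) / ‖D.W x‖) ^ 2 := by field_simp
    rw [this]
    have h1 : (1 / τ) / ‖D.W x‖ ≤ K := by rw [div_le_iff₀ hWpos]; exact hinvτ
    gcongr
  have t2 : (5 * (D.a i₀ / r ^ 2)) / ‖D.W x‖ ^ 2 ≤
      5 * (1 + 6 * K) ^ 2 * 4 ^ (β - 1) * τ ^ (1 - β) := by
    have h1 : (5 * (D.a i₀ / r ^ 2)) / ‖D.W x‖ ^ 2 =
        (5 / D.a i₀) * ((D.a i₀ / r) / ‖D.W x‖) ^ 2 := by field_simp
    rw [h1]
    have h2 : (D.a i₀ / r) / ‖D.W x‖ ≤ 1 + 6 * K := by rw [div_le_iff₀ hWpos]; exact hpole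
    have h3 : 5 / D.a i₀ ≤ 5 * (4 ^ (β - 1) * τ ^ (1 - β)) := by
      rw [ha]
      have h4 : T ^ (1 - β) ≤ (τ / 4) ^ (1 - β) :=
        Real.rpow_le_rpow_of_nonpos (by positivity) (by linarith) (by linarith)
      have h5 : (τ / 4) ^ (1 - β) = 4 ^ (β - 1) * τ ^ (1 - β) := by
        rw [Real.div_rpow hτ.le (by norm_num), div_eq_mul_inv, ← Real.rpow_neg (by norm_num),
          mul_comm]
        congr 2
        ring
      have h6 : 5 / T ^ (β - 1) = 5 * T ^ (1 - β) := by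
        have : (1 - β) = -(β - 1) := by ring
        rw [this, Real.rpow_neg hT.le]
        rfl
      rw [h6, ← h5]
      gcongr
    calc (5 / D.a i₀) * ((D.a i₀ / r) / ‖D.W x‖) ^ 2
        ≤ (5 * (4 ^ (β - 1) * τ ^ (1 - β))) * (1 + 6 * K) ^ 2 := by gcongr
      _ = _ := by ring
  have t3 : (5 * ∑' i, ite (i = i₀) 0 (D.a i / ‖D.ζ i - x‖ ^ 2)) / ‖D.W x‖ ^ 2 ≤
      5 * C' * K ^ 2 * τ ^ (1 - β) := by
    calc (5 * ∑' i, ite (i = i₀) 0 (D.a i / ‖D.ζ i - x‖ ^ 2)) / ‖D.W x‖ ^ 2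
        ≤ (5 * (C' * τ ^ (-(1 + β)))) / ‖D.W x‖ ^ 2 := by gcongr
      _ = 5 * C' * τ ^ (1 - β) * ((1 / τ ^ 2) / ‖D.W x‖ ^ 2) := by
          have h7 : τ ^ (1 - β) = τ ^ (-(1 + β)) * τ ^ 2 := by
            rw [← Real.rpow_natCast τ 2, ← Real.rpow_add hτ]
            congr 1
            push_cast; ring
          rw [h7]
          field_simp
      _ ≤ 5 * C' * τ ^ (1 - β) * K ^ 2 := by gcongr
      _ = _ := by ring
  have h8 := one_le_rpow hβ hτ hτ2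
  rw [hsplit, add_div, add_div]
  have h9 : K ^ 2 ≤ K ^ 2 * (2 ^ (β - 1) * τ ^ (1 - β)) := le_mul_of_one_le_right (by positivity) h8
  calc _ ≤ K ^ 2 * (2 ^ (β - 1) * τ ^ (1 - β)) +
        5 * (1 + 6 * K) ^ 2 * 4 ^ (β - 1) * τ ^ (1 - β) + 5 * C' * K ^ 2 * τ ^ (1 - β) := by
        linarith
    _ = _ := by ring

end Config

end PeakGevrey
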