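import Mathlib
import Pool.Agent.H33.Peak.PartB

open MeasureTheory Filter Topology Complex Metric Set

namespace PeakGevrey

/-! ## The concrete set -/

/-- chord versus arc -/
lemma chord_ge {u v : ℝ} (h : |u - v| ≤ Real.pi) :
    2 / Real.pi * |u - v| ≤ ‖circleMap 0 1 u - circleMap 0 1 v‖ := by
  have h1 : circleMap 0 1 u - circleMap 0 1 v =
      circleMap 0 1 v * (Complex.exp (I * ((u - v : ℝ) : ℂ)) - 1) := by
    simp only [circleMap, zero_add, ofReal_one, one_mul]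
    rw [mul_sub, ← Complex.exp_add]
    push_cast
    ring_nf
  rw [h1, norm_mul, norm_circleMap_zero, abs_one, one_mul, Complex.norm_exp_I_mul_ofReal_sub_one]
  rw [Real.norm_eq_abs, abs_mul, abs_two]
  have h2 : |(u - v) / 2| ≤ Real.pi / 2 := by
    rw [abs_div, abs_two]
    linarith
  have h3 := Real.mul_abs_le_abs_sin h2
  rw [abs_div, abs_two] at h3
  linarith

lemma chord_le (u v : ℝ) : ‖circleMap 0 1 u - circleMap 0 1 v‖ ≤ |u - v| := by
  have h1 : circleMap 0 1 u - circleMap 0 1 v =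
      circleMap 0 1 v * (Complex.exp (I * ((u - v : ℝ) : ℂ)) - 1) := by
    simp only [circleMap, zero_add, ofReal_one, one_mul]
    rw [mul_sub, ← Complex.exp_add]
    push_cast
    ring_nf
  rw [h1, norm_mul, norm_circleMap_zero, abs_one, one_mul]
  have := Real.norm_exp_I_mul_ofReal_sub_one_le (x := u - v)
  simpa using this

/-- scale of the `k`-th block -/
noncomputable def TT (k₀ k : ℕ) : ℝ := (1 / 8) ^ (k + k₀)

/-- spacing in the `k`-th block -/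
noncomputable def dd (β : ℝ) (k₀ k : ℕ) : ℝ := (((k + k₀ : ℕ) : ℝ) * TT k₀ k) ^ β

/-- number of points of the `k`-th block -/
noncomputable def NN (β : ℝ) (k₀ k : ℕ) : ℕ := ⌊TT k₀ k / dd β k₀ k⌋₊

/-- the smallness conditions on `k₀` -/
structure Cond (β : ℝ) (k₀ : ℕ) : Prop where
  hβ : 1 < β
  hk : 1 ≤ k₀
  hd : ∀ k, dd β k₀ k ≤ TT k₀ k / 8
  hs : Summable (fun k : ℕ => (((k + k₀ : ℕ) : ℝ)) ^ (-β))
  hs2 : ∑' k : ℕ, (((k + k₀ : ℕ) : ℝ)) ^ (-β) ≤ 1 / 96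
  hl : ∀ k : ℕ, (((k + k₀ : ℕ) : ℝ)) ^ (-β) * (1 + Real.log (NN β k₀ k)) ≤ 1 / 768

lemma TT_pos (k₀ k : ℕ) : 0 < TT k₀ k := by unfold TT; positivity

lemma TT_le {k₀ : ℕ} (hk : 1 ≤ k₀) (k : ℕ) : TT k₀ k ≤ 1 / 8 := by
  unfold TT
  calc (1 / 8 : ℝ) ^ (k + k₀) ≤ (1 / 8) ^ 1 :=
        pow_le_pow_of_le_one (by norm_num) (by norm_num) (by omega)
    _ = 1 / 8 := pow_one _

lemma TT_succ (k₀ k : ℕ) : TT k₀ (k + 1) = TT k₀ k / 8 := by
  unfold TT
  rw [show k + 1 + k₀ = (k + k₀) + 1 by ring, pow_succ]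
  ring

lemma TT_lt {k₀ i j : ℕ} (h : i < j) : TT k₀ j ≤ TT k₀ i / 8 := by
  rw [← TT_succ]
  unfold TT
  exact pow_le_pow_of_le_one (by norm_num) (by norm_num) (by omega)

section
variable {β : ℝ} {k₀ : ℕ} (H : Cond β k₀)
include H

lemma dd_pos (k : ℕ) : 0 < dd β k₀ k := by
  unfold dd
  apply Real.rpow_pos_of_pos
  have h1 := TT_pos k₀ k
  have h2 := H.hk
  have h3 : (0:ℝ) < ((k + k₀ : ℕ) : ℝ) := by
    have : 0 < k + k₀ := by omega
    exact_mod_cast this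
  positivity

lemma cast_pos (k : ℕ) : (1:ℝ) ≤ ((k + k₀ : ℕ) : ℝ) := by
  have := H.hk
  have h1 : 1 ≤ k + k₀ := by omega
  exact_mod_cast h1

lemma dd_eq (k : ℕ) : dd β k₀ k = (((k + k₀ : ℕ) : ℝ)) ^ β * (TT k₀ k) ^ β := by
  unfold dd
  rw [Real.mul_rpow (by positivity) (TT_pos k₀ k).le]

lemma rho_le_dd (k : ℕ) : (TT k₀ k) ^ β ≤ dd β k₀ k := by
  rw [dd_eq H]
  have h1 : (1:ℝ) ≤ (((k + k₀ : ℕ) : ℝ)) ^ β :=
    Real.one_le_rpow (cast_pos H k) (by linarith [H.hβ])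
  have h2 : 0 < (TT k₀ k) ^ β := Real.rpow_pos_of_pos (TT_pos k₀ k) _
  nlinarith

lemma NN_ge (k : ℕ) : 8 ≤ NN β k₀ k := by
  unfold NN
  apply Nat.le_floor
  rw [le_div_iff₀ (dd_pos H k)]
  have := H.hd k
  push_cast
  linarith

lemma NN_mul_le (k : ℕ) : (NN β k₀ k : ℝ) * dd β k₀ k ≤ TT k₀ k := by
  have h1 : (NN β k₀ k : ℝ) ≤ TT k₀ k / dd β k₀ k :=
    Nat.floor_le (div_nonneg (TT_pos k₀ k).le (dd_pos H k).le)
  rw [le_div_iff₀ (dd_pos H k)] at h1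
  exact h1

lemma le_NN_mul (k : ℕ) : TT k₀ k ≤ ((NN β k₀ k : ℝ) + 1) * dd β k₀ k := by
  have h1 : TT k₀ k / dd β k₀ k ≤ (NN β k₀ k : ℝ) + 1 := (Nat.lt_floor_add_one _).le
  rw [div_le_iff₀ (dd_pos H k)] at h1
  exact h1

lemma a_div_d (k : ℕ) : (TT k₀ k) ^ (β - 1) / dd β k₀ k =
    (((k + k₀ : ℕ) : ℝ)) ^ (-β) / TT k₀ k := by
  have hT := TT_pos k₀ k
  have hm := cast_pos H k
  rw [dd_eq H, Real.rpow_neg (by linarith), Real.rpow_sub hT, Real.rpow_one]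
  have h1 : (TT k₀ k) ^ β ≠ 0 := (Real.rpow_pos_of_pos hT _).ne'
  have h2 : (((k + k₀ : ℕ) : ℝ)) ^ β ≠ 0 := (Real.rpow_pos_of_pos (by linarith) _).ne'
  field_simp

/-- total weight of a block -/
lemma block_weight (k : ℕ) : (NN β k₀ k : ℝ) * (TT k₀ k) ^ (β - 1) ≤
    (((k + k₀ : ℕ) : ℝ)) ^ (-β) := by
  have h1 := a_div_d H k
  have h2 := NN_mul_le H k
  have hT := TT_pos k₀ k
  have hd := dd_pos H k
  rw [div_eq_iff hd.ne'] at h1
  rw [h1]
  have h3 : 0 < (((k + k₀ : ℕ) : ℝ)) ^ (-β) :=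
    Real.rpow_pos_of_pos (by linarith [cast_pos H k]) _
  calc (NN β k₀ k : ℝ) * ((((k + k₀ : ℕ) : ℝ)) ^ (-β) / TT k₀ k * dd β k₀ k)
      = (((k + k₀ : ℕ) : ℝ)) ^ (-β) * ((NN β k₀ k : ℝ) * dd β k₀ k) / TT k₀ k := by ring
    _ ≤ (((k + k₀ : ℕ) : ℝ)) ^ (-β) * TT k₀ k / TT k₀ k := by gcongr
    _ = (((k + k₀ : ℕ) : ℝ)) ^ (-β) := by field_simp

end

/-- index type -/
abbrev Idx (β : ℝ) (k₀ : ℕ) : Type := Σ k : ℕ, Fin (NN β k₀ k)

/-- angle of a point -/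
noncomputable def ang (β : ℝ) (k₀ : ℕ) (i : Idx β k₀) : ℝ :=
  TT k₀ i.1 + (i.2 : ℕ) * dd β k₀ i.1

/-- point of the set -/
noncomputable def pt (β : ℝ) (k₀ : ℕ) (i : Idx β k₀) : ℂ := circleMap 0 1 (ang β k₀ i)

section
variable {β : ℝ} {k₀ : ℕ} (H : Cond β k₀)
include H

lemma ang_ge (i : Idx β k₀) : TT k₀ i.1 ≤ ang β k₀ i := by
  unfold ang
  have := dd_pos H i.1
  have : 0 ≤ ((i.2 : ℕ) : ℝ) * dd β k₀ i.1 := by positivity
  linarith

lemma ang_le (i : Idx β k₀) : ang β k₀ i ≤ 2 * TT k₀ i.1 := by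
  unfold ang
  have h1 := NN_mul_le H i.1
  have h2 : ((i.2 : ℕ) : ℝ) ≤ (NN β k₀ i.1 : ℝ) := by exact_mod_cast i.2.2.le
  have h3 := dd_pos H i.1
  nlinarith

lemma norm_pt (i : Idx β k₀) : ‖pt β k₀ i‖ = 1 := by simp [pt]

lemma pt_chord_le (i : Idx β k₀) : ‖1 - pt β k₀ i‖ ≤ 2 * TT k₀ i.1 := by
  have h1 := chord_le 0 (ang β k₀ i)
  have h2 : circleMap 0 1 0 = 1 := by simp [circleMap]
  rw [h2] at h1
  refine h1.trans ?_
  rw [zero_sub, abs_neg, abs_of_nonneg ((TT_pos k₀ i.1).le.trans (ang_ge H i))]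
  exact ang_le H i

lemma pt_chord_ge (i : Idx β k₀) : 2 / Real.pi * TT k₀ i.1 ≤ ‖1 - pt β k₀ i‖ := by
  have hpi := Real.pi_gt_three
  have hT := TT_pos k₀ i.1
  have hT1 := TT_le H.hk i.1
  have h0 : |0 - ang β k₀ i| ≤ Real.pi := by
    rw [zero_sub, abs_neg, abs_of_nonneg (hT.le.trans (ang_ge H i))]
    linarith [ang_le H i]
  have h1 := chord_ge h0
  have h2 : circleMap 0 1 0 = 1 := by simp [circleMap]
  rw [h2, zero_sub, abs_neg, abs_of_nonneg (hT.le.trans (ang_ge H i))] at h1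
  refine le_trans ?_ h1
  have := ang_ge H i
  gcongr

/-- distance to the points of a block which is not near `x`. -/
lemma dist_far {x : ℂ} (i : Idx β k₀) (h : ¬ (TT k₀ i.1 / 2 < ‖1 - x‖ ∧ ‖1 - x‖ < 4 * TT k₀ i.1)) :
    ‖1 - x‖ / 4 ≤ ‖pt β k₀ i - x‖ := by
  have hT := TT_pos k₀ i.1
  by_cases h1 : TT k₀ i.1 / 2 < ‖1 - x‖
  · have h2 : 4 * TT k₀ i.1 ≤ ‖1 - x‖ := by
      by_contra hcon
      push Not at hcon
      exact h ⟨h1, hcon⟩
    have h3 := pt_chord_le H i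
    have h4 : ‖1 - x‖ ≤ ‖1 - pt β k₀ i‖ + ‖pt β k₀ i - x‖ := norm_sub_le_norm_sub_add_norm_sub _ _ _
    linarith
  · push Not at h1
    have h3 := pt_chord_ge H i
    have h4 : ‖1 - pt β k₀ i‖ ≤ ‖1 - x‖ + ‖x - pt β k₀ i‖ := norm_sub_le_norm_sub_add_norm_sub _ _ _
    rw [norm_sub_rev x] at h4
    have h5 : 5 / 8 ≤ 2 / Real.pi := by
      rw [div_le_div_iff₀ (by norm_num) Real.pi_pos]
      linarith [Real.pi_lt_d2]
    have h6 : 5 / 8 * TT k₀ i.1 ≤ 2 / Real.pi * TT k₀ i.1 := by gcongr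
    linarith

/-- at most one block is near `x` -/
lemma near_unique {x : ℂ} {k k' : ℕ} (h : TT k₀ k / 2 < ‖1 - x‖ ∧ ‖1 - x‖ < 4 * TT k₀ k)
    (h' : TT k₀ k' / 2 < ‖1 - x‖ ∧ ‖1 - x‖ < 4 * TT k₀ k') : k = k' := by
  rcases lt_trichotomy k k' with hlt | heq | hgt
  · have := TT_lt (k₀ := k₀) hlt
    linarith [h.1, h'.2]
  · exact heq
  · have := TT_lt (k₀ := k₀) hgt
    linarith [h.2, h'.1]

end

/-- harmonic-type sum around an index -/
lemma sum_inv_dist_le (n j₀ : ℕ) (hj : j₀ < n) :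
    ∑ j ∈ Finset.range n, (if j = j₀ then (0:ℝ) else 1 / |(j:ℝ) - j₀|) ≤
      2 * (1 + Real.log n) := by
  have hH : ∀ m ≤ n, ∑ i ∈ Finset.range m, (1:ℝ) / ((i:ℝ) + 1) ≤ 1 + Real.log n := by
    intro m hm
    have h1 := harmonic_le_one_add_log n
    have h2 : ((harmonic n : ℚ) : ℝ) = ∑ i ∈ Finset.range n, (1:ℝ) / ((i:ℝ) + 1) := by
      rw [harmonic]
      push_cast
      apply Finset.sum_congr rfl
      intro i _
      rw [one_div]
    rw [h2] at h1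
    refine le_trans ?_ h1
    apply Finset.sum_le_sum_of_subset_of_nonneg
    · intro i hi
      rw [Finset.mem_range] at hi ⊢
      omega
    · intro i _ _; positivity
  rw [Finset.range_eq_Ico, ← Finset.sum_Ico_consecutive _ (Nat.zero_le j₀) hj.le]
  have e1 : ∑ j ∈ Finset.Ico 0 j₀, (if j = j₀ then (0:ℝ) else 1 / |(j:ℝ) - j₀|) =
      ∑ i ∈ Finset.range j₀, (1:ℝ) / ((i:ℝ) + 1) := by
    rw [← Finset.range_eq_Ico, ← Finset.sum_range_reflect]
    apply Finset.sum_congr rfl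
    intro i hi
    rw [Finset.mem_range] at hi
    have h1 : j₀ - 1 - i ≠ j₀ := by omega
    rw [if_neg h1]
    have h2 : ((j₀ - 1 - i : ℕ) : ℝ) = (j₀:ℝ) - 1 - i := by
      have : 1 + i ≤ j₀ := by omega
      rw [Nat.sub_sub, Nat.cast_sub this]
      push_cast; ring
    rw [h2]
    have h3 : (j₀:ℝ) - 1 - i - j₀ = -((i:ℝ) + 1) := by ring
    rw [h3, abs_neg, abs_of_pos (by positivity)]
  have e2 : ∑ j ∈ Finset.Ico j₀ n, (if j = j₀ then (0:ℝ) else 1 / |(j:ℝ) - j₀|) =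
      ∑ i ∈ Finset.range (n - j₀ - 1), (1:ℝ) / ((i:ℝ) + 1) := by
    rw [Finset.sum_Ico_eq_sum_range]
    obtain ⟨m, hm⟩ : ∃ m, n - j₀ = m + 1 := ⟨n - j₀ - 1, by omega⟩
    rw [hm, Finset.sum_range_succ']
    simp only [Nat.add_sub_cancel, add_zero, if_pos]
    apply Finset.sum_congr rfl
    intro i _
    have h1 : j₀ + (i + 1) ≠ j₀ := by omega
    rw [if_neg h1]
    push_cast
    have h3 : (j₀:ℝ) + (i + 1) - j₀ = (i:ℝ) + 1 := by ring
    rw [h3, abs_of_pos (by positivity)]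
  rw [e1, e2]
  have := hH j₀ hj.le
  have := hH (n - j₀ - 1) (by omega)
  linarith

section
variable {β : ℝ} {k₀ : ℕ} (H : Cond β k₀)
include H

lemma near_self (i : Idx β k₀) :
    TT k₀ i.1 / 2 < ‖1 - pt β k₀ i‖ ∧ ‖1 - pt β k₀ i‖ < 4 * TT k₀ i.1 := by
  have hT := TT_pos k₀ i.1
  have h1 := pt_chord_ge H i
  have h2 := pt_chord_le H i
  have h5 : 5 / 8 ≤ 2 / Real.pi := by
    rw [div_le_div_iff₀ (by norm_num) Real.pi_pos]
    linarith [Real.pi_lt_d2]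
  have h6 : 5 / 8 * TT k₀ i.1 ≤ 2 / Real.pi * TT k₀ i.1 := by gcongr
  constructor <;> linarith

lemma separation (i : Idx β k₀) :
    ∃ c > 0, ∀ j : Idx β k₀, j ≠ i → c ≤ ‖pt β k₀ i - pt β k₀ j‖ := by
  have hT := TT_pos k₀ i.1
  have hd := dd_pos H i.1
  have hpi := Real.pi_pos
  have hns := near_self H i
  refine ⟨min (2 / Real.pi * dd β k₀ i.1) (‖1 - pt β k₀ i‖ / 4), ?_, ?_⟩
  · apply lt_min (by positivity)
    linarith [hns.1]
  · intro j hj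
    by_cases hk : j.1 = i.1
    · obtain ⟨k, ji⟩ := i
      obtain ⟨k', jj⟩ := j
      simp only at hk
      subst hk
      refine (min_le_left _ _).trans ?_
      have hne : (ji : ℕ) ≠ (jj : ℕ) := by
        intro h
        apply hj
        have : ji = jj := Fin.ext h
        rw [this]
      have h1 : ang β k₀ ⟨k', ji⟩ - ang β k₀ ⟨k', jj⟩ =
          (((ji : ℕ) : ℝ) - ((jj : ℕ) : ℝ)) * dd β k₀ k' := by
        unfold ang; ring
      have h2 : 1 ≤ |((ji : ℕ) : ℝ) - ((jj : ℕ) : ℝ)| := by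
        have h3 : (((ji : ℕ) : ℤ) - ((jj : ℕ) : ℤ)) ≠ 0 := by omega
        have h4 := Int.one_le_abs h3
        exact_mod_cast h4
      have h3 : |ang β k₀ ⟨k', ji⟩ - ang β k₀ ⟨k', jj⟩| ≤ Real.pi := by
        have a1 := ang_ge H ⟨k', ji⟩
        have a2 := ang_le H ⟨k', ji⟩
        have a3 := ang_ge H ⟨k', jj⟩
        have a4 := ang_le H ⟨k', jj⟩
        have a5 := TT_le H.hk k'
        have a6 := Real.pi_gt_three
        simp only at a1 a2 a3 a4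
        rw [abs_le]
        constructor <;> linarith
      refine le_trans ?_ (chord_ge h3)
      rw [h1, abs_mul, abs_of_pos hd]
      have : dd β k₀ k' ≤ |((ji : ℕ) : ℝ) - ((jj : ℕ) : ℝ)| * dd β k₀ k' := by nlinarith
      gcongr
    · refine (min_le_right _ _).trans ?_
      rw [norm_sub_rev (pt β k₀ i) (pt β k₀ j)]
      apply dist_far H j
      intro hnear
      exact hk (near_unique H hnear hns)

/-- weights -/
lemma summable_weights : Summable (fun i : Idx β k₀ => (TT k₀ i.1) ^ (β - 1)) ∧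
    ∑' i : Idx β k₀, (TT k₀ i.1) ^ (β - 1) ≤ 1 / 96 := by
  have hnn : ∀ i : Idx β k₀, 0 ≤ (TT k₀ i.1) ^ (β - 1) :=
    fun i => (Real.rpow_pos_of_pos (TT_pos k₀ i.1) _).le
  have hinner : ∀ k, ∑' j : Fin (NN β k₀ k), (TT k₀ k) ^ (β - 1) =
      (NN β k₀ k : ℝ) * (TT k₀ k) ^ (β - 1) := by
    intro k
    rw [tsum_fintype]
    simp
  have hsum2 : Summable (fun k => ∑' j : Fin (NN β k₀ k), (TT k₀ k) ^ (β - 1)) := by
    apply Summable.of_nonneg_of_le _ _ H.hs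
    · intro k
      rw [hinner]
      have := Real.rpow_pos_of_pos (TT_pos k₀ k) (β - 1)
      positivity
    · intro k
      rw [hinner]
      exact block_weight H k
  have hsum : Summable (fun i : Idx β k₀ => (TT k₀ i.1) ^ (β - 1)) := by
    rw [summable_sigma_of_nonneg hnn]
    exact ⟨fun k => Summable.of_finite, hsum2⟩
  refine ⟨hsum, ?_⟩
  rw [hsum.tsum_sigma' (fun k => Summable.of_finite)]
  refine le_trans (Summable.tsum_le_tsum ?_ hsum2 H.hs) H.hs2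
  intro k
  rw [hinner]
  exact block_weight H k

lemma tendsto_pt : Tendsto (pt β k₀) cofinite (𝓝 1) := by
  have h1 := (summable_weights H).1.tendsto_cofinite_zero
  have hκ : 0 < β - 1 := by linarith [H.hβ]
  have h2 : Tendsto (fun i : Idx β k₀ => ((TT k₀ i.1) ^ (β - 1)) ^ (1 / (β - 1))) cofinite
      (𝓝 (0 ^ (1 / (β - 1)))) :=
    ((Real.continuousAt_rpow_const 0 (1 / (β - 1)) (Or.inr (by positivity))).tendsto).comp h1
  have h3 : ∀ i : Idx β k₀, ((TT k₀ i.1) ^ (β - 1)) ^ (1 / (β - 1)) = TT k₀ i.1 := by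
    intro i
    rw [← Real.rpow_mul (TT_pos k₀ i.1).le]
    have : (β - 1) * (1 / (β - 1)) = 1 := by field_simp
    rw [this, Real.rpow_one]
  simp_rw [h3] at h2
  rw [Real.zero_rpow (by positivity)] at h2
  rw [tendsto_iff_norm_sub_tendsto_zero]
  apply squeeze_zero (fun _ => norm_nonneg _) (g := fun i : Idx β k₀ => 2 * TT k₀ i.1)
  · intro i
    rw [norm_sub_rev]
    exact pt_chord_le H i
  · have := h2.const_mul 2
    simpa using this

end

/-- the configuration -/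
noncomputable def cfg {β : ℝ} {k₀ : ℕ} (H : Cond β k₀) : Config (Idx β k₀) where
  ζ := pt β k₀
  a := fun i => (TT k₀ i.1) ^ (β - 1)
  ρ := fun i => (TT k₀ i.1) ^ β
  hζ := norm_pt H
  hζ1 := by
    intro i h
    have := (near_self H i).1
    rw [h, sub_self, norm_zero] at this
    linarith [TT_pos k₀ i.1]
  ha := fun i => Real.rpow_pos_of_pos (TT_pos k₀ i.1) _
  hρ := fun i => Real.rpow_pos_of_pos (TT_pos k₀ i.1) _
  hρ1 := fun i => Real.rpow_le_one (TT_pos k₀ i.1).le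
    ((TT_le H.hk i.1).trans (by norm_num)) (by linarith [H.hβ])
  hsum := (summable_weights H).1
  hlim := tendsto_pt H
  hsep := separation H

section
variable {β : ℝ} {k₀ : ℕ} (H : Cond β k₀)
include H

/-- lower bound for distances inside a near block, in terms of a nearest index -/
lemma exists_nearest {x : ℂ} (hx : ‖x‖ = 1) (k : ℕ)
    (h : TT k₀ k / 2 < ‖1 - x‖ ∧ ‖1 - x‖ < 4 * TT k₀ k) :
    ∃ j₀ : Fin (NN β k₀ k), ∀ j : Fin (NN β k₀ k),
      |((j : ℕ) : ℝ) - ((j₀ : ℕ) : ℝ)| * dd β k₀ k / 4 ≤ ‖pt β k₀ ⟨k, j⟩ - x‖ := by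
  have hpi := Real.pi_gt_three
  have hpi2 := Real.pi_lt_d2
  have hT := TT_pos k₀ k
  have hT1 := TT_le H.hk k
  have hd := dd_pos H k
  set t := arg x with ht
  have hxc : circleMap 0 1 t = x := by
    have := norm_mul_exp_arg_mul_I x
    rw [hx] at this
    simpa [circleMap] using this
  have htpi : |t| ≤ Real.pi := abs_arg_le_pi x
  have ht1 : 2 / Real.pi * |t| ≤ ‖1 - x‖ := by
    have h1 := chord_ge (u := 0) (v := t) (by rw [zero_sub, abs_neg]; exact htpi)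
    have h2 : circleMap 0 1 0 = 1 := by simp [circleMap]
    rwa [h2, hxc, zero_sub, abs_neg] at h1
  have ht2 : |t| ≤ 1 := by
    have h5 : 5 / 8 ≤ 2 / Real.pi := by
      rw [div_le_div_iff₀ (by norm_num) Real.pi_pos]
      linarith
    have h6 : 5 / 8 * |t| ≤ 2 / Real.pi * |t| := by gcongr
    linarith [h.2]
  have : Nonempty (Fin (NN β k₀ k)) := ⟨⟨0, by have := NN_ge H k; omega⟩⟩
  obtain ⟨j₀, hj₀⟩ := Finite.exists_min (fun j : Fin (NN β k₀ k) => |ang β k₀ ⟨k, j⟩ - t|)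
  refine ⟨j₀, ?_⟩
  intro j
  have h1 : |ang β k₀ ⟨k, j⟩ - t| ≤ Real.pi := by
    have a1 := ang_ge H ⟨k, j⟩
    have a2 := ang_le H ⟨k, j⟩
    have a3 := abs_le.mp ht2
    simp only at a1 a2
    rw [abs_le]
    constructor <;> linarith
  have h2 := chord_ge h1
  rw [hxc] at h2
  have h3 : |((j : ℕ) : ℝ) - ((j₀ : ℕ) : ℝ)| * dd β k₀ k ≤ 2 * |ang β k₀ ⟨k, j⟩ - t| := by
    have h4 : (((j : ℕ) : ℝ) - ((j₀ : ℕ) : ℝ)) * dd β k₀ k =
        (ang β k₀ ⟨k, j⟩ - t) - (ang β k₀ ⟨k, j₀⟩ - t) := by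
      unfold ang; ring
    calc |((j : ℕ) : ℝ) - ((j₀ : ℕ) : ℝ)| * dd β k₀ k
        = |(((j : ℕ) : ℝ) - ((j₀ : ℕ) : ℝ)) * dd β k₀ k| := by rw [abs_mul, abs_of_pos hd]
      _ ≤ |ang β k₀ ⟨k, j⟩ - t| + |ang β k₀ ⟨k, j₀⟩ - t| := by rw [h4]; exact abs_sub _ _
      _ ≤ 2 * |ang β k₀ ⟨k, j⟩ - t| := by linarith [hj₀ j]
  have h5 : 1 / 2 ≤ 2 / Real.pi := by
    rw [div_le_div_iff₀ (by norm_num) Real.pi_pos]
    linarith
  have h6 : 1 / 2 * |ang β k₀ ⟨k, j⟩ - t| ≤ 2 / Real.pi * |ang β k₀ ⟨k, j⟩ - t| := by gcongr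
  have h7 : ‖pt β k₀ ⟨k, j⟩ - x‖ = ‖circleMap 0 1 (ang β k₀ ⟨k, j⟩) - x‖ := rfl
  rw [h7]
  linarith

/-- The sums over all indices but one. -/
lemma sums_near {x : ℂ} (hx : ‖x‖ = 1) (hE : x ∉ (cfg H).E) (k : ℕ)
    (h : TT k₀ k / 2 < ‖1 - x‖ ∧ ‖1 - x‖ < 4 * TT k₀ k) [DecidableEq (Idx β k₀)] :
    ∃ i₀ : Idx β k₀, i₀.1 = k ∧
      ∑' i : Idx β k₀, ite (i = i₀) 0 ((cfg H).a i / ‖(cfg H).ζ i - x‖) ≤
        (1 / 12) / ‖1 - x‖ ∧
      ∑' i : Idx β k₀, ite (i = i₀) 0 ((cfg H).a i / ‖(cfg H).ζ i - x‖ ^ 2) ≤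
        (4 ^ (1 + β) + 2 ^ β) * ‖1 - x‖ ^ (-(1 + β)) := by
  have hx1 := ((cfg H).ne_of_notMem hE).1
  have hτ : 0 < ‖1 - x‖ := norm_pos_iff.mpr (sub_ne_zero.mpr hx1.symm)
  have hτ2 : ‖1 - x‖ ≤ 2 := Config.chord_le_two hx
  have hT := TT_pos k₀ k
  have hd := dd_pos H k
  have hβ := H.hβ
  obtain ⟨j₀, hj₀⟩ := exists_nearest H hx k h
  set τ := ‖1 - x‖ with hτdef
  set i₀ : Idx β k₀ := ⟨k, j₀⟩ with hi₀
  refine ⟨i₀, rfl, ?_⟩
  obtain ⟨hws, hwle⟩ := summable_weights H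
  -- majorants
  set a₀ : ℝ := (TT k₀ k) ^ (β - 1) with ha₀
  have ha₀pos : 0 < a₀ := Real.rpow_pos_of_pos hT _
  set g : Fin (NN β k₀ k) → ℝ := fun j =>
    if (j : ℕ) = (j₀ : ℕ) then 0 else 1 / |((j : ℕ) : ℝ) - ((j₀ : ℕ) : ℝ)| with hg
  have hgnn : ∀ j, 0 ≤ g j := by
    intro j; simp only [hg]; split_ifs
    · exact le_refl 0
    · positivity
  set G1 : Idx β k₀ → ℝ := fun i => if hik : i.1 = k then
    g (Fin.cast (by rw [hik]) i.2) else 0 with hG1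
  have hG1k : ∀ j : Fin (NN β k₀ k), G1 ⟨k, j⟩ = g j := by
    intro j; simp [hG1]
  have hG1supp : Function.support G1 ⊆ range (fun j : Fin (NN β k₀ k) => (⟨k, j⟩ : Idx β k₀)) := by
    rintro ⟨k', j⟩ hmem
    by_cases hk' : k' = k
    · subst hk'; exact ⟨j, rfl⟩
    · exfalso; apply hmem; simp [hG1, hk']
  have hinj : Function.Injective (fun j : Fin (NN β k₀ k) => (⟨k, j⟩ : Idx β k₀)) := by
    intro a b hab
    simpa using hab
  have hG1sum : Summable G1 := by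
    apply summable_of_hasFiniteSupport
    exact (finite_range _).subset hG1supp
  have hG1tsum : ∑' i, G1 i = ∑ j : Fin (NN β k₀ k), g j := by
    rw [← hinj.tsum_eq hG1supp, tsum_fintype]
    simp_rw [hG1k]
  have hgsum : ∑ j : Fin (NN β k₀ k), g j ≤ 2 * (1 + Real.log (NN β k₀ k)) := by
    have h1 := sum_inv_dist_le (NN β k₀ k) j₀ j₀.2
    rw [← Fin.sum_univ_eq_sum_range
      (fun j => if j = (j₀ : ℕ) then (0:ℝ) else 1 / |(j:ℝ) - ((j₀ : ℕ) : ℝ)|)] at h1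
    exact h1
  have hl := H.hl k
  have hmpos : 0 < (((k + k₀ : ℕ) : ℝ)) ^ (-β) :=
    Real.rpow_pos_of_pos (by linarith [cast_pos H k]) _
  have had := a_div_d H k
  have hkey : (4 * a₀ / dd β k₀ k) * ∑' i, G1 i ≤ (1 / 96) / TT k₀ k := by
    rw [hG1tsum]
    have h1 : 4 * a₀ / dd β k₀ k = 4 * ((((k + k₀ : ℕ) : ℝ)) ^ (-β) / TT k₀ k) := by
      rw [← had]; ring
    rw [h1]
    calc 4 * ((((k + k₀ : ℕ) : ℝ)) ^ (-β) / TT k₀ k) * ∑ j : Fin (NN β k₀ k), g j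
        ≤ 4 * ((((k + k₀ : ℕ) : ℝ)) ^ (-β) / TT k₀ k) * (2 * (1 + Real.log (NN β k₀ k))) := by
          gcongr
      _ = 8 * ((((k + k₀ : ℕ) : ℝ)) ^ (-β) * (1 + Real.log (NN β k₀ k))) / TT k₀ k := by ring
      _ ≤ 8 * (1 / 768) / TT k₀ k := by gcongr
      _ = (1 / 96) / TT k₀ k := by ring
  -- termwise bounds
  have hterm : ∀ i : Idx β k₀, ite (i = i₀) 0 ((cfg H).a i / ‖(cfg H).ζ i - x‖) ≤
      (4 * a₀ / dd β k₀ k) * G1 i + (4 / τ) * (TT k₀ i.1) ^ (β - 1) := by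
    intro i
    have hw : 0 < (TT k₀ i.1) ^ (β - 1) := Real.rpow_pos_of_pos (TT_pos k₀ i.1) _
    by_cases hii : i = i₀
    · rw [if_pos hii]
      have hG1nn : 0 ≤ G1 i := by rw [hii, hi₀, hG1k]; exact hgnn _
      positivity
    · rw [if_neg hii]
      by_cases hik : i.1 = k
      · obtain ⟨k', j⟩ := i
        simp only at hik
        subst hik
        rw [hG1k]
        have hjne : (j : ℕ) ≠ (j₀ : ℕ) := by
          intro hjj
          apply hii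
          have : j = j₀ := Fin.ext hjj
          rw [this]
        have hgj : g j = 1 / |((j : ℕ) : ℝ) - ((j₀ : ℕ) : ℝ)| := by simp [hg, hjne]
        have habs : 0 < |((j : ℕ) : ℝ) - ((j₀ : ℕ) : ℝ)| := by
          rw [abs_pos, sub_ne_zero]
          exact_mod_cast hjne
        have hdist := hj₀ j
        have h2 : (cfg H).a ⟨k', j⟩ / ‖(cfg H).ζ ⟨k', j⟩ - x‖ ≤
            a₀ / (|((j : ℕ) : ℝ) - ((j₀ : ℕ) : ℝ)| * dd β k₀ k' / 4) := by
          apply div_le_div_of_nonneg_left ha₀pos.le (by positivity) hdist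
        have h3 : a₀ / (|((j : ℕ) : ℝ) - ((j₀ : ℕ) : ℝ)| * dd β k₀ k' / 4) =
            (4 * a₀ / dd β k₀ k') * g j := by
          rw [hgj]; field_simp
        rw [h3] at h2
        have h4 : 0 < (4 / τ) * (TT k₀ k') ^ (β - 1) := by positivity
        simp only
        linarith
      · have hG1i : G1 i = 0 := by simp [hG1, hik]
        rw [hG1i, mul_zero, zero_add]
        have hfar := dist_far H i (x := x) (fun hn => hik (near_unique H hn h))
        calc (cfg H).a i / ‖(cfg H).ζ i - x‖ ≤ (TT k₀ i.1) ^ (β - 1) / (τ / 4) :=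
              div_le_div_of_nonneg_left hw.le (by positivity) hfar
          _ = (4 / τ) * (TT k₀ i.1) ^ (β - 1) := by field_simp
  have hbd1 : ∑' i : Idx β k₀, ite (i = i₀) 0 ((cfg H).a i / ‖(cfg H).ζ i - x‖) ≤
      (4 * a₀ / dd β k₀ k) * ∑' i, G1 i + (4 / τ) * ∑' i : Idx β k₀, (TT k₀ i.1) ^ (β - 1) := by
    have hs1 := hG1sum.mul_left (4 * a₀ / dd β k₀ k)
    have hs2 := hws.mul_left (4 / τ)
    rw [← tsum_mul_left, ← tsum_mul_left, ← hs1.tsum_add hs2]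
    apply Summable.tsum_le_tsum hterm _ (hs1.add hs2)
    apply Summable.of_nonneg_of_le _ hterm (hs1.add hs2)
    intro i; split_ifs
    · exact le_refl 0
    · exact div_nonneg ((cfg H).ha i).le (norm_nonneg _)
  have hTτ : 1 / TT k₀ k ≤ 4 / τ := by
    rw [div_le_div_iff₀ hT hτ]; linarith [h.2]
  constructor
  · calc _ ≤ (4 * a₀ / dd β k₀ k) * ∑' i, G1 i +
          (4 / τ) * ∑' i : Idx β k₀, (TT k₀ i.1) ^ (β - 1) := hbd1
      _ ≤ (1 / 96) / TT k₀ k + (4 / τ) * (1 / 96) := by gcongr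
      _ = (1 / 96) * (1 / TT k₀ k) + (1 / 24) * (1 / τ) := by ring
      _ ≤ (1 / 96) * (4 / τ) + (1 / 24) * (1 / τ) := by gcongr
      _ = (1 / 12) / τ := by ring
  · -- squares
    have hρpos : 0 < (TT k₀ k) ^ β := Real.rpow_pos_of_pos hT _
    have hterm2 : ∀ i : Idx β k₀, ite (i = i₀) 0 ((cfg H).a i / ‖(cfg H).ζ i - x‖ ^ 2) ≤
        (4 / (TT k₀ k) ^ β) * ((4 * a₀ / dd β k₀ k) * G1 i) +
          (16 / τ ^ 2) * (TT k₀ i.1) ^ (β - 1) := by
      intro i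
      have hw : 0 < (TT k₀ i.1) ^ (β - 1) := Real.rpow_pos_of_pos (TT_pos k₀ i.1) _
      by_cases hii : i = i₀
      · rw [if_pos hii]
        have hG1nn : 0 ≤ G1 i := by rw [hii, hi₀, hG1k]; exact hgnn _
        positivity
      · rw [if_neg hii]
        by_cases hik : i.1 = k
        · obtain ⟨k', j⟩ := i
          simp only at hik
          subst hik
          rw [hG1k]
          have hjne : (j : ℕ) ≠ (j₀ : ℕ) := by
            intro hjj
            apply hii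
            have : j = j₀ := Fin.ext hjj
            rw [this]
          have hgj : g j = 1 / |((j : ℕ) : ℝ) - ((j₀ : ℕ) : ℝ)| := by simp [hg, hjne]
          have habs1 : 1 ≤ |((j : ℕ) : ℝ) - ((j₀ : ℕ) : ℝ)| := by
            have h3 : (((j : ℕ) : ℤ) - ((j₀ : ℕ) : ℤ)) ≠ 0 := by omega
            have h4 := Int.one_le_abs h3
            exact_mod_cast h4
          have habs : 0 < |((j : ℕ) : ℝ) - ((j₀ : ℕ) : ℝ)| := by linarith
          have hdist := hj₀ j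
          have hrho := rho_le_dd H k'
          have hdist2 : (TT k₀ k') ^ β / 4 ≤ ‖(cfg H).ζ ⟨k', j⟩ - x‖ := by
            refine le_trans ?_ hdist
            have : dd β k₀ k' ≤ |((j : ℕ) : ℝ) - ((j₀ : ℕ) : ℝ)| * dd β k₀ k' := by nlinarith
            linarith
          have hrpos : 0 < ‖(cfg H).ζ ⟨k', j⟩ - x‖ := lt_of_lt_of_le (by positivity) hdist2
          have h2 : (cfg H).a ⟨k', j⟩ / ‖(cfg H).ζ ⟨k', j⟩ - x‖ ≤
              a₀ / (|((j : ℕ) : ℝ) - ((j₀ : ℕ) : ℝ)| * dd β k₀ k' / 4) := by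
            apply div_le_div_of_nonneg_left ha₀pos.le (by positivity) hdist
          have h3 : a₀ / (|((j : ℕ) : ℝ) - ((j₀ : ℕ) : ℝ)| * dd β k₀ k' / 4) =
              (4 * a₀ / dd β k₀ k') * g j := by
            rw [hgj]; field_simp
          rw [h3] at h2
          have h5 : 1 / ‖(cfg H).ζ ⟨k', j⟩ - x‖ ≤ 4 / (TT k₀ k') ^ β := by
            rw [div_le_div_iff₀ hrpos hρpos]
            linarith
          have h6 : (cfg H).a ⟨k', j⟩ / ‖(cfg H).ζ ⟨k', j⟩ - x‖ ^ 2 ≤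
              (4 / (TT k₀ k') ^ β) * ((4 * a₀ / dd β k₀ k') * g j) := by
            have h7 : (cfg H).a ⟨k', j⟩ / ‖(cfg H).ζ ⟨k', j⟩ - x‖ ^ 2 =
                (1 / ‖(cfg H).ζ ⟨k', j⟩ - x‖) *
                  ((cfg H).a ⟨k', j⟩ / ‖(cfg H).ζ ⟨k', j⟩ - x‖) := by field_simp
            rw [h7]
            have h8 : 0 ≤ (cfg H).a ⟨k', j⟩ / ‖(cfg H).ζ ⟨k', j⟩ - x‖ :=
              div_nonneg ((cfg H).ha _).le (norm_nonneg _)
            gcongr
          have h4 : 0 < (16 / τ ^ 2) * (TT k₀ k') ^ (β - 1) := by positivity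
          simp only
          linarith
        · have hG1i : G1 i = 0 := by simp [hG1, hik]
          rw [hG1i, mul_zero, mul_zero, zero_add]
          have hfar := dist_far H i (x := x) (fun hn => hik (near_unique H hn h))
          calc (cfg H).a i / ‖(cfg H).ζ i - x‖ ^ 2 ≤ (TT k₀ i.1) ^ (β - 1) / (τ / 4) ^ 2 := by
                apply div_le_div_of_nonneg_left hw.le (by positivity)
                exact pow_le_pow_left₀ (by positivity) hfar 2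
            _ = (16 / τ ^ 2) * (TT k₀ i.1) ^ (β - 1) := by field_simp; norm_num
    have hbd2 : ∑' i : Idx β k₀, ite (i = i₀) 0 ((cfg H).a i / ‖(cfg H).ζ i - x‖ ^ 2) ≤
        (4 / (TT k₀ k) ^ β) * ((4 * a₀ / dd β k₀ k) * ∑' i, G1 i) +
          (16 / τ ^ 2) * ∑' i : Idx β k₀, (TT k₀ i.1) ^ (β - 1) := by
      have hs1 := (hG1sum.mul_left (4 * a₀ / dd β k₀ k)).mul_left (4 / (TT k₀ k) ^ β)
      have hs2 := hws.mul_left (16 / τ ^ 2)
      rw [← tsum_mul_left, ← tsum_mul_left, ← tsum_mul_left, ← hs1.tsum_add hs2]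
      apply Summable.tsum_le_tsum hterm2 _ (hs1.add hs2)
      apply Summable.of_nonneg_of_le _ hterm2 (hs1.add hs2)
      intro i; split_ifs
      · exact le_refl 0
      · exact div_nonneg ((cfg H).ha i).le (by positivity)
    have e1 : (4 / (TT k₀ k) ^ β) * ((1 / 96) / TT k₀ k) ≤ 4 ^ (1 + β) * τ ^ (-(1 + β)) := by
      have h1 : (4 / (TT k₀ k) ^ β) * ((1 / 96) / TT k₀ k) = (1 / 24) * (TT k₀ k) ^ (-(1 + β)) := by
        rw [Real.rpow_neg hT.le, Real.rpow_add hT, Real.rpow_one]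
        field_simp
        norm_num
      have h2 : (TT k₀ k) ^ (-(1 + β)) ≤ (τ / 4) ^ (-(1 + β)) :=
        Real.rpow_le_rpow_of_nonpos (by positivity) (by linarith [h.2]) (by linarith)
      have h3 : (τ / 4) ^ (-(1 + β)) = 4 ^ (1 + β) * τ ^ (-(1 + β)) := by
        rw [Real.div_rpow hτ.le (by norm_num), div_eq_mul_inv, ← Real.rpow_neg (by norm_num),
          neg_neg, mul_comm]
      rw [h1]
      have h4 : 0 < (TT k₀ k) ^ (-(1 + β)) := Real.rpow_pos_of_pos hT _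
      linarith
    have e2 : (16 / τ ^ 2) * (1 / 96) ≤ 2 ^ β * τ ^ (-(1 + β)) := by
      have h1 := Config.one_le_rpow hβ hτ hτ2
      have h2 : τ ^ (1 - β) = τ ^ (-(1 + β)) * τ ^ 2 := by
        rw [← Real.rpow_natCast τ 2, ← Real.rpow_add hτ]
        congr 1
        push_cast; ring
      rw [h2] at h1
      have h3 : (2:ℝ) ^ (β - 1) ≤ 2 ^ β :=
        Real.rpow_le_rpow_of_exponent_le (by norm_num) (by linarith)
      have h5 : 0 < τ ^ (-(1 + β)) := Real.rpow_pos_of_pos hτ _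
      have h4 : 1 ≤ 2 ^ β * (τ ^ (-(1 + β)) * τ ^ 2) := by
        refine h1.trans ?_
        gcongr
      have h6 : (16 / τ ^ 2) * (1 / 96) = (1 / 6) / τ ^ 2 := by ring
      rw [h6, div_le_iff₀ (by positivity)]
      linarith
    calc _ ≤ (4 / (TT k₀ k) ^ β) * ((4 * a₀ / dd β k₀ k) * ∑' i, G1 i) +
          (16 / τ ^ 2) * ∑' i : Idx β k₀, (TT k₀ i.1) ^ (β - 1) := hbd2
      _ ≤ (4 / (TT k₀ k) ^ β) * ((1 / 96) / TT k₀ k) + (16 / τ ^ 2) * (1 / 96) := by gcongr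
      _ ≤ 4 ^ (1 + β) * τ ^ (-(1 + β)) + 2 ^ β * τ ^ (-(1 + β)) := add_le_add e1 e2
      _ = _ := by ring

end

end PeakGevrey
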