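import Mathlib
import Pool.Agent.H33.Peak.PartC

open MeasureTheory Filter Topology Complex Metric Set

namespace PeakGevrey

section
variable {β : ℝ} {k₀ : ℕ} (H : Cond β k₀)
include H

/-- The sums over all indices when no block is near `x`. -/
lemma sums_far {x : ℂ} (hx : ‖x‖ = 1) (hE : x ∉ (cfg H).E)
    (h : ∀ k, ¬ (TT k₀ k / 2 < ‖1 - x‖ ∧ ‖1 - x‖ < 4 * TT k₀ k)) :
      ∑' i : Idx β k₀, ((cfg H).a i / ‖(cfg H).ζ i - x‖) ≤ (1 / 6) / ‖1 - x‖ ∧
      ∑' i : Idx β k₀, ((cfg H).a i / ‖(cfg H).ζ i - x‖ ^ 2) ≤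
        2 ^ β * ‖1 - x‖ ^ (-(1 + β)) := by
  have hx1 := ((cfg H).ne_of_notMem hE).1
  have hτ : 0 < ‖1 - x‖ := norm_pos_iff.mpr (sub_ne_zero.mpr hx1.symm)
  have hτ2 : ‖1 - x‖ ≤ 2 := Config.chord_le_two hx
  have hβ := H.hβ
  set τ := ‖1 - x‖ with hτdef
  obtain ⟨hws, hwle⟩ := summable_weights H
  have hfar : ∀ i : Idx β k₀, τ / 4 ≤ ‖(cfg H).ζ i - x‖ := fun i => dist_far H i (h i.1)
  constructor
  · have h1 : ∑' i : Idx β k₀, ((cfg H).a i / ‖(cfg H).ζ i - x‖) ≤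
        ∑' i : Idx β k₀, (4 / τ) * (TT k₀ i.1) ^ (β - 1) := by
      apply Summable.tsum_le_tsum _ ((cfg H).summable_div hE) (hws.mul_left _)
      intro i
      have hw : 0 < (TT k₀ i.1) ^ (β - 1) := Real.rpow_pos_of_pos (TT_pos k₀ i.1) _
      calc (cfg H).a i / ‖(cfg H).ζ i - x‖ ≤ (TT k₀ i.1) ^ (β - 1) / (τ / 4) :=
            div_le_div_of_nonneg_left hw.le (by positivity) (hfar i)
        _ = (4 / τ) * (TT k₀ i.1) ^ (β - 1) := by field_simp
    rw [tsum_mul_left] at h1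
    calc _ ≤ (4 / τ) * ∑' i : Idx β k₀, (TT k₀ i.1) ^ (β - 1) := h1
      _ ≤ (4 / τ) * (1 / 96) := by gcongr
      _ ≤ (1 / 6) / τ := by
          rw [div_mul_eq_mul_div]
          gcongr
          norm_num
  · have h1 : ∑' i : Idx β k₀, ((cfg H).a i / ‖(cfg H).ζ i - x‖ ^ 2) ≤
        ∑' i : Idx β k₀, (16 / τ ^ 2) * (TT k₀ i.1) ^ (β - 1) := by
      apply Summable.tsum_le_tsum _ ((cfg H).summable_div_sq hE) (hws.mul_left _)
      intro i
      have hw : 0 < (TT k₀ i.1) ^ (β - 1) := Real.rpow_pos_of_pos (TT_pos k₀ i.1) _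
      calc (cfg H).a i / ‖(cfg H).ζ i - x‖ ^ 2 ≤ (TT k₀ i.1) ^ (β - 1) / (τ / 4) ^ 2 := by
            apply div_le_div_of_nonneg_left hw.le (by positivity)
            exact pow_le_pow_left₀ (by positivity) (hfar i) 2
        _ = (16 / τ ^ 2) * (TT k₀ i.1) ^ (β - 1) := by field_simp; norm_num
    rw [tsum_mul_left] at h1
    have e2 : (16 / τ ^ 2) * (1 / 96) ≤ 2 ^ β * τ ^ (-(1 + β)) := by
      have h1 := Config.one_le_rpow hβ hτ hτ2
      have h2 : τ ^ (1 - β) = τ ^ (-(1 + β)) * τ ^ 2 := by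
        rw [← Real.rpow_natCast τ 2, ← Real.rpow_add hτ]
        congr 1
        push_cast; ring
      rw [h2] at h1
      have h3 : (2:ℝ) ^ (β - 1) ≤ 2 ^ β :=
        Real.rpow_le_rpow_of_exponent_le (by norm_num) (by linarith)
      have h5 : 0 < τ ^ (-(1 + β)) := Real.rpow_pos_of_pos hτ _
      have h4 : 1 ≤ 2 ^ β * (τ ^ (-(1 + β)) * τ ^ 2) := by
        refine h1.trans ?_
        gcongr
      have h6 : (16 / τ ^ 2) * (1 / 96) = (1 / 6) / τ ^ 2 := by ring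
      rw [h6, div_le_iff₀ (by positivity)]
      linarith
    calc _ ≤ (16 / τ ^ 2) * ∑' i : Idx β k₀, (TT k₀ i.1) ^ (β - 1) := h1
      _ ≤ (16 / τ ^ 2) * (1 / 96) := by gcongr
      _ ≤ _ := e2

end

lemma good_cfg {α : ℝ} {k₀ : ℕ} (H : Cond (1 / α) k₀) :
    ∃ c C : ℝ, 0 < c ∧ 0 ≤ C ∧ (cfg H).Good α c C := by
  classical
  have hβ := H.hβ
  set β := 1 / α with hβdef
  set C' : ℝ := 2 * 4 ^ (1 + β) + 2 ^ β with hC'
  have hC'0 : 0 ≤ C' := by positivity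
  set C1 : ℝ := 4 * 2 ^ (β - 1) + 20 * C' with hC1
  set C2 : ℝ := ((2 * (48 + 1) ^ 2) ^ 2 * (2 ^ (β - 1) + 5 * C') +
        5 * (1 + 6 * (2 * (48 + 1) ^ 2)) ^ 2 * 4 ^ (β - 1)) with hC2
  have hC10 : 0 ≤ C1 := by positivity
  have hC20 : 0 ≤ C2 := by positivity
  refine ⟨1 / (2 * (48 + 1) ^ 2), C1 + C2, by norm_num, by positivity, ?_⟩
  intro x hx hE
  have hx1 := ((cfg H).ne_of_notMem hE).1
  have hτ : 0 < ‖1 - x‖ := norm_pos_iff.mpr (sub_ne_zero.mpr hx1.symm)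
  have hpow : 0 < ‖1 - x‖ ^ (1 - β) := Real.rpow_pos_of_pos hτ _
  -- conclusions from the two kinds of bounds
  have finish1 : ((1 / 2) / ‖1 - x‖ ≤ ‖(cfg H).W x‖ ∧
      (cfg H).AA x / ‖(cfg H).W x‖ ^ 2 ≤ C1 * ‖1 - x‖ ^ (1 - β)) →
      (1 / (2 * (48 + 1) ^ 2) / ‖1 - x‖ ≤ ‖(cfg H).W x‖ ∧
      (cfg H).AA x / ‖(cfg H).W x‖ ^ 2 ≤ (C1 + C2) * ‖1 - x‖ ^ (1 - β)) := by
    rintro ⟨h1, h2⟩
    constructor
    · refine le_trans ?_ h1
      gcongr
      norm_num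
    · refine h2.trans ?_
      gcongr
      linarith
  have finish2 : ((1 / (2 * (48 + 1) ^ 2)) / ‖1 - x‖ ≤ ‖(cfg H).W x‖ ∧
      (cfg H).AA x / ‖(cfg H).W x‖ ^ 2 ≤ C2 * ‖1 - x‖ ^ (1 - β)) →
      (1 / (2 * (48 + 1) ^ 2) / ‖1 - x‖ ≤ ‖(cfg H).W x‖ ∧
      (cfg H).AA x / ‖(cfg H).W x‖ ^ 2 ≤ (C1 + C2) * ‖1 - x‖ ^ (1 - β)) := by
    rintro ⟨h1, h2⟩
    refine ⟨h1, h2.trans ?_⟩
    gcongr
    linarith
  by_cases hnear : ∃ k, TT k₀ k / 2 < ‖1 - x‖ ∧ ‖1 - x‖ < 4 * TT k₀ k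
  · obtain ⟨k, hk⟩ := hnear
    obtain ⟨i₀, hi₀, hS1, hS2⟩ := sums_near H hx hE k hk
    have hT := TT_pos k₀ k
    have ha : (cfg H).a i₀ = (TT k₀ k) ^ (β - 1) := by rw [← hi₀]; rfl
    have hρ : (cfg H).ρ i₀ = (TT k₀ k) ^ β := by rw [← hi₀]; rfl
    have hxpow : 0 < ‖1 - x‖ ^ (-(1 + β)) := Real.rpow_pos_of_pos hτ _
    by_cases hr : ‖(cfg H).ζ i₀ - x‖ ≤ 48 * (cfg H).ρ i₀
    · apply finish2
      apply (cfg H).near_bound hβ hC'0 (by norm_num : (0:ℝ) < 48) hT hx hE i₀ ha hρ hk.1 hk.2 hr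
      · refine hS1.trans ?_
        gcongr
        norm_num
      · refine hS2.trans ?_
        have : (0:ℝ) < 4 ^ (1 + β) := by positivity
        gcongr
        rw [hC']
        linarith
    · apply finish1
      push Not at hr
      have hρ0 := (cfg H).hρ i₀
      have ha0 := (cfg H).ha i₀
      have hrpos : 0 < ‖(cfg H).ζ i₀ - x‖ := lt_trans (by positivity) hr
      have haρ : (cfg H).a i₀ / (cfg H).ρ i₀ = 1 / TT k₀ k := by
        rw [ha, hρ, ← Real.rpow_sub hT]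
        have : β - 1 - β = -1 := by ring
        rw [this, Real.rpow_neg_one, one_div]
      have hTτ : 1 / TT k₀ k ≤ 4 / ‖1 - x‖ := by
        rw [div_le_div_iff₀ hT hτ]; linarith [hk.2]
      have hfirst : (cfg H).a i₀ / ‖(cfg H).ζ i₀ - x‖ ≤ (1 / 12) / ‖1 - x‖ := by
        calc (cfg H).a i₀ / ‖(cfg H).ζ i₀ - x‖ ≤ (cfg H).a i₀ / (48 * (cfg H).ρ i₀) :=
              div_le_div_of_nonneg_left ha0.le (by positivity) hr.le
          _ = (1 / 48) * ((cfg H).a i₀ / (cfg H).ρ i₀) := by field_simp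
          _ = (1 / 48) * (1 / TT k₀ k) := by rw [haρ]
          _ ≤ (1 / 48) * (4 / ‖1 - x‖) := by gcongr
          _ = (1 / 12) / ‖1 - x‖ := by ring
      have hsecond : (cfg H).a i₀ / ‖(cfg H).ζ i₀ - x‖ ^ 2 ≤
          4 ^ (1 + β) * ‖1 - x‖ ^ (-(1 + β)) := by
        have h1 : (cfg H).a i₀ / ‖(cfg H).ζ i₀ - x‖ ^ 2 ≤ (cfg H).a i₀ / ((cfg H).ρ i₀) ^ 2 := by
          apply div_le_div_of_nonneg_left ha0.le (by positivity)
          apply pow_le_pow_left₀ hρ0.le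
          linarith
        have h2 : (cfg H).a i₀ / ((cfg H).ρ i₀) ^ 2 = (TT k₀ k) ^ (-(1 + β)) := by
          have : (cfg H).a i₀ / ((cfg H).ρ i₀) ^ 2 = ((cfg H).a i₀ / (cfg H).ρ i₀) /
              (cfg H).ρ i₀ := by field_simp
          rw [this, haρ, hρ, Real.rpow_neg hT.le, Real.rpow_add hT, Real.rpow_one]
          field_simp
        have h3 : (TT k₀ k) ^ (-(1 + β)) ≤ (‖1 - x‖ / 4) ^ (-(1 + β)) :=
          Real.rpow_le_rpow_of_nonpos (by positivity) (by linarith [hk.2]) (by linarith)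
        have h4 : (‖1 - x‖ / 4) ^ (-(1 + β)) = 4 ^ (1 + β) * ‖1 - x‖ ^ (-(1 + β)) := by
          rw [Real.div_rpow hτ.le (by norm_num), div_eq_mul_inv, ← Real.rpow_neg (by norm_num),
            neg_neg, mul_comm]
        rw [h2] at h1
        rw [h4] at h3
        exact h1.trans h3
      apply (cfg H).far_bound hβ hC'0 hx hE
      · rw [((cfg H).summable_div hE).tsum_eq_add_tsum_ite i₀]
        have : (1 / 6) / ‖1 - x‖ = (1 / 12) / ‖1 - x‖ + (1 / 12) / ‖1 - x‖ := by ring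
        rw [this]
        exact add_le_add hfirst hS1
      · rw [((cfg H).summable_div_sq hE).tsum_eq_add_tsum_ite i₀]
        have : C' * ‖1 - x‖ ^ (-(1 + β)) = 4 ^ (1 + β) * ‖1 - x‖ ^ (-(1 + β)) +
            (4 ^ (1 + β) + 2 ^ β) * ‖1 - x‖ ^ (-(1 + β)) := by rw [hC']; ring
        rw [this]
        exact add_le_add hsecond hS2
  · push Not at hnear
    apply finish1
    obtain ⟨hS1, hS2⟩ := sums_far H hx hE (fun k hk => by
      have := hnear k hk.1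
      linarith [hk.2])
    have hxpow : 0 < ‖1 - x‖ ^ (-(1 + β)) := Real.rpow_pos_of_pos hτ _
    apply (cfg H).far_bound hβ hC'0 hx hE hS1
    refine hS2.trans ?_
    have : (0:ℝ) < 4 ^ (1 + β) := by positivity
    gcongr
    rw [hC']
    linarith

/-- existence of a good `k₀` -/
lemma exists_cond {β : ℝ} (hβ : 1 < β) : ∃ k₀ : ℕ, Cond β k₀ := by
  have hlog8 : 0 < Real.log 8 := Real.log_pos (by norm_num)
  have hb : 0 < (β - 1) * Real.log 8 := mul_pos (by linarith) hlog8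
  have e1 : ∀ᶠ x : ℝ in atTop, x ^ β * Real.exp (-((β - 1) * Real.log 8) * x) ≤ 1 / 8 :=
    (tendsto_rpow_mul_exp_neg_mul_atTop_nhds_zero β _ hb).eventually_le_const (by norm_num)
  have e2 : ∀ᶠ x : ℝ in atTop, x ^ (-β) + (β - 1) * Real.log 8 * x ^ (-(β - 1)) ≤ 1 / 768 := by
    have h1 := tendsto_rpow_neg_atTop (show 0 < β by linarith)
    have h2 := (tendsto_rpow_neg_atTop (show 0 < β - 1 by linarith)).const_mul
      ((β - 1) * Real.log 8)
    have h3 := h1.add h2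
    rw [mul_zero, add_zero] at h3
    exact h3.eventually_le_const (by norm_num)
  obtain ⟨M, hM⟩ := Filter.eventually_atTop.mp (e1.and e2)
  have hs0 : Summable (fun k : ℕ => ((k : ℕ) : ℝ) ^ (-β)) :=
    Real.summable_nat_rpow.mpr (by linarith)
  have e3 : ∀ᶠ i : ℕ in atTop, ∑' k : ℕ, (((k + i : ℕ) : ℝ)) ^ (-β) ≤ 1 / 96 :=
    (tendsto_sum_nat_add (fun k : ℕ => ((k : ℕ) : ℝ) ^ (-β))).eventually_le_const (by norm_num)
  obtain ⟨K, hK⟩ := Filter.eventually_atTop.mp e3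
  set k₀ : ℕ := max (max K 1) ⌈M⌉₊ with hk₀
  have hk1 : 1 ≤ k₀ := (le_max_right K 1).trans (le_max_left _ _)
  have hkK : K ≤ k₀ := (le_max_left K 1).trans (le_max_left _ _)
  have hkM : ∀ k : ℕ, M ≤ ((k + k₀ : ℕ) : ℝ) := by
    intro k
    have h1 : M ≤ (⌈M⌉₊ : ℝ) := Nat.le_ceil M
    have h2 : ⌈M⌉₊ ≤ k + k₀ := (le_max_right _ _).trans (Nat.le_add_left _ _)
    have h3 : (⌈M⌉₊ : ℝ) ≤ ((k + k₀ : ℕ) : ℝ) := by exact_mod_cast h2
    linarith
  have hm1 : ∀ k : ℕ, (1:ℝ) ≤ ((k + k₀ : ℕ) : ℝ) := by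
    intro k
    have : 1 ≤ k + k₀ := by omega
    exact_mod_cast this
  have hlogT : ∀ k : ℕ, Real.log (TT k₀ k) = -(((k + k₀ : ℕ) : ℝ) * Real.log 8) := by
    intro k
    unfold TT
    rw [Real.log_pow, one_div, Real.log_inv]
    ring
  refine ⟨k₀, hβ, hk1, ?_, ?_, hK k₀ hkK, ?_⟩
  · intro k
    have hT := TT_pos k₀ k
    have h1 := (hM _ (hkM k)).1
    have h2 : Real.exp (-((β - 1) * Real.log 8) * ((k + k₀ : ℕ) : ℝ)) = (TT k₀ k) ^ (β - 1) := by
      rw [Real.rpow_def_of_pos hT, hlogT k]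
      congr 1
      ring
    rw [h2] at h1
    unfold dd
    rw [Real.mul_rpow (by positivity) hT.le]
    have h3 : (TT k₀ k) ^ β = (TT k₀ k) ^ (β - 1) * TT k₀ k := by
      rw [Real.rpow_sub hT, Real.rpow_one]; field_simp
    rw [h3]
    calc (((k + k₀ : ℕ) : ℝ)) ^ β * ((TT k₀ k) ^ (β - 1) * TT k₀ k)
        = ((((k + k₀ : ℕ) : ℝ)) ^ β * (TT k₀ k) ^ (β - 1)) * TT k₀ k := by ring
      _ ≤ (1 / 8) * TT k₀ k := by gcongr
      _ = TT k₀ k / 8 := by ring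
  · exact (summable_nat_add_iff k₀).mpr hs0
  · intro k
    have hT := TT_pos k₀ k
    have hm := hm1 k
    have hmpos : 0 < ((k + k₀ : ℕ) : ℝ) := by linarith
    have h1 := (hM _ (hkM k)).2
    have hmβ : 0 < (((k + k₀ : ℕ) : ℝ)) ^ (-β) := Real.rpow_pos_of_pos hmpos _
    have hlogN : Real.log (NN β k₀ k) ≤ (β - 1) * Real.log 8 * ((k + k₀ : ℕ) : ℝ) := by
      rcases Nat.eq_zero_or_pos (NN β k₀ k) with h0 | hpos
      · rw [h0]
        simp only [Nat.cast_zero, Real.log_zero]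
        positivity
      · have hd : 0 < dd β k₀ k := by
          unfold dd
          exact Real.rpow_pos_of_pos (by positivity) _
        have h2 : (NN β k₀ k : ℝ) ≤ TT k₀ k / dd β k₀ k := Nat.floor_le (by positivity)
        have h3 := Real.log_le_log (by exact_mod_cast hpos) h2
        rw [Real.log_div hT.ne' hd.ne'] at h3
        have h4 : Real.log (dd β k₀ k) =
            β * (Real.log ((k + k₀ : ℕ) : ℝ) + Real.log (TT k₀ k)) := by
          unfold dd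
          rw [Real.log_rpow (by positivity), Real.log_mul hmpos.ne' hT.ne']
        rw [h4, hlogT k] at h3
        have h5 : 0 ≤ Real.log ((k + k₀ : ℕ) : ℝ) := Real.log_nonneg hm
        have h6 : 0 ≤ β * Real.log ((k + k₀ : ℕ) : ℝ) := by
          apply mul_nonneg (by linarith) h5
        linarith
    calc (((k + k₀ : ℕ) : ℝ)) ^ (-β) * (1 + Real.log (NN β k₀ k))
        ≤ (((k + k₀ : ℕ) : ℝ)) ^ (-β) * (1 + (β - 1) * Real.log 8 * ((k + k₀ : ℕ) : ℝ)) := by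
          gcongr
      _ = (((k + k₀ : ℕ) : ℝ)) ^ (-β) + (β - 1) * Real.log 8 *
          ((((k + k₀ : ℕ) : ℝ)) ^ (-β) * ((k + k₀ : ℕ) : ℝ)) := by ring
      _ = (((k + k₀ : ℕ) : ℝ)) ^ (-β) + (β - 1) * Real.log 8 *
          (((k + k₀ : ℕ) : ℝ)) ^ (-(β - 1)) := by
          congr 2
          have : -(β - 1) = -β + 1 := by ring
          rw [this, Real.rpow_add hmpos, Real.rpow_one]
      _ ≤ 1 / 768 := h1

/-- The set is not a zero set. -/
lemma not_zero_cfg {α : ℝ} (hα0 : 0 < α) {k₀ : ℕ} (H : Cond (1 / α) k₀) :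
    ¬ IsZeroSet α (cfg H).E := by
  have hβ := H.hβ
  set β := 1 / α with hβdef
  have hβα : β * α = 1 := by rw [hβdef]; field_simp
  have hpi := Real.pi_gt_three
  apply not_isZeroSet hα0 (fun k => TT k₀ k)
    (fun k => TT k₀ k + ((NN β k₀ k : ℝ) - 1) * dd β k₀ k) (fun k => dd β k₀ k)
  · intro k
    have h1 := NN_ge H k
    have h2 : (8:ℝ) ≤ (NN β k₀ k : ℝ) := by exact_mod_cast h1
    have h3 := dd_pos H k
    have : 0 ≤ ((NN β k₀ k : ℝ) - 1) * dd β k₀ k := by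
      apply mul_nonneg (by linarith) h3.le
    linarith
  · intro k; exact (TT_pos k₀ k).le
  · intro k
    have h1 := NN_mul_le H k
    have h2 := TT_le H.hk k
    have h3 := dd_pos H k
    nlinarith
  · intro i j hij
    have hu : ∀ k, TT k₀ k + ((NN β k₀ k : ℝ) - 1) * dd β k₀ k ≤ 2 * TT k₀ k := by
      intro k
      have h1 := NN_mul_le H k
      have h3 := dd_pos H k
      nlinarith
    rw [Set.disjoint_left]
    intro t ht ht'
    simp only [mem_Ioc] at ht ht'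
    rcases lt_trichotomy i j with h | h | h
    · have h1 := TT_lt (k₀ := k₀) h
      have h2 := hu j
      have h3 := TT_pos k₀ i
      linarith [ht.1, ht'.2]
    · exact hij h
    · have h1 := TT_lt (k₀ := k₀) h
      have h2 := hu i
      have h3 := TT_pos k₀ j
      linarith [ht.2, ht'.1]
  · intro k; exact dd_pos H k
  · intro k t ht
    simp only [mem_Ioc] at ht
    have hd := dd_pos H k
    -- the index of the grid point to the left of `t`
    set j : ℕ := ⌊(t - TT k₀ k) / dd β k₀ k⌋₊ with hj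
    have h0 : 0 ≤ (t - TT k₀ k) / dd β k₀ k := div_nonneg (by linarith [ht.1]) hd.le
    have h1 : (j : ℝ) ≤ (t - TT k₀ k) / dd β k₀ k := Nat.floor_le h0
    have h2 : (t - TT k₀ k) / dd β k₀ k < (j : ℝ) + 1 := Nat.lt_floor_add_one _
    rw [le_div_iff₀ hd] at h1
    rw [div_lt_iff₀ hd] at h2
    have h3 : (j : ℝ) ≤ (NN β k₀ k : ℝ) - 1 := by
      have : (j : ℝ) * dd β k₀ k ≤ ((NN β k₀ k : ℝ) - 1) * dd β k₀ k := by linarith [ht.2]
      exact le_of_mul_le_mul_right this hd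
    have h4 : j < NN β k₀ k := by
      have : (j : ℝ) < (NN β k₀ k : ℝ) := by linarith
      exact_mod_cast this
    refine ⟨pt β k₀ ⟨k, ⟨j, h4⟩⟩, mem_insert_of_mem _ ⟨⟨k, ⟨j, h4⟩⟩, rfl⟩, ?_⟩
    refine (chord_le _ _).trans ?_
    have h5 : ang β k₀ ⟨k, ⟨j, h4⟩⟩ = TT k₀ k + j * dd β k₀ k := rfl
    rw [h5, abs_le]
    constructor <;> linarith
  · -- divergence
    have hlow : ∀ k : ℕ, (1 / 2) * (1 / ((k + k₀ : ℕ) : ℝ)) ≤
        (TT k₀ k + ((NN β k₀ k : ℝ) - 1) * dd β k₀ k - TT k₀ k) * (dd β k₀ k) ^ (-α) := by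
      intro k
      have hT := TT_pos k₀ k
      have hd := dd_pos H k
      have hm := cast_pos H k
      have h1 := le_NN_mul H k
      have h2 := H.hd k
      have h3 : TT k₀ k / 2 ≤ ((NN β k₀ k : ℝ) - 1) * dd β k₀ k := by nlinarith
      have h4 : (dd β k₀ k) ^ (-α) = 1 / (((k + k₀ : ℕ) : ℝ) * TT k₀ k) := by
        unfold dd
        rw [← Real.rpow_mul (by positivity)]
        have : β * -α = -1 := by linarith
        rw [this, Real.rpow_neg_one, one_div]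
      rw [h4]
      have h5 : TT k₀ k + ((NN β k₀ k : ℝ) - 1) * dd β k₀ k - TT k₀ k =
          ((NN β k₀ k : ℝ) - 1) * dd β k₀ k := by ring
      rw [h5]
      calc (1 / 2) * (1 / ((k + k₀ : ℕ) : ℝ)) =
            (TT k₀ k / 2) * (1 / (((k + k₀ : ℕ) : ℝ) * TT k₀ k)) := by field_simp
        _ ≤ ((NN β k₀ k : ℝ) - 1) * dd β k₀ k * (1 / (((k + k₀ : ℕ) : ℝ) * TT k₀ k)) := by
            gcongr
    have hdiv : Tendsto (fun K => ∑ k ∈ Finset.range K, (1 / 2) * (1 / ((k + k₀ : ℕ) : ℝ)))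
        atTop atTop := by
      rw [← not_summable_iff_tendsto_nat_atTop_of_nonneg (fun k => by positivity)]
      rw [summable_mul_left_iff (by norm_num)]
      intro hs
      have h1 := (summable_nat_add_iff (f := fun k : ℕ => 1 / (k : ℝ)) k₀).mp hs
      exact Real.not_summable_one_div_natCast h1
    apply tendsto_atTop_mono _ hdiv
    intro K
    apply Finset.sum_le_sum
    intro k _
    exact hlow k

end PeakGevrey
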